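import Pool.Agent.Work.MP_e35540_an.Defs

/-!
# Part F2 (Dynin-Mityagin)

A biorthogonal system with equicontinuous coefficient maps in a nuclear Köthe space is absolute:
the ratios of its seminorms are summable.
-/

open Filter Topology

namespace QEP

namespace F2

variable (K : KMat)

theorem b_mono {p q : ℕ} (h : p ≤ q) (i : ℕ) : K.b i p ≤ K.b i q :=
  monotone_nat_of_le_succ (fun n => K.mono i n) h

theorem sn_mono {p q : ℕ} (h : p ≤ q) (v : K.Space) : K.sn p v ≤ K.sn q v := by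
  rw [KMat.sn_apply, KMat.sn_apply]
  exact Summable.tsum_le_tsum
    (fun i => mul_le_mul_of_nonneg_left (b_mono K h i) (norm_nonneg _))
    (v.summable K p) (v.summable K q)

theorem sn_pos (p : ℕ) {v : K.Space} (hv : v ≠ 0) : 0 < K.sn p v := by
  rw [KMat.sn_apply]
  obtain ⟨i, hi⟩ : ∃ i, v.co i ≠ 0 := by
    by_contra h
    push Not at h
    exact hv (KMat.Space.ext K (fun i => by rw [h i]; rfl))
  exact (v.summable K p).tsum_pos (fun j => mul_nonneg (norm_nonneg _) (K.pos j p).le) i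
    (mul_pos (norm_pos_iff.mpr hi) (K.pos i p))

/-- Coordinates of finite sums. -/
theorem co_sum {ι : Type} (F : Finset ι) (f : ι → K.Space) (i : ℕ) :
    (∑ m ∈ F, f m).co i = ∑ m ∈ F, (f m).co i := by
  classical
  induction F using Finset.induction_on with
  | empty => simp
  | insert a s ha ih => rw [Finset.sum_insert ha, Finset.sum_insert ha, KMat.co_add, ih]

/-- A vector whose coordinates vanish where `ε b_r < b_q` has `|v|_q ≤ ε |v|_r`. -/
theorem sn_le_of_small {q r : ℕ} {ε : ℝ} (v : K.Space)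
    (h : ∀ i, v.co i ≠ 0 → K.b i q ≤ ε * K.b i r) : K.sn q v ≤ ε * K.sn r v := by
  rw [KMat.sn_apply, KMat.sn_apply, ← tsum_mul_left]
  refine Summable.tsum_le_tsum (fun i => ?_) (v.summable K q) ((v.summable K r).mul_left ε)
  by_cases hi : v.co i = 0
  · simp [hi]
  · calc ‖v.co i‖ * K.b i q ≤ ‖v.co i‖ * (ε * K.b i r) :=
          mul_le_mul_of_nonneg_left (h i hi) (norm_nonneg _)
      _ = ε * (‖v.co i‖ * K.b i r) := by ring

/-- The number of indices where a product of three summable sequences exceeds `ε`. -/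
theorem count_bound {α β γ : ℕ → ℝ} (hα : ∀ i, 0 ≤ α i) (hβ : ∀ i, 0 ≤ β i) (hγ : ∀ i, 0 ≤ γ i)
    (sα : Summable α) (sβ : Summable β) (sγ : Summable γ) :
    ∃ A : ℝ, 0 ≤ A ∧ ∀ ε : ℝ, 0 < ε → ∀ J : Finset ℕ, (∀ i ∈ J, ε < α i * β i * γ i) →
      (J.card : ℝ) ^ 3 * ε ≤ A := by
  have hs : Summable fun i => α i + β i + γ i := (sα.add sβ).add sγ
  have h0 : ∀ i, 0 ≤ α i + β i + γ i := fun i => by
    have := hα i; have := hβ i; have := hγ i; positivity
  refine ⟨(∑' i, (α i + β i + γ i)) ^ 3, pow_nonneg (tsum_nonneg h0) 3, ?_⟩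
  intro ε hε J hJ
  set t : ℝ := ε ^ ((1 : ℝ) / 3) with ht
  have ht0 : 0 ≤ t := by positivity
  have ht3 : t ^ 3 = ε := by
    rw [ht, ← Real.rpow_natCast, ← Real.rpow_mul hε.le]
    norm_num
  have h1 : ∀ i ∈ J, t ≤ α i + β i + γ i := by
    intro i hi
    by_contra hlt
    push Not at hlt
    have h2 := hJ i hi
    have ha := hα i
    have hb := hβ i
    have hc := hγ i
    have h3 : α i * β i * γ i ≤ (α i + β i + γ i) ^ 3 := by
      have e : (α i + β i + γ i) ^ 3 - α i * β i * γ i =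
        α i ^ 3 + β i ^ 3 + γ i ^ 3 + 3 * (α i ^ 2 * β i) + 3 * (α i ^ 2 * γ i) +
        3 * (β i ^ 2 * α i) + 3 * (β i ^ 2 * γ i) + 3 * (γ i ^ 2 * α i) + 3 * (γ i ^ 2 * β i) +
        5 * (α i * β i * γ i) := by ring
      have : 0 ≤ (α i + β i + γ i) ^ 3 - α i * β i * γ i := by
        rw [e]; positivity
      linarith
    have h4 : (α i + β i + γ i) ^ 3 < t ^ 3 := pow_lt_pow_left₀ hlt (h0 i) (by norm_num)
    rw [ht3] at h4
    linarith
  have h2 : (J.card : ℝ) * t ≤ ∑' i, (α i + β i + γ i) := by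
    calc (J.card : ℝ) * t = ∑ _i ∈ J, t := by simp
      _ ≤ ∑ i ∈ J, (α i + β i + γ i) := Finset.sum_le_sum h1
      _ ≤ _ := hs.sum_le_tsum J (fun i _ => h0 i)
  calc (J.card : ℝ) ^ 3 * ε = ((J.card : ℝ) * t) ^ 3 := by rw [mul_pow, ht3]
    _ ≤ _ := pow_le_pow_left₀ (by positivity) h2 3

/-- The counting inequality for the basis. -/
theorem basis_count {p q r : ℕ} {A C : ℝ} (hC : 1 ≤ C)
    (hA : ∀ ε : ℝ, 0 < ε → ∀ J : Finset ℕ, (∀ i ∈ J, ε < K.b i q / K.b i r) →
      (J.card : ℝ) ^ 3 * ε ≤ A)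
    {y : ℕ → K.Space} {c : ℕ → (K.Space →ₗ[ℂ] ℂ)}
    (hc : ∀ n m, c n (y m) = if n = m then 1 else 0)
    (hb : ∀ v n, ‖c n v‖ * K.sn p (y n) ≤ C * K.sn q v)
    {F : Finset ℕ} {δ : ℝ} (hδ : 0 < δ) (hF : ∀ n ∈ F, δ * K.sn r (y n) ≤ K.sn p (y n)) :
    (F.card : ℝ) ^ 2 * δ ≤ 2 * C * A := by
  classical
  have hA0 : 0 ≤ A := by simpa using hA 1 one_pos ∅ (by simp)
  rcases Finset.eq_empty_or_nonempty F with hFe | hFn
  · subst hFe
    simp only [Finset.card_empty, Nat.cast_zero]
    have : 0 ≤ 2 * C * A := by positivity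
    linarith [this]
  have hN : (0 : ℝ) < F.card := by exact_mod_cast hFn.card_pos
  have hC0 : 0 < C := by linarith
  set ε : ℝ := δ / (2 * C * F.card) with hε
  have hε0 : 0 < ε := by positivity
  -- the finite set of large indices
  have hfin : {i : ℕ | ε < K.b i q / K.b i r}.Finite := by
    by_contra hinf
    obtain ⟨n, hn⟩ := exists_nat_gt (A / ε)
    obtain ⟨J, hJ, hJn⟩ := Set.Infinite.exists_subset_card_eq hinf (n + 1)
    have h1 := hA ε hε0 J (fun i hi => hJ hi)
    rw [hJn] at h1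
    have h2 : (n : ℝ) + 1 ≤ ((n + 1 : ℕ) : ℝ) ^ 3 := by
      push_cast
      have : (1 : ℝ) ≤ (n : ℝ) + 1 := by
        have : (0 : ℝ) ≤ n := Nat.cast_nonneg n
        linarith
      calc (n : ℝ) + 1 = ((n : ℝ) + 1) ^ 1 := by ring
        _ ≤ ((n : ℝ) + 1) ^ 3 := pow_le_pow_right₀ this (by norm_num)
    have h3 : ((n : ℝ) + 1) * ε ≤ A := (mul_le_mul_of_nonneg_right h2 hε0.le).trans h1
    rw [div_lt_iff₀ hε0] at hn
    nlinarith
  set I : Finset ℕ := hfin.toFinset with hI
  have hImem : ∀ i, i ∈ I ↔ ε < K.b i q / K.b i r := by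
    intro i; simp [hI]
  -- the cardinality of `F` is at most that of `I`
  have hcard : F.card ≤ I.card := by
    by_contra hlt
    push Not at hlt
    -- a nontrivial combination of the `y m` vanishing on `I`
    let L : (F → ℂ) →ₗ[ℂ] (I → ℂ) :=
      { toFun := fun a i => ∑ m : F, a m * (y m).co i
        map_add' := by
          intro a b
          funext i
          simp only [Pi.add_apply, add_mul, Finset.sum_add_distrib]
        map_smul' := by
          intro z a
          funext i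
          simp only [Pi.smul_apply, smul_eq_mul, RingHom.id_apply, Finset.mul_sum, mul_assoc] }
    have hker : LinearMap.ker L ≠ ⊥ := by
      apply LinearMap.ker_ne_bot_of_finrank_lt
      simpa using hlt
    obtain ⟨a, ha, ha0⟩ := Submodule.exists_mem_ne_zero_of_ne_bot hker
    rw [LinearMap.mem_ker] at ha
    -- the index with the largest weight
    have hne : (Finset.univ : Finset F).Nonempty := by
      obtain ⟨m, hm⟩ := hFn
      exact ⟨⟨m, hm⟩, Finset.mem_univ _⟩
    obtain ⟨s, _, hs⟩ := Finset.exists_max_image (Finset.univ : Finset F)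
      (fun m => ‖a m‖ * K.sn p (y m)) hne
    have hy0 : ∀ n, y n ≠ 0 := by
      intro n h
      have := hc n n
      rw [h] at this
      simp at this
    have hypos : ∀ n, 0 < K.sn p (y n) := fun n => sn_pos K p (hy0 n)
    have hsp : 0 < ‖a s‖ * K.sn p (y s) := by
      obtain ⟨m, hm⟩ := Function.ne_iff.mp ha0
      have h1 : 0 < ‖a m‖ * K.sn p (y m) := mul_pos (norm_pos_iff.mpr hm) (hypos m)
      exact h1.trans_le (hs m (Finset.mem_univ _))
    set v : K.Space := ∑ m : F, a m • y m with hv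
    have hvco : ∀ i, i ∈ I → v.co i = 0 := by
      intro i hi
      have := congrFun ha ⟨i, hi⟩
      simp only [L, LinearMap.coe_mk, AddHom.coe_mk, Pi.zero_apply] at this
      rw [hv, co_sum]
      simpa using this
    have hcv : c s v = a s := by
      rw [hv, map_sum]
      simp only [map_smul, hc, smul_eq_mul, mul_ite, mul_one, mul_zero]
      rw [Finset.sum_eq_single s]
      · simp
      · intro m _ hm
        have : (s : ℕ) ≠ m := fun h => hm (Subtype.ext h.symm)
        simp [this]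
      · intro h; exact absurd (Finset.mem_univ _) h
    have h1 : ‖a s‖ * K.sn p (y s) ≤ C * K.sn q v := by
      rw [← hcv]; exact hb v s
    have h2 : K.sn q v ≤ ε * K.sn r v := by
      apply sn_le_of_small
      intro i hi
      have : i ∉ I := fun h => hi (hvco i h)
      rw [hImem, not_lt, div_le_iff₀ (K.pos i r)] at this
      exact this
    have h3 : K.sn r v ≤ ∑ m : F, ‖a m‖ * K.sn r (y m) := by
      rw [hv]
      refine (Finset.le_sum_of_subadditive (K.sn r) (map_zero _).le (map_add_le_add _)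
        Finset.univ (fun m : F => a m • y m)).trans (le_of_eq ?_)
      refine Finset.sum_congr rfl fun m _ => ?_
      rw [map_smul_eq_mul]
    have h4 : δ * ∑ m : F, ‖a m‖ * K.sn r (y m) ≤ F.card * (‖a s‖ * K.sn p (y s)) := by
      rw [Finset.mul_sum]
      calc ∑ m : F, δ * (‖a m‖ * K.sn r (y m)) ≤ ∑ _m : F, (‖a s‖ * K.sn p (y s)) := by
            refine Finset.sum_le_sum fun m _ => ?_
            calc δ * (‖a m‖ * K.sn r (y m)) = ‖a m‖ * (δ * K.sn r (y m)) := by ring
              _ ≤ ‖a m‖ * K.sn p (y m) :=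
                  mul_le_mul_of_nonneg_left (hF m m.2) (norm_nonneg _)
              _ ≤ _ := hs m (Finset.mem_univ _)
        _ = _ := by simp
    have h5 : δ * (‖a s‖ * K.sn p (y s)) ≤ C * ε * (F.card * (‖a s‖ * K.sn p (y s))) := by
      calc δ * (‖a s‖ * K.sn p (y s)) ≤ δ * (C * (ε * K.sn r v)) := by
            apply mul_le_mul_of_nonneg_left _ hδ.le
            exact h1.trans (mul_le_mul_of_nonneg_left h2 hC0.le)
        _ ≤ δ * (C * (ε * ∑ m : F, ‖a m‖ * K.sn r (y m))) := by gcongr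
        _ = C * ε * (δ * ∑ m : F, ‖a m‖ * K.sn r (y m)) := by ring
        _ ≤ _ := mul_le_mul_of_nonneg_left h4 (by positivity)
    have h6 : C * ε * F.card = δ / 2 := by
      rw [hε]; field_simp
    have h7 : C * ε * (F.card * (‖a s‖ * K.sn p (y s))) = δ / 2 * (‖a s‖ * K.sn p (y s)) := by
      rw [← h6]; ring
    rw [h7] at h5
    nlinarith
  have h1 := hA ε hε0 I (fun i hi => (hImem i).mp hi)
  have h2 : (F.card : ℝ) ^ 3 * ε ≤ A := by
    refine le_trans ?_ h1
    have : (F.card : ℝ) ≤ I.card := by exact_mod_cast hcard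
    gcongr
  have h3 : (F.card : ℝ) ^ 3 * ε = (F.card : ℝ) ^ 2 * δ / (2 * C) := by
    rw [hε]; field_simp
  rw [h3, div_le_iff₀ (by positivity)] at h2
  linarith

/-- Finite sums of a sequence with `N² min ≤ D` on sets of size `N`. -/
theorem sum_bound {d : ℕ → ℝ} {D : ℝ} (hd : ∀ n, 0 < d n)
    (h : ∀ (F : Finset ℕ) (δ : ℝ), 0 < δ → (∀ n ∈ F, δ ≤ d n) → (F.card : ℝ) ^ 2 * δ ≤ D) :
    Summable d := by
  classical
  have hD : 0 ≤ D := by
    have := h ∅ 1 one_pos (by simp)
    simpa using this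
  have hs : Summable fun n : ℕ => D * (1 / ((n : ℝ) + 1) ^ 2) := by
    apply Summable.mul_left
    have := (summable_nat_add_iff 1).mpr (Real.summable_one_div_nat_pow.mpr (by norm_num : 1 < 2))
    simpa using this
  have key : ∀ N : ℕ, ∀ F : Finset ℕ, F.card = N →
      ∑ n ∈ F, d n ≤ ∑ j ∈ Finset.range N, D * (1 / ((j : ℝ) + 1) ^ 2) := by
    intro N
    induction N with
    | zero =>
      intro F hF
      rw [Finset.card_eq_zero] at hF
      subst hF; simp
    | succ N ih =>
      intro F hF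
      have hne : F.Nonempty := Finset.card_pos.mp (by omega)
      obtain ⟨m, hm, hmin⟩ := Finset.exists_min_image F d hne
      have h1 : ∑ n ∈ F, d n = ∑ n ∈ F.erase m, d n + d m :=
        (Finset.sum_erase_add F d hm).symm
      have h2 := ih (F.erase m) (by rw [Finset.card_erase_of_mem hm, hF]; rfl)
      have h3 := h F (d m) (hd m) hmin
      rw [hF] at h3
      have h4 : d m ≤ D * (1 / ((N : ℝ) + 1) ^ 2) := by
        rw [mul_one_div, le_div_iff₀ (by positivity)]
        push_cast at h3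
        linarith
      rw [Finset.sum_range_succ, h1]
      linarith
  refine summable_of_sum_le (fun n => (hd n).le) (c := ∑' n : ℕ, D * (1 / ((n : ℝ) + 1) ^ 2)) ?_
  intro F
  exact (key F.card F rfl).trans (hs.sum_le_tsum _ (fun i _ => by positivity))

end F2

/-- PART F2 (Dynin-Mityagin). -/
theorem partF2 : PartF2 := by
  intro K hnuc y c hc heq p
  obtain ⟨q₀, C₀, hb₀⟩ := heq p
  -- enlarge `q` and `C`
  set q := max p q₀ with hq
  set C := max C₀ 1 with hCdef
  have hb : ∀ v n, ‖c n v‖ * K.sn p (y n) ≤ C * K.sn q v := by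
    intro v n
    refine (hb₀ v n).trans ?_
    have h1 : K.sn q₀ v ≤ K.sn q v := F2.sn_mono K (le_max_right _ _) v
    have h2 : 0 ≤ K.sn q₀ v := apply_nonneg _ _
    calc C₀ * K.sn q₀ v ≤ C * K.sn q₀ v := mul_le_mul_of_nonneg_right (le_max_left _ _) h2
      _ ≤ C * K.sn q v := mul_le_mul_of_nonneg_left h1 (by positivity)
  obtain ⟨r₁, hr₁, s₁⟩ := hnuc q
  obtain ⟨r₂, hr₂, s₂⟩ := hnuc r₁
  obtain ⟨r, hr, s₃⟩ := hnuc r₂
  have hpos : ∀ (a b i : ℕ), 0 ≤ K.b i a / K.b i b := fun a b i =>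
    (div_pos (K.pos i a) (K.pos i b)).le
  obtain ⟨A, hA0, hA⟩ := F2.count_bound (hpos q r₁) (hpos r₁ r₂) (hpos r₂ r) s₁ s₂ s₃
  have hA' : ∀ ε : ℝ, 0 < ε → ∀ J : Finset ℕ, (∀ i ∈ J, ε < K.b i q / K.b i r) →
      (J.card : ℝ) ^ 3 * ε ≤ A := by
    intro ε hε J hJ
    refine hA ε hε J (fun i hi => ?_)
    have h1 := (K.pos i r₁).ne'
    have h2 := (K.pos i r₂).ne'
    have h3 : K.b i q / K.b i r₁ * (K.b i r₁ / K.b i r₂) * (K.b i r₂ / K.b i r) =
        K.b i q / K.b i r := by
      have h4 := (K.pos i r).ne'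
      field_simp
    rw [h3]
    exact hJ i hi
  have hpr : p ≤ r := (le_max_left p q₀).trans (hr₁.trans (hr₂.trans hr))
  refine ⟨r, hpr, ?_⟩
  have hy0 : ∀ n, y n ≠ 0 := by
    intro n h
    have := hc n n
    rw [h] at this
    simp at this
  apply F2.sum_bound (D := 2 * C * A)
  · intro n
    exact div_pos (F2.sn_pos K p (hy0 n)) (F2.sn_pos K r (hy0 n))
  · intro F δ hδ hF
    refine F2.basis_count K (le_max_right _ _) hA' hc hb hδ (fun n hn => ?_)
    have := hF n hn
    rwa [le_div_iff₀ (F2.sn_pos K r (hy0 n))] at this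

end QEP
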