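import Pool.Agent.Work.MP_e35540_an.PartF4

/-! MP_e35540_an: the Grothendieck-Pietsch criterion (necessity). -/

open Filter Topology

namespace QEP

theorem partF3 : PartF3 := by
  classical
  intro K hN p
  obtain ⟨Q, hQ, φ, y, s, hs, hφ, hy, hconv⟩ := hN (K.sn p) (F1.sn_continuous p)
  -- Q is bounded by a seminorm of the family
  obtain ⟨S, C, hC0, hC⟩ := Seminorm.bound_of_continuous K.withSeminorms Q hQ
  obtain ⟨q, hpq, hqS⟩ : ∃ q, p ≤ q ∧ ∀ r ∈ S, r ≤ q := by
    refine ⟨max p (S.sup id), le_max_left _ _, fun r hr => ?_⟩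
    exact (Finset.le_sup (f := id) hr).trans (le_max_right _ _)
  have hQq : ∀ v, Q v ≤ C * K.sn q v := by
    intro v
    have h1 := hC v
    have h2 : (S.sup fun r => K.sn r) v ≤ K.sn q v := by
      apply Seminorm.finset_sup_apply_le (apply_nonneg _ _)
      intro r hr
      exact F1.sn_mono (hqS r hr) v
    refine h1.trans ?_
    change (C : ℝ) * (S.sup fun r => K.sn r) v ≤ _
    exact mul_le_mul_of_nonneg_left h2 C.2
  refine ⟨q, hpq, ?_⟩
  have hs0 : ∀ n, 0 ≤ s n := fun n => (apply_nonneg _ _).trans (hy n)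
  have hys : Summable fun n => K.sn p (y n) :=
    Summable.of_nonneg_of_le (fun n => apply_nonneg _ _) hy hs
  -- the key inequality
  have key : ∀ i, K.b i p / K.b i q ≤ ∑' n, C * (‖(y n).co i‖ * K.b i p) := by
    intro i
    have hb := K.pos i p
    have hbq := K.pos i q
    have hsi : Summable fun n => C * (‖(y n).co i‖ * K.b i p) := by
      apply Summable.mul_left
      exact Summable.of_nonneg_of_le (fun n => mul_nonneg (norm_nonneg _) hb.le)
        (fun n => F4.co_le p (y n) i) hys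
    rw [div_le_iff₀ hbq]
    apply le_of_forall_pos_le_add
    intro ε hε
    have h1 := (hconv (F4.e K i)).eventually_lt_const hε
    obtain ⟨N, hN⟩ := h1.exists
    have h2 := F4.co_le p (F4.e K i - ∑ n ∈ Finset.range N, φ n (F4.e K i) • y n) i
    rw [KMat.co_sub, F4.e_co, if_pos rfl, F4.sum_co] at h2
    have h3 : ∀ n, ‖(φ n (F4.e K i) • y n).co i‖ * K.b i p ≤
        C * (‖(y n).co i‖ * K.b i p) * K.b i q := by
      intro n
      rw [KMat.co_smul, norm_mul]
      have h4 := (hφ n (F4.e K i)).trans (hQq _)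
      rw [F4.sn_e] at h4
      have h5 : 0 ≤ ‖(y n).co i‖ * K.b i p := mul_nonneg (norm_nonneg _) hb.le
      calc ‖φ n (F4.e K i)‖ * ‖(y n).co i‖ * K.b i p
          = ‖φ n (F4.e K i)‖ * (‖(y n).co i‖ * K.b i p) := by ring
        _ ≤ (C * K.b i q) * (‖(y n).co i‖ * K.b i p) := mul_le_mul_of_nonneg_right h4 h5
        _ = _ := by ring
    have h6 : ‖(1 : ℂ)‖ ≤ ‖(1 : ℂ) - ∑ n ∈ Finset.range N, (φ n (F4.e K i) • y n).co i‖ +
        ∑ n ∈ Finset.range N, ‖(φ n (F4.e K i) • y n).co i‖ := by
      have h7 := norm_add_le ((1 : ℂ) - ∑ n ∈ Finset.range N, (φ n (F4.e K i) • y n).co i)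
        (∑ n ∈ Finset.range N, (φ n (F4.e K i) • y n).co i)
      rw [sub_add_cancel] at h7
      exact h7.trans (add_le_add le_rfl (norm_sum_le _ _))
    rw [norm_one] at h6
    have h8 := mul_le_mul_of_nonneg_right h6 hb.le
    rw [add_mul, Finset.sum_mul, one_mul] at h8
    have h9 : ∑ n ∈ Finset.range N, ‖(φ n (F4.e K i) • y n).co i‖ * K.b i p ≤
        (∑' n, C * (‖(y n).co i‖ * K.b i p)) * K.b i q := by
      calc _ ≤ ∑ n ∈ Finset.range N, C * (‖(y n).co i‖ * K.b i p) * K.b i q :=
            Finset.sum_le_sum (fun n _ => h3 n)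
        _ = (∑ n ∈ Finset.range N, C * (‖(y n).co i‖ * K.b i p)) * K.b i q := by
            rw [Finset.sum_mul]
        _ ≤ _ := by
            apply mul_le_mul_of_nonneg_right _ hbq.le
            exact hsi.sum_le_tsum _ (fun n _ => mul_nonneg C.2 (mul_nonneg (norm_nonneg _) hb.le))
    linarith
  -- summation over i
  refine summable_of_sum_le (c := C * ∑' n, K.sn p (y n))
    (fun i => div_nonneg (K.pos i p).le (K.pos i q).le) (fun F => ?_)
  have hsi : ∀ i, Summable fun n => C * (‖(y n).co i‖ * K.b i p) := by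
    intro i
    apply Summable.mul_left
    exact Summable.of_nonneg_of_le (fun n => mul_nonneg (norm_nonneg _) (K.pos i p).le)
      (fun n => F4.co_le p (y n) i) hys
  calc ∑ i ∈ F, K.b i p / K.b i q ≤ ∑ i ∈ F, ∑' n, C * (‖(y n).co i‖ * K.b i p) :=
        Finset.sum_le_sum (fun i _ => key i)
    _ = ∑' n, ∑ i ∈ F, C * (‖(y n).co i‖ * K.b i p) :=
        (Summable.tsum_finsetSum (fun i _ => hsi i)).symm
    _ ≤ ∑' n, C * K.sn p (y n) := by
        apply Summable.tsum_le_tsum _ (summable_sum (fun i _ => hsi i)) (hys.mul_left _)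
        intro n
        rw [← Finset.mul_sum]
        apply mul_le_mul_of_nonneg_left _ C.2
        rw [KMat.sn_apply]
        exact ((y n).summable K p).sum_le_tsum _
          (fun i _ => mul_nonneg (norm_nonneg _) (K.pos i p).le)
    _ = _ := by rw [tsum_mul_left]

end QEP
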