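import Pool.Agent.Work.MP_e35540_an.PartF1

/-!
# A basis comparable to the unit vectors is quasiequivalent to them (MP_e35540_an, part F5)
-/

open Filter Topology

namespace QEP

namespace F5

variable {K : KMat}

instance instT2 : T2Space K.Space := by
  have : T1Space K.Space := K.withSeminorms.T1_of_separating (fun x hx => ⟨0, (F1.sn_pos hx).ne'⟩)
  infer_instance

theorem sn_sum_le (p : ℕ) (w : ℕ → K.Space) (F : Finset ℕ) :
    K.sn p (∑ i ∈ F, w i) ≤ ∑ i ∈ F, K.sn p (w i) := by
  classical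
  induction F using Finset.induction_on with
  | empty => simp
  | insert a F ha ih =>
    rw [Finset.sum_insert ha, Finset.sum_insert ha]
    exact (map_add_le_add (K.sn p) _ _).trans (by linarith)

/-- absolutely summable families are summable -/
theorem exists_hasSum (w : ℕ → K.Space) (hw : ∀ p, Summable fun i => K.sn p (w i)) :
    ∃ s, HasSum w s ∧ ∀ p, K.sn p s ≤ ∑' i, K.sn p (w i) := by
  have hcauchy : ∀ p ε, 0 < ε → ∃ N, ∀ F : Finset ℕ, Finset.range N ⊆ F →
      ∀ G : Finset ℕ, Finset.range N ⊆ G → K.sn p (∑ i ∈ F, w i - ∑ i ∈ G, w i) < ε := by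
    intro p ε hε
    obtain ⟨s, hs⟩ := summable_iff_vanishing_norm.1 (hw p) (ε / 2) (half_pos hε)
    obtain ⟨N, hN⟩ := s.exists_nat_subset_range
    refine ⟨N, fun F hF G hG => ?_⟩
    have h1 : ∑ i ∈ F, w i - ∑ i ∈ G, w i = ∑ i ∈ F \ G, w i - ∑ i ∈ G \ F, w i := by
      exact (Finset.sum_sdiff_sub_sum_sdiff).symm
    have h2 : ∀ t : Finset ℕ, Disjoint t s → K.sn p (∑ i ∈ t, w i) < ε / 2 := by
      intro t ht
      have := hs t ht
      rw [Real.norm_eq_abs] at this
      exact lt_of_le_of_lt ((sn_sum_le p w t).trans (le_abs_self _)) this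
    have h3 : Disjoint (F \ G) s :=
      Finset.disjoint_left.2 fun x hx hs' =>
        (Finset.mem_sdiff.1 hx).2 (hG (hN hs'))
    have h4 : Disjoint (G \ F) s :=
      Finset.disjoint_left.2 fun x hx hs' =>
        (Finset.mem_sdiff.1 hx).2 (hF (hN hs'))
    rw [h1]
    refine lt_of_le_of_lt (map_sub_le_add (K.sn p) _ _) ?_
    linarith [h2 _ h3, h2 _ h4]
  obtain ⟨s, hs⟩ := F1.complete (fun N => ∑ i ∈ Finset.range N, w i) (by
    intro p ε hε
    obtain ⟨N, hN⟩ := hcauchy p ε hε
    exact ⟨N, fun m hm n hn => hN _ (Finset.range_subset_range.2 hm) _ (Finset.range_subset_range.2 hn)⟩)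
  refine ⟨s, ?_, ?_⟩
  · change Tendsto (fun F : Finset ℕ => ∑ i ∈ F, w i) atTop (𝓝 s)
    rw [F1.tendsto_iff]
    intro p ε hε
    obtain ⟨N, hN⟩ := hcauchy p (ε / 2) (half_pos hε)
    filter_upwards [eventually_ge_atTop (Finset.range N)] with F hF
    have hlim : Tendsto (fun n => K.sn p (∑ i ∈ F, w i - ∑ i ∈ Finset.range n, w i)) atTop
        (𝓝 (K.sn p (∑ i ∈ F, w i - s))) :=
      ((F1.sn_continuous p).tendsto _).comp (tendsto_const_nhds.sub hs)
    have : K.sn p (∑ i ∈ F, w i - s) ≤ ε / 2 := by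
      refine le_of_tendsto hlim ?_
      filter_upwards [eventually_ge_atTop N] with n hn
      exact (hN F hF _ (Finset.range_subset_range.2 hn)).le
    linarith
  · intro p
    have hlim : Tendsto (fun n => K.sn p (∑ i ∈ Finset.range n, w i)) atTop (𝓝 (K.sn p s)) :=
      ((F1.sn_continuous p).tendsto _).comp hs
    refine le_of_tendsto hlim (Eventually.of_forall fun n => ?_)
    exact (sn_sum_le p w _).trans ((hw p).sum_le_tsum _ (fun i _ => apply_nonneg _ _))

theorem continuous_of_bound {L : K.Space →ₗ[ℂ] K.Space}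
    (h : ∀ p, ∃ q, ∃ C : ℝ, ∀ v, K.sn p (L v) ≤ C * K.sn q v) : Continuous L := by
  rw [continuous_iff_continuousAt]
  intro v
  change Tendsto (fun x => L x) (𝓝 v) (𝓝 (L v))
  rw [F1.tendsto_iff]
  intro p ε hε
  obtain ⟨q, C, hC⟩ := h p
  have h1 : 0 < |C| + 1 := by positivity
  have h2 := (F1.tendsto_iff (K := K)).1 (tendsto_id (x := 𝓝 v)) q (ε / (|C| + 1)) (by positivity)
  filter_upwards [h2] with x hx
  rw [← map_sub]
  rw [lt_div_iff₀ h1] at hx
  have h3 : C * K.sn q (x - v) ≤ K.sn q (x - v) * (|C| + 1) := by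
    have := le_abs_self C
    have h4 : 0 ≤ K.sn q (x - v) := apply_nonneg _ _
    nlinarith
  exact lt_of_le_of_lt ((hC _).trans h3) hx

theorem continuous_functional {c : K.Space →ₗ[ℂ] ℂ} {q : ℕ} {C : ℝ}
    (h : ∀ v, ‖c v‖ ≤ C * K.sn q v) : Continuous c := by
  rw [continuous_iff_continuousAt]
  intro v
  rw [ContinuousAt, Metric.tendsto_nhds]
  intro ε hε
  have h1 : 0 < |C| + 1 := by positivity
  have h2 := (F1.tendsto_iff (K := K)).1 (tendsto_id (x := 𝓝 v)) q (ε / (|C| + 1)) (by positivity)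
  filter_upwards [h2] with x hx
  rw [dist_eq_norm, ← map_sub]
  rw [lt_div_iff₀ h1] at hx
  have h3 : C * K.sn q (x - v) ≤ K.sn q (x - v) * (|C| + 1) := by
    have := le_abs_self C
    have h4 : 0 ≤ K.sn q (x - v) := apply_nonneg _ _
    nlinarith
  exact lt_of_le_of_lt ((h _).trans h3) hx

end F5

open F5 in
theorem partF5 : PartF5 := by
  intro K y c h1 h2 h3 π t ht h4 h5
  -- the terms of Phi
  have hterm : ∀ (v : K.Space) p i, K.sn p ((v.co i * (t i : ℂ)) • y (π i)) =
      ‖v.co i‖ * (t i * K.sn p (y (π i))) := by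
    intro v p i
    rw [map_smul_eq_mul, norm_mul, Complex.norm_real, Real.norm_eq_abs, abs_of_pos (ht i)]
    ring
  have hsum : ∀ p, ∃ q, ∃ C : ℝ, ∀ v : K.Space,
      Summable (fun i => K.sn p ((v.co i * (t i : ℂ)) • y (π i))) ∧
      ∑' i, K.sn p ((v.co i * (t i : ℂ)) • y (π i)) ≤ C * K.sn q v := by
    intro p
    obtain ⟨q, C, hC⟩ := h4 p
    refine ⟨q, C, fun v => ?_⟩
    have hb : ∀ i, K.sn p ((v.co i * (t i : ℂ)) • y (π i)) ≤ C * (‖v.co i‖ * K.b i q) := by
      intro i
      rw [hterm]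
      have := mul_le_mul_of_nonneg_left (hC i) (norm_nonneg (v.co i))
      linarith
    have hs : Summable (fun i => C * (‖v.co i‖ * K.b i q)) := (v.summable K q).mul_left C
    have hs1 : Summable (fun i => K.sn p ((v.co i * (t i : ℂ)) • y (π i))) :=
      Summable.of_nonneg_of_le (fun i => apply_nonneg _ _) hb hs
    refine ⟨hs1, ?_⟩
    refine (hs1.tsum_le_tsum hb hs).trans ?_
    rw [tsum_mul_left, KMat.sn_apply]
  choose φ hφ hφle using fun v : K.Space => exists_hasSum
    (fun i => (v.co i * (t i : ℂ)) • y (π i)) (fun p => ((hsum p).choose_spec.choose_spec v).1)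
  let Φ : K.Space →ₗ[ℂ] K.Space :=
    { toFun := φ
      map_add' := by
        intro v w
        refine (hφ (v + w)).unique ?_
        convert (hφ v).add (hφ w) using 1
        funext i
        rw [KMat.co_add, add_mul, add_smul]
      map_smul' := by
        intro a v
        refine (hφ (a • v)).unique ?_
        have h6 := (hφ v).const_smul a
        have h7 : (fun i => ((a • v).co i * (t i : ℂ)) • y (π i)) =
            fun i => a • ((v.co i * (t i : ℂ)) • y (π i)) := by
          funext i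
          rw [KMat.co_smul, mul_assoc, mul_smul]
        rw [h7]
        exact h6 }
  have hΦ : ∀ v, HasSum (fun i => (v.co i * (t i : ℂ)) • y (π i)) (Φ v) := hφ
  have hΦc : Continuous Φ := by
    apply continuous_of_bound
    intro p
    obtain ⟨q, C, hC⟩ := hsum p
    exact ⟨q, C, fun v => (hφle v p).trans (hC v).2⟩
  -- the expansion is unconditional
  have hexp : ∀ v, HasSum (fun n => c n v • y n) v := by
    intro v
    obtain ⟨s, hs, _⟩ := exists_hasSum (fun n => c n v • y n) (fun p => by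
      obtain ⟨q, C, hC⟩ := h3 p
      refine (hC v).1.congr (fun n => ?_)
      rw [map_smul_eq_mul])
    have := tendsto_nhds_unique hs.tendsto_sum_nat (h1 v)
    rwa [this] at hs
  -- continuity of c
  have hy : ∀ n, y n ≠ 0 := by
    intro n h
    have := h2 n n
    rw [h, map_zero] at this
    simp at this
  have hcc : ∀ n, Continuous (c n) := by
    intro n
    obtain ⟨q, C, hC⟩ := h3 0
    have hpos : 0 < K.sn 0 (y n) := F1.sn_pos (hy n)
    apply continuous_functional (q := q) (C := C / K.sn 0 (y n))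
    intro v
    have h6 : ‖c n v‖ * K.sn 0 (y n) ≤ C * K.sn q v :=
      ((hC v).1.le_tsum n (fun j _ => mul_nonneg (norm_nonneg _) (apply_nonneg _ _))).trans (hC v).2
    rw [div_mul_eq_mul_div, le_div_iff₀ hpos]
    exact h6
  -- the inverse
  have hmem : ∀ p, ∃ q, ∃ C : ℝ, ∀ v : K.Space,
      Summable (fun i => ‖c (π i) v / (t i : ℂ)‖ * K.b i p) ∧
      ∑' i, ‖c (π i) v / (t i : ℂ)‖ * K.b i p ≤ C * K.sn q v := by
    intro p
    obtain ⟨q, C, hC⟩ := h5 p
    obtain ⟨q', C', hC'⟩ := h3 q
    have hC0 : 0 ≤ C := by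
      by_contra hneg
      push Not at hneg
      have h6 := hC 0
      have h7 := K.pos 0 p
      have h8 : 0 ≤ t 0 * K.sn q (y (π 0)) := mul_nonneg (ht 0).le (apply_nonneg _ _)
      nlinarith
    refine ⟨q', C * C', fun v => ?_⟩
    have hb : ∀ i, ‖c (π i) v / (t i : ℂ)‖ * K.b i p ≤
        C * (‖c (π i) v‖ * K.sn q (y (π i))) := by
      intro i
      rw [norm_div, Complex.norm_real, Real.norm_eq_abs, abs_of_pos (ht i)]
      have h6 := mul_le_mul_of_nonneg_left (hC i) (div_nonneg (norm_nonneg (c (π i) v)) (ht i).le)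
      refine h6.trans (le_of_eq ?_)
      have := (ht i).ne'
      field_simp
    have hs0 : Summable (fun i => ‖c (π i) v‖ * K.sn q (y (π i))) :=
      (Equiv.summable_iff π (f := fun n => ‖c n v‖ * K.sn q (y n))).2 (hC' v).1
    have hs : Summable (fun i => C * (‖c (π i) v‖ * K.sn q (y (π i)))) := hs0.mul_left C
    have hs1 : Summable (fun i => ‖c (π i) v / (t i : ℂ)‖ * K.b i p) :=
      Summable.of_nonneg_of_le (fun i => mul_nonneg (norm_nonneg _) (K.pos i p).le) hb hs
    refine ⟨hs1, ?_⟩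
    refine (hs1.tsum_le_tsum hb hs).trans ?_
    rw [tsum_mul_left, Equiv.tsum_eq π (fun n => ‖c n v‖ * K.sn q (y n)), mul_assoc]
    exact mul_le_mul_of_nonneg_left (hC' v).2 hC0
  let Ψ : K.Space →ₗ[ℂ] K.Space :=
    { toFun := fun v => F1.mk (fun i => c (π i) v / (t i : ℂ))
        (fun p => ((hmem p).choose_spec.choose_spec v).1)
      map_add' := by
        intro v w
        apply KMat.Space.ext
        intro i
        rw [KMat.co_add, F1.mk_co, F1.mk_co, F1.mk_co, map_add, add_div]
      map_smul' := by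
        intro a v
        apply KMat.Space.ext
        intro i
        rw [RingHom.id_apply, KMat.co_smul, F1.mk_co, F1.mk_co, map_smul, smul_eq_mul,
          mul_div_assoc] }
  have hΨ : ∀ v i, (Ψ v).co i = c (π i) v / (t i : ℂ) := fun v i => rfl
  have hΨc : Continuous Ψ := by
    apply continuous_of_bound
    intro p
    obtain ⟨q, C, hC⟩ := hmem p
    refine ⟨q, C, fun v => ?_⟩
    rw [KMat.sn_apply]
    exact (hC v).2
  have ht0 : ∀ i, (t i : ℂ) ≠ 0 := fun i => by exact_mod_cast (ht i).ne'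
  have hΦΨ : ∀ v, Φ (Ψ v) = v := by
    intro v
    refine (hΦ (Ψ v)).unique ?_
    have h6 := (Equiv.hasSum_iff π (f := fun n => c n v • y n)).2 (hexp v)
    refine h6.congr_fun (fun i => ?_) 
    simp only [Function.comp_apply, hΨ]
    rw [div_mul_cancel₀ _ (ht0 i)]
  have hΨΦ : ∀ v, Ψ (Φ v) = v := by
    intro v
    apply KMat.Space.ext
    intro i
    rw [hΨ]
    have h6 : HasSum (fun j => c (π i) ((v.co j * (t j : ℂ)) • y (π j))) (c (π i) (Φ v)) :=
      (hΦ v).map (c (π i)) (hcc (π i))
    have h7 : HasSum (fun j => c (π i) ((v.co j * (t j : ℂ)) • y (π j))) (v.co i * (t i : ℂ)) := by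
      have h8 : (fun j => c (π i) ((v.co j * (t j : ℂ)) • y (π j))) =
          fun j => if j = i then v.co i * (t i : ℂ) else 0 := by
        funext j
        rw [map_smul, h2, smul_eq_mul]
        by_cases hij : j = i
        · subst hij; simp
        · have : ¬ π i = π j := fun h => hij (π.injective h).symm
          rw [if_neg this, if_neg hij, mul_zero]
      rw [h8]
      exact hasSum_ite_eq i _
    rw [h6.unique h7, mul_div_cancel_right₀ _ (ht0 i)]
  refine ⟨{ Φ with
      invFun := Ψ
      left_inv := hΨΦ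
      right_inv := hΦΨ
      continuous_toFun := hΦc
      continuous_invFun := hΨc }, ?_⟩
  intro i v hv
  change Φ v = _
  refine (hΦ v).unique ?_
  have h8 : (fun j => (v.co j * (t j : ℂ)) • y (π j)) =
      fun j => if j = i then (t i : ℂ) • y (π i) else 0 := by
    funext j
    rw [hv j]
    by_cases hij : j = i
    · subst hij; simp
    · rw [if_neg hij, if_neg hij, zero_mul, zero_smul]
  rw [h8]
  exact hasSum_ite_eq i _

end QEP
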