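import Pool.Agent.Work.MP_e35540_an.CoreJ

/-! MP_e35540_an: the core theorem from the graph lemma. -/

open Filter Topology

namespace QEP

theorem core (hSH : StripHall) : Core := by
  classical
  intro A B L
  obtain ⟨G, ⟨hAs, hA⟩, ⟨hBs, hB⟩⟩ := exists_geo A B L
  obtain ⟨π, hπ⟩ := matching hSH A B L G hAs hA hBs hB
  set R : ℝ := (G.Λ : ℝ) ^ 3 with hR
  set K : ℝ := 3 * G.η * (G.Λ : ℝ) ^ 4 with hK
  have hΛ := G.Λpos
  have hη := G.ηpos
  have hR0 : 0 ≤ R := by positivity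
  have hK0 : 0 ≤ K := by positivity
  set cond : ℕ → Prop := fun i => 0 < A.l i ∧ 0 < B.l (π i) ∧
    |A.a i / A.l i - B.a (π i) / B.l (π i)| ≤ K * A.a i ∧
    |A.a i / A.l i - B.a (π i) / B.l (π i)| ≤ K * B.a (π i) with hcond
  set τ : ℕ → ℝ := fun i => if cond i then A.a i / A.l i - B.a (π i) / B.l (π i) else 0 with hτ
  refine ⟨π, τ, fun p hp => ?_⟩
  set q : ℕ := ⌈R * p + K + 1⌉₊ + 1 with hq
  have hq1 : R * p + K + 1 ≤ q := by
    rw [hq]; push_cast
    have := Nat.le_ceil (R * p + K + 1)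
    linarith
  refine ⟨q, by omega, ?_⟩
  obtain ⟨κ1, hκ1⟩ := G.near_pos q
  have hfin : {i | G.κ (A.a i) < κ1}.Finite := by
    refine (A.finite ((G.Λ : ℝ) ^ κ1)).subset ?_
    intro i hi
    rw [Set.mem_ofPred_eq] at hi ⊢
    have h1 := G.lt_pow (A.a i)
    have h2 := G.Λ2
    exact h1.le.trans (pow_le_pow_right₀ (by linarith) (by omega))
  set e : ℕ → ℝ := fun i => |A.h i p - B.h (π i) q - τ i| + |B.h (π i) p + τ i - A.h i q| with he
  have he0 : ∀ i, 0 ≤ e i := fun i => by positivity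
  refine ⟨∑ i ∈ hfin.toFinset, e i, fun i => ?_⟩
  have hC0 : 0 ≤ ∑ i ∈ hfin.toFinset, e i := Finset.sum_nonneg (fun i _ => he0 i)
  by_cases hi : G.κ (A.a i) < κ1
  · have h1 : e i ≤ ∑ i ∈ hfin.toFinset, e i :=
      Finset.single_le_sum (fun i _ => he0 i) (by simpa using hi)
    have h2 := le_abs_self (A.h i p - B.h (π i) q - τ i)
    have h3 := le_abs_self (B.h (π i) p + τ i - A.h i q)
    have h4 := abs_nonneg (A.h i p - B.h (π i) q - τ i)
    have h5 := abs_nonneg (B.h (π i) p + τ i - A.h i q)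
    simp only [he] at h1
    constructor <;> linarith
  · push Not at hi
    obtain ⟨h1, h2, h3⟩ := hκ1 (A.apos i) (A.l0 i) (B.apos (π i)) (B.l0 (π i)) (hπ i) hi
    by_cases hc : cond i
    · obtain ⟨c1, c2, c3, c4⟩ := hc
      have hτi : τ i = A.a i / A.l i - B.a (π i) / B.l (π i) := by
        simp only [hτ]; rw [if_pos ⟨c1, c2, c3, c4⟩]
      have s1 := sandwich (A.apos i) c1 (B.apos (π i)) c2 h1 h2 hR0 hK0 c4 hp hq1
      have c3' : |B.a (π i) / B.l (π i) - A.a i / A.l i| ≤ K * A.a i := by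
        rw [abs_sub_comm]; exact c3
      have s2 := sandwich (B.apos (π i)) c2 (A.apos i) c1 h2 h1 hR0 hK0 c3' hp hq1
      rw [hτi]
      unfold Fam.h
      constructor <;> linarith
    · have hτi : τ i = 0 := by simp only [hτ]; rw [if_neg hc]
      rcases h3 with h3 | ⟨h3, h3'⟩
      · exact absurd h3 hc
      · have s1 := sandwich0 (A.apos i) (A.l0 i) (B.apos (π i)) h1 hp hR0 (by linarith) h3'
        have s2 := sandwich0 (B.apos (π i)) (B.l0 (π i)) (A.apos i) h2 hp hR0 (by linarith) h3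
        rw [hτi]
        unfold Fam.h
        constructor <;> linarith

end QEP
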