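import Pool.Agent.Work.MP_e35540_an.Defs

/-!
# Part G: Hall type inequality in a strip

Hole filling in planar strips.
-/

namespace QEP

namespace PG

open Relation

variable {V : Type} (Γ : SimpleGraph V)

/-- reachability inside a set -/
def RS (S : Set V) : V → V → Prop := ReflTransGen (fun a b => Γ.Adj a b ∧ a ∈ S ∧ b ∈ S)

/-- connected component of `v` in `Q` -/
def comp (Q : Set V) (v : V) : Set V := {u | u ∈ Q ∧ RS Γ Q v u}

/-- connected set -/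
def Conn (Q : Set V) : Prop := ∀ u ∈ Q, ∀ v ∈ Q, RS Γ Q u v

variable {Γ}

theorem RS.mono {S T : Set V} (h : S ⊆ T) {u v : V} (huv : RS Γ S u v) : RS Γ T u v :=
  ReflTransGen.mono (fun _ _ hab => ⟨hab.1, h hab.2.1, h hab.2.2⟩) _ _ huv

theorem RS.symm {S : Set V} {u v : V} (h : RS Γ S u v) : RS Γ S v u := by
  induction h with
  | refl => exact ReflTransGen.refl
  | tail _ hbc ih => exact ReflTransGen.head ⟨hbc.1.symm, hbc.2.2, hbc.2.1⟩ ih

theorem RS.mem {S : Set V} {u v : V} (h : RS Γ S u v) (hu : u ∈ S) : v ∈ S := by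
  induction h with
  | refl => exact hu
  | tail _ hbc _ => exact hbc.2.2

theorem RS.trans {S : Set V} {u v w : V} (h : RS Γ S u v) (h' : RS Γ S v w) : RS Γ S u w :=
  ReflTransGen.trans h h'

theorem mem_comp_self {Q : Set V} {v : V} (hv : v ∈ Q) : v ∈ comp Γ Q v :=
  ⟨hv, ReflTransGen.refl⟩

theorem comp_subset (Q : Set V) (v : V) : comp Γ Q v ⊆ Q := fun _ h => h.1

theorem comp_adj {Q : Set V} {v u w : V} (hu : u ∈ comp Γ Q v) (h : Γ.Adj u w) (hw : w ∈ Q) :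
    w ∈ comp Γ Q v :=
  ⟨hw, ReflTransGen.tail hu.2 ⟨h, hu.1, hw⟩⟩

theorem RS_comp {Q : Set V} {v u : V} (_hv : v ∈ Q) (h : RS Γ Q v u) : RS Γ (comp Γ Q v) v u := by
  induction h with
  | refl => exact ReflTransGen.refl
  | tail hab hbc ih =>
    exact ReflTransGen.tail ih ⟨hbc.1, ⟨hbc.2.1, hab⟩, ⟨hbc.2.2, ReflTransGen.tail hab hbc⟩⟩

theorem conn_comp {Q : Set V} {v : V} (hv : v ∈ Q) : Conn Γ (comp Γ Q v) := by
  intro u hu w hw
  exact (RS_comp hv hu.2).symm.trans (RS_comp hv hw.2)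

theorem comp_eq {Q : Set V} {v u : V} (hu : u ∈ comp Γ Q v) : comp Γ Q u = comp Γ Q v := by
  ext w
  constructor
  · rintro ⟨hw, h⟩; exact ⟨hw, hu.2.trans h⟩
  · rintro ⟨hw, h⟩; exact ⟨hw, hu.2.symm.trans h⟩

/-- hitting lemma -/
theorem hit {C : Set V} {u c : V} (h : RS Γ Set.univ u c) (hc : c ∈ C) :
    u ∈ C ∨ ∃ u' c', c' ∈ C ∧ u' ∉ C ∧ RS Γ Cᶜ u u' ∧ Γ.Adj u' c' := by
  induction h using ReflTransGen.head_induction_on with
  | refl => exact Or.inl hc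
  | @head a b hab _ ih =>
    by_cases ha : a ∈ C
    · exact Or.inl ha
    right
    rcases ih with hb | ⟨u', c', h1, h2, h3, h4⟩
    · exact ⟨a, b, hb, ha, ReflTransGen.refl, hab.1⟩
    · by_cases hb : b ∈ C
      · exact ⟨a, b, hb, ha, ReflTransGen.refl, hab.1⟩
      · exact ⟨u', c', h1, h2, ReflTransGen.head ⟨hab.1, ha, hb⟩ h3, h4⟩

/-- A set containing a connected nonempty `C` to which everything is joined is connected -/
theorem conn_of_core {C T : Set V} (hCT : C ⊆ T) (hC : Conn Γ C)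
    (h : ∀ u ∈ T, ∃ c ∈ C, RS Γ T u c) : Conn Γ T := by
  intro u hu v hv
  obtain ⟨c, hc, h1⟩ := h u hu
  obtain ⟨d, hd, h2⟩ := h v hv
  exact (h1.trans ((hC c hc d hd).mono hCT)).trans h2.symm

/-! ### sums -/

theorem S_mono (f : V → ℕ) {P Q : Set V} (h : P ⊆ Q) (hQ : Q.Finite) :
    ∑ᶠ z ∈ P, f z ≤ ∑ᶠ z ∈ Q, f z := by
  classical
  rw [finsum_mem_eq_finite_toFinset_sum _ (hQ.subset h), finsum_mem_eq_finite_toFinset_sum _ hQ]
  exact Finset.sum_le_sum_of_subset (by simpa using h)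

theorem S_union (f : V → ℕ) {P Q : Set V} (h : Disjoint P Q) (hP : P.Finite) (hQ : Q.Finite) :
    ∑ᶠ z ∈ P ∪ Q, f z = ∑ᶠ z ∈ P, f z + ∑ᶠ z ∈ Q, f z :=
  finsum_mem_union h hP hQ

theorem S_le_sum {ι : Type} {I : Set ι} (hI : I.Finite) {f g : ι → ℕ} (h : ∀ i ∈ I, f i ≤ g i) :
    ∑ᶠ i ∈ I, f i ≤ ∑ᶠ i ∈ I, g i := by
  classical
  rw [finsum_mem_eq_finite_toFinset_sum _ hI, finsum_mem_eq_finite_toFinset_sum _ hI]
  exact Finset.sum_le_sum (fun i hi => h i (by simpa using hi))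

/-- the set of components of `Q` -/
def comps (Γ : SimpleGraph V) (Q : Set V) : Set (Set V) := (comp Γ Q) '' Q

theorem comps_finite {Q : Set V} (hQ : Q.Finite) : (comps Γ Q).Finite := hQ.image _

theorem comps_disjoint (Q : Set V) : (comps Γ Q).PairwiseDisjoint id := by
  rintro _ ⟨u, hu, rfl⟩ _ ⟨v, hv, rfl⟩ hne
  rw [Function.onFun, Set.disjoint_left]
  intro w hw hw'
  exact hne ((comp_eq hw).symm.trans (comp_eq hw'))

theorem S_comps (f : V → ℕ) {Q P : Set V} (hQ : Q.Finite) (hP : P ⊆ Q) :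
    ∑ᶠ z ∈ P, f z = ∑ᶠ C ∈ comps Γ Q, ∑ᶠ z ∈ P ∩ C, f z := by
  have h1 : P = ⋃ C ∈ comps Γ Q, P ∩ C := by
    ext z
    simp only [Set.mem_iUnion, Set.mem_inter_iff, exists_prop]
    constructor
    · intro hz
      exact ⟨comp Γ Q z, ⟨z, hP hz, rfl⟩, hz, mem_comp_self (hP hz)⟩
    · rintro ⟨_, _, hz, _⟩
      exact hz
  conv_lhs => rw [h1]
  refine finsum_mem_biUnion ?_ (comps_finite hQ) (fun C _ => (hQ.subset hP).inter_of_left C)
  intro C hC C' hC' hne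
  exact (comps_disjoint Q hC hC' hne).mono Set.inter_subset_right Set.inter_subset_right

theorem inn_comps {Q : Set V} {C : Set V} (hC : C ∈ comps Γ Q) : Inn Γ Q ∩ C = Inn Γ C := by
  obtain ⟨v, hv, rfl⟩ := hC
  ext z
  constructor
  · rintro ⟨⟨hz, hz2⟩, hzC⟩
    exact ⟨hzC, fun y hy => comp_adj hzC hy (hz2 y hy)⟩
  · rintro ⟨hz, hz2⟩
    exact ⟨⟨hz.1, fun y hy => (hz2 y hy).1⟩, hz⟩

/-- if all components satisfy the inequality, so does `Q` -/
theorem ineq_of_comps {f g : V → ℕ} {Q : Set V} (hQ : Q.Finite)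
    (h : ∀ C ∈ comps Γ Q, ∑ᶠ z ∈ Inn Γ C, f z ≤ ∑ᶠ z ∈ C, g z) :
    ∑ᶠ z ∈ Inn Γ Q, f z ≤ ∑ᶠ z ∈ Q, g z := by
  have h1 := S_comps (Γ := Γ) f hQ (P := Inn Γ Q) (fun z hz => hz.1)
  have h2 := S_comps (Γ := Γ) g hQ (P := Q) subset_rfl
  rw [h1, h2]
  refine S_le_sum (comps_finite hQ) (fun C hC => ?_)
  rw [inn_comps hC]
  have h3 : Q ∩ C = C := by
    obtain ⟨v, hv, rfl⟩ := hC
    exact Set.inter_eq_right.2 (comp_subset _ _)
  rw [h3]
  exact h C hC

/-! ### hole filling -/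

section fill

variable {C : Set V} {o : V}

/-- `C` together with its holes (relative to the outer point `o`) -/
def Fill (Γ : SimpleGraph V) (C : Set V) (o : V) : Set V := (comp Γ Cᶜ o)ᶜ

/-- the holes -/
def Hole (Γ : SimpleGraph V) (C : Set V) (o : V) : Set V := Fill Γ C o \ C

theorem subset_fill : C ⊆ Fill Γ C o := fun _ hc h => h.1 hc

theorem conn_fill (hconn : ∀ u v, RS Γ Set.univ u v) (hC : Conn Γ C) (hne : C.Nonempty) :
    Conn Γ (Fill Γ C o) := by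
  obtain ⟨c0, hc0⟩ := hne
  refine conn_of_core subset_fill hC (fun u hu => ?_)
  rcases hit (hconn u c0) hc0 with h | ⟨u', c', h1, h2, h3, h4⟩
  · exact ⟨u, h, ReflTransGen.refl⟩
  · by_cases huC : u ∈ C
    · exact ⟨u, huC, ReflTransGen.refl⟩
    have hsub : comp Γ Cᶜ u ⊆ Fill Γ C o := by
      intro w hw hw2
      apply hu
      exact ⟨huC, hw2.2.trans hw.2.symm⟩
    have h5 := (RS_comp (Γ := Γ) (Q := Cᶜ) huC h3).mono hsub
    have h6 : u' ∈ Fill Γ C o := hsub ⟨h2, h3⟩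
    exact ⟨c', h1, ReflTransGen.tail h5 ⟨h4, h6, subset_fill h1⟩⟩

theorem conn_compl_fill (ho : o ∉ C) : Conn Γ (Fill Γ C o)ᶜ := by
  rw [Fill, compl_compl]
  exact conn_comp ho

/-- a component of the hole set is a component of the complement of `C` -/
theorem comp_hole {v : V} (hv : v ∈ Hole Γ C o) : comp Γ (Hole Γ C o) v = comp Γ Cᶜ v := by
  have hsub : comp Γ Cᶜ v ⊆ Hole Γ C o := by
    intro w hw
    refine ⟨fun hw2 => hv.1 ⟨hv.2, hw2.2.trans hw.2.symm⟩, hw.1⟩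
  have hH : Hole Γ C o ⊆ Cᶜ := fun w hw => hw.2
  ext w
  constructor
  · rintro ⟨h1, h2⟩
    exact ⟨h1.2, h2.mono hH⟩
  · rintro ⟨h1, h2⟩
    exact ⟨hsub ⟨h1, h2⟩, (RS_comp (Γ := Γ) (Q := Cᶜ) hv.2 h2).mono hsub⟩

theorem conn_compl_comp (hconn : ∀ u v, RS Γ Set.univ u v) (hC : Conn Γ C) (hne : C.Nonempty)
    {v : V} (_hv : v ∉ C) : Conn Γ (comp Γ Cᶜ v)ᶜ := by
  obtain ⟨c0, hc0⟩ := hne
  have hCs : C ⊆ (comp Γ Cᶜ v)ᶜ := fun c hc h => h.1 hc
  refine conn_of_core hCs hC (fun u hu => ?_)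
  rcases hit (hconn u c0) hc0 with h | ⟨u', c', h1, h2, h3, h4⟩
  · exact ⟨u, h, ReflTransGen.refl⟩
  · by_cases huC : u ∈ C
    · exact ⟨u, huC, ReflTransGen.refl⟩
    have hsub : comp Γ Cᶜ u ⊆ (comp Γ Cᶜ v)ᶜ := by
      intro w hw hw2
      apply hu
      exact ⟨huC, hw2.2.trans hw.2.symm⟩
    have h5 := (RS_comp (Γ := Γ) (Q := Cᶜ) huC h3).mono hsub
    have h6 : u' ∈ (comp Γ Cᶜ v)ᶜ := hsub ⟨h2, h3⟩
    exact ⟨c', h1, ReflTransGen.tail h5 ⟨h4, h6, hCs h1⟩⟩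

/-- the collar of the holes -/
def Col (Γ : SimpleGraph V) (C : Set V) (o : V) : Set V := Hole Γ C o \ Inn Γ (Hole Γ C o)

theorem hole_adj {u w : V} (hu : u ∈ Hole Γ C o) (h : Γ.Adj u w) : w ∈ Fill Γ C o := by
  intro hw
  apply hu.1
  exact ⟨hu.2, hw.2.tail ⟨h.symm, hw.1, hu.2⟩⟩

theorem col_adj {z : V} (hz : z ∈ Col Γ C o) : ∃ w ∈ C, Γ.Adj z w := by
  by_contra hcon
  push Not at hcon
  apply hz.2
  refine ⟨hz.1, fun y hy => ⟨hole_adj hz.1 hy, fun hyC => hcon y hyC hy⟩⟩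

end fill

/-- simple sets -/
def Simple (Γ : SimpleGraph V) (P : Set V) : Prop := P.Finite ∧ Conn Γ P ∧ Conn Γ Pᶜ

theorem G1 (hconn : ∀ u v, RS Γ Set.univ u v)
    (hout : ∀ C : Set V, C.Finite → ∃ F : Set V, F.Finite ∧ C ⊆ F ∧ (∃ o, o ∉ F) ∧ Conn Γ Fᶜ)
    (hnb : ∀ A : Set V, A.Finite → (Nb Γ A).Finite)
    {x y : V → ℕ} (h1 : ∀ P, Simple Γ P → ∑ᶠ z ∈ Inn Γ P, x z ≤ ∑ᶠ z ∈ P, y z)
    (h2 : ∀ P, Simple Γ P → ∑ᶠ z ∈ Inn Γ P, y z ≤ ∑ᶠ z ∈ P, x z)
    {A : Set V} (hA : A.Finite) : ∑ᶠ z ∈ A, x z ≤ ∑ᶠ z ∈ Nb Γ (Nb Γ A), y z := by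
  have hD : (Nb Γ A).Finite := hnb A hA
  obtain ⟨F, hF, hDF, ⟨o, ho⟩, hFc⟩ := hout _ hD
  set D := Nb Γ A with hDdef
  have hAD : A ⊆ D := fun z hz => Or.inl hz
  -- properties of a component
  have hCD : ∀ C ∈ comps Γ D, C ⊆ D := by
    rintro _ ⟨v, _, rfl⟩; exact comp_subset _ _
  have hCadj : ∀ C ∈ comps Γ D, ∀ u ∈ C, ∀ w ∈ D, Γ.Adj u w → w ∈ C := by
    rintro _ ⟨v, _, rfl⟩ u hu w hw h; exact comp_adj hu h hw
  have hCconn : ∀ C ∈ comps Γ D, Conn Γ C := by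
    rintro _ ⟨v, hv, rfl⟩; exact conn_comp hv
  have hCne : ∀ C ∈ comps Γ D, C.Nonempty := by
    rintro _ ⟨v, hv, rfl⟩; exact ⟨v, mem_comp_self hv⟩
  have hoC : ∀ C ∈ comps Γ D, o ∉ C := fun C hC h => ho (hDF (hCD C hC h))
  have hout' : ∀ C ∈ comps Γ D, Fᶜ ⊆ comp Γ Cᶜ o := by
    intro C hC u hu
    have hFC : Fᶜ ⊆ Cᶜ := fun z hz hzC => hz (hDF (hCD C hC hzC))
    exact ⟨hFC hu, (hFc o ho u hu).mono hFC⟩
  have hfillF : ∀ C ∈ comps Γ D, Fill Γ C o ⊆ F := by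
    intro C hC u hu
    by_contra hcon
    exact hu (hout' C hC hcon)
  have hfin : ∀ C ∈ comps Γ D, (Fill Γ C o).Finite := fun C hC => hF.subset (hfillF C hC)
  have hfinH : ∀ C ∈ comps Γ D, (Hole Γ C o).Finite := fun C hC =>
    (hfin C hC).subset (fun z hz => hz.1)
  -- local inequality
  have hloc : ∀ C ∈ comps Γ D, ∑ᶠ z ∈ A ∩ C, x z ≤ ∑ᶠ z ∈ C ∪ Col Γ C o, y z := by
    intro C hC
    have e1 := h1 (Fill Γ C o) ⟨hfin C hC, conn_fill hconn (hCconn C hC) (hCne C hC),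
      conn_compl_fill (hoC C hC)⟩
    have e2 : ∑ᶠ z ∈ Inn Γ (Hole Γ C o), y z ≤ ∑ᶠ z ∈ Hole Γ C o, x z := by
      refine ineq_of_comps (hfinH C hC) ?_
      rintro _ ⟨v, hv, rfl⟩
      refine h2 _ ⟨(hfinH C hC).subset (comp_subset _ _), conn_comp hv, ?_⟩
      rw [comp_hole hv]
      exact conn_compl_comp hconn (hCconn C hC) (hCne C hC) hv.2
    have e3 : (A ∩ C) ∪ Hole Γ C o ⊆ Inn Γ (Fill Γ C o) := by
      rintro z (⟨hz1, hz2⟩ | hz)
      · refine ⟨subset_fill hz2, fun w hw => subset_fill ?_⟩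
        exact hCadj C hC z hz2 w (Or.inr ⟨z, hz1, hw.symm⟩) hw
      · exact ⟨hz.1, fun w hw => hole_adj hz hw⟩
    have hdis : Disjoint (A ∩ C) (Hole Γ C o) := by
      rw [Set.disjoint_left]; intro z hz hz2; exact hz2.2 hz.2
    have e4 := S_mono x e3 ((hfin C hC).subset (fun z hz => hz.1))
    rw [S_union x hdis (hA.inter_of_left C) (hfinH C hC)] at e4
    have hfC : C.Finite := hD.subset (hCD C hC)
    have e5 : Fill Γ C o = C ∪ Hole Γ C o := by
      ext z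
      constructor
      · intro hz
        by_cases hzC : z ∈ C
        · exact Or.inl hzC
        · exact Or.inr ⟨hz, hzC⟩
      · rintro (hz | hz)
        · exact subset_fill hz
        · exact hz.1
    have hdis2 : Disjoint C (Hole Γ C o) := by
      rw [Set.disjoint_left]; intro z hz hz2; exact hz2.2 hz
    have e6 : ∑ᶠ z ∈ Fill Γ C o, y z = ∑ᶠ z ∈ C, y z + ∑ᶠ z ∈ Hole Γ C o, y z := by
      conv_lhs => rw [e5]
      exact S_union y hdis2 hfC (hfinH C hC)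
    have e7 : Hole Γ C o = Inn Γ (Hole Γ C o) ∪ Col Γ C o := by
      ext z
      constructor
      · intro hz
        by_cases hz2 : z ∈ Inn Γ (Hole Γ C o)
        · exact Or.inl hz2
        · exact Or.inr ⟨hz, hz2⟩
      · rintro (hz | hz)
        · exact hz.1
        · exact hz.1
    have hdis3 : Disjoint (Inn Γ (Hole Γ C o)) (Col Γ C o) := by
      rw [Set.disjoint_left]; intro z hz hz2; exact hz2.2 hz
    have hfCol : (Col Γ C o).Finite := (hfinH C hC).subset (fun z hz => hz.1)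
    have e8 : ∑ᶠ z ∈ Hole Γ C o, y z = ∑ᶠ z ∈ Inn Γ (Hole Γ C o), y z +
        ∑ᶠ z ∈ Col Γ C o, y z := by
      conv_lhs => rw [e7]
      exact S_union y hdis3 ((hfinH C hC).subset (fun z hz => hz.1)) hfCol
    have hdis4 : Disjoint C (Col Γ C o) := by
      rw [Set.disjoint_left]; intro z hz hz2; exact hz2.1.2 hz
    rw [S_union y hdis4 hfC hfCol]
    omega
  -- collars avoid D
  have hcolD : ∀ C ∈ comps Γ D, ∀ z ∈ Col Γ C o, z ∉ D := by
    intro C hC z hz hzD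
    obtain ⟨w, hw, hzw⟩ := col_adj hz
    exact hz.1.2 (hCadj C hC w hw z hzD hzw.symm)
  -- collars of different components are disjoint
  have hcoldis : ∀ C ∈ comps Γ D, ∀ C' ∈ comps Γ D, C ≠ C' → ∀ z ∈ Col Γ C o,
      z ∉ Col Γ C' o := by
    -- if z is in the collar of both, then C' misses the outer component of C
    have key : ∀ C ∈ comps Γ D, ∀ C' ∈ comps Γ D, C ≠ C' → ∀ z ∈ Col Γ C o, z ∈ Col Γ C' o →
        ∀ u ∈ C', u ∉ comp Γ Cᶜ o := by
      intro C hC C' hC' hne z hz hz' u hu huo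
      have hdis := comps_disjoint D hC hC' hne
      rw [Function.onFun, Set.disjoint_left] at hdis
      have hC'C : C' ⊆ Cᶜ := fun a ha ha' => hdis ha' ha
      obtain ⟨w, hw, hzw⟩ := col_adj hz'
      have h3 : RS Γ Cᶜ u z :=
        ((hCconn C' hC' u hu w hw).mono hC'C).tail ⟨hzw.symm, hC'C hw, hz.1.2⟩
      exact hz.1.1 ⟨hz.1.2, huo.2.trans h3⟩
    intro C hC C' hC' hne z hz hz'
    have k1 := key C hC C' hC' hne z hz hz'
    have k2 := key C' hC' C hC hne.symm z hz' hz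
    have hdis := comps_disjoint D hC hC' hne
    rw [Function.onFun, Set.disjoint_left] at hdis
    obtain ⟨c0, hc0⟩ := hCne C hC
    rcases hit (hconn o c0) hc0 with h | ⟨u', c', e1, e2, e3, e4⟩
    · exact hoC C hC h
    have hsub : comp Γ Cᶜ o ⊆ C'ᶜ := fun a ha ha' => k1 a ha' ha
    have hoo : o ∈ Cᶜ := hoC C hC
    have e5 := (RS_comp (Γ := Γ) (Q := Cᶜ) hoo e3).mono hsub
    have e6 : c' ∈ C'ᶜ := fun h => hdis e1 h
    exact k2 c' e1 ⟨e6, e5.tail ⟨e4, hsub ⟨e2, e3⟩, e6⟩⟩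
  -- assemble
  have hcolfin : ∀ C ∈ comps Γ D, (C ∪ Col Γ C o).Finite := fun C hC =>
    (hD.subset (hCD C hC)).union ((hfinH C hC).subset (fun z hz => hz.1))
  have hpd : (comps Γ D).PairwiseDisjoint (fun C => C ∪ Col Γ C o) := by
    intro C hC C' hC' hne
    have hdis := comps_disjoint D hC hC' hne
    rw [Function.onFun, Set.disjoint_left] at hdis ⊢
    rintro z (hz | hz) (hz' | hz')
    · exact hdis hz hz'
    · exact hcolD C' hC' z hz' (hCD C hC hz)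
    · exact hcolD C hC z hz (hCD C' hC' hz')
    · exact hcoldis C hC C' hC' hne z hz hz'
  calc ∑ᶠ z ∈ A, x z = ∑ᶠ C ∈ comps Γ D, ∑ᶠ z ∈ A ∩ C, x z := S_comps x hD hAD
    _ ≤ ∑ᶠ C ∈ comps Γ D, ∑ᶠ z ∈ C ∪ Col Γ C o, y z := S_le_sum (comps_finite hD) hloc
    _ = ∑ᶠ z ∈ ⋃ C ∈ comps Γ D, (C ∪ Col Γ C o), y z :=
        (finsum_mem_biUnion hpd (comps_finite hD) hcolfin).symm
    _ ≤ ∑ᶠ z ∈ Nb Γ D, y z := by
        refine S_mono y ?_ (hnb D hD)
        intro z hz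
        simp only [Set.mem_iUnion, exists_prop] at hz
        obtain ⟨C, hC, hz | hz⟩ := hz
        · exact Or.inl (hCD C hC hz)
        · obtain ⟨w, hw, hzw⟩ := col_adj hz
          exact Or.inr ⟨w, hCD C hC hw, hzw⟩

/-! ### strips -/

section strip

variable (s : Strip)

theorem col_top {S : Set s.V} (k : ℕ) (hS : ∀ w : s.V, w.1.1 = k → w ∈ S) :
    ∀ (m : ℕ) (v : s.V), v.1.1 = k → v.1.2 + m = s.n k → RS s.Γ S v (s.tp k) := by
  intro m
  induction m with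
  | zero =>
    intro v hv hm
    have : v = s.tp k := by
      apply Subtype.ext
      apply Prod.ext
      · exact hv
      · show v.1.2 = s.n k
        omega
    rw [this]
    exact ReflTransGen.refl
  | succ m ih =>
    intro v hv hm
    let v' : s.V := ⟨(k, v.1.2 + 1), by show v.1.2 + 1 ≤ s.n k; omega⟩
    have h1 := ih v' rfl (by show v.1.2 + 1 + m = s.n k; omega)
    refine ReflTransGen.head ⟨Or.inl ⟨?_, Or.inl rfl⟩, hS v hv, hS v' rfl⟩ h1
    exact hv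

theorem col_top' {S : Set s.V} (v : s.V) (hS : ∀ w : s.V, w.1.1 = v.1.1 → w ∈ S) :
    RS s.Γ S v (s.tp v.1.1) := by
  have := v.2
  exact col_top s v.1.1 hS (s.n v.1.1 - v.1.2) v rfl (by omega)

theorem tops {S : Set s.V} (k m : ℕ) (hS : ∀ w : s.V, k ≤ w.1.1 → w ∈ S) :
    RS s.Γ S (s.tp k) (s.tp (k + m)) := by
  induction m with
  | zero => exact ReflTransGen.refl
  | succ m ih =>
    refine ReflTransGen.tail ih ⟨Or.inr (Or.inl ⟨rfl, s.top _⟩), hS _ ?_, hS _ ?_⟩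
    · show k ≤ k + m
      omega
    · show k ≤ k + (m + 1)
      omega

theorem conn_right (K : ℕ) : Conn s.Γ {v : s.V | K ≤ v.1.1} := by
  have h : ∀ v ∈ {v : s.V | K ≤ v.1.1}, RS s.Γ {v : s.V | K ≤ v.1.1} (s.tp K) v := by
    intro v hv
    have hv' : K ≤ v.1.1 := hv
    have h1 := tops s K (v.1.1 - K) (S := {v : s.V | K ≤ v.1.1}) (fun w hw => hw)
    rw [Nat.add_sub_cancel' hv'] at h1
    refine h1.trans (RS.symm (col_top' s v ?_))
    intro w hw
    show K ≤ w.1.1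
    omega
  intro u hu v hv
  exact (RS.symm (h u hu)).trans (h v hv)

theorem conn_univ (u v : s.V) : RS s.Γ Set.univ u v :=
  (conn_right s 0 u (Nat.zero_le _) v (Nat.zero_le _)).mono (Set.subset_univ _)

theorem finite_left (K : ℕ) : {v : s.V | v.1.1 ≤ K}.Finite := by
  classical
  let T : Finset (ℕ × ℕ) := (Finset.range (K + 1)).biUnion
    (fun k => (Finset.range (s.n k + 1)).image (fun i => (k, i)))
  refine Set.Finite.subset (T.finite_toSet.preimage Subtype.val_injective.injOn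
    (f := (Subtype.val : s.V → ℕ × ℕ))) ?_
  intro v hv
  have hv' : v.1.1 ≤ K := hv
  have h2 := v.2
  simp only [Set.mem_preimage, T, Finset.coe_biUnion, Set.mem_iUnion, Finset.mem_coe,
    Finset.mem_range, Finset.mem_image, exists_prop]
  exact ⟨v.1.1, by omega, v.1.2, by omega, rfl⟩

theorem bound_of_finite {C : Set s.V} (hC : C.Finite) : ∃ K, ∀ v ∈ C, v.1.1 ≤ K := by
  obtain ⟨K, hK⟩ := (hC.image (fun v : s.V => v.1.1)).bddAbove
  exact ⟨K, fun v hv => hK ⟨v, hv, rfl⟩⟩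

theorem nb_finite {A : Set s.V} (hA : A.Finite) : (Nb s.Γ A).Finite := by
  obtain ⟨K, hK⟩ := bound_of_finite s hA
  refine (finite_left s (K + 1)).subset ?_
  rintro z (hz | ⟨y, hy, hzy⟩)
  · have := hK z hz
    show z.1.1 ≤ K + 1
    omega
  · have := hK y hy
    show z.1.1 ≤ K + 1
    rcases hzy with ⟨h, _⟩ | ⟨h, _⟩ | ⟨h, _⟩ <;> omega

theorem out_exists {C : Set s.V} (hC : C.Finite) :
    ∃ F : Set s.V, F.Finite ∧ C ⊆ F ∧ (∃ o, o ∉ F) ∧ Conn s.Γ Fᶜ := by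
  obtain ⟨K, hK⟩ := bound_of_finite s hC
  refine ⟨{v : s.V | v.1.1 ≤ K}, finite_left s K, hK, ⟨s.tp (K + 1), ?_⟩, ?_⟩
  · show ¬ (K + 1 ≤ K)
    omega
  · have : {v : s.V | v.1.1 ≤ K}ᶜ = {v : s.V | K + 1 ≤ v.1.1} := by
      ext v
      simp only [Set.mem_compl_iff, Set.mem_ofPred_eq]
      omega
    rw [this]
    exact conn_right s (K + 1)

/-- indicator that `x` is in the column of `v` above it -/
def ab (v x : s.V) : ZMod 2 := if x.1.1 = v.1.1 ∧ v.1.2 < x.1.2 then 1 else 0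

/-- crossing indicator -/
def cr (a b v : s.V) : ZMod 2 :=
  if (a.1.1 = v.1.1 ∧ b.1.1 = v.1.1 + 1 ∧ v.1.2 < a.1.2) ∨
    (b.1.1 = v.1.1 ∧ a.1.1 = v.1.1 + 1 ∧ v.1.2 < b.1.2) then 1 else 0

theorem ne_of_notMem {P : Set s.V} {a v : s.V} (ha : a ∈ P) (hv : v ∉ P) :
    a.1.1 = v.1.1 → a.1.2 ≠ v.1.2 := by
  intro h1 h2
  apply hv
  have : a = v := Subtype.ext (Prod.ext h1 h2)
  exact this ▸ ha

theorem cr_top (a b : s.V) (k : ℕ) : cr s a b (s.tp k) = 0 := by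
  unfold cr
  rw [if_neg]
  have ha := a.2
  have hb := b.2
  rintro (⟨h1, _, h3⟩ | ⟨h1, _, h3⟩)
  · have h1' : a.1.1 = k := h1
    have h3' : s.n k < a.1.2 := h3
    rw [h1'] at ha
    omega
  · have h1' : b.1.1 = k := h1
    have h3' : s.n k < b.1.2 := h3
    rw [h1'] at hb
    omega

theorem cr_same {P : Set s.V} {a b v v' : s.V} (ha : a ∈ P) (hb : b ∈ P)
    (hv' : v' ∉ P) (h1 : v.1.1 = v'.1.1) (h2 : v.1.2 + 1 = v'.1.2) :
    cr s a b v = cr s a b v' := by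
  unfold cr
  have e1 := ne_of_notMem s ha hv'
  have e2 := ne_of_notMem s hb hv'
  congr 1
  apply propext
  constructor
  · rintro (⟨h3, h4, h5⟩ | ⟨h3, h4, h5⟩)
    · have := e1 (h3.trans h1)
      exact Or.inl ⟨by omega, by omega, by omega⟩
    · have := e2 (h3.trans h1)
      exact Or.inr ⟨by omega, by omega, by omega⟩
  · rintro (⟨h3, h4, h5⟩ | ⟨h3, h4, h5⟩)
    · exact Or.inl ⟨by omega, by omega, by omega⟩
    · exact Or.inr ⟨by omega, by omega, by omega⟩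

theorem cr_symm (a b v : s.V) : cr s a b v = cr s b a v := by
  unfold cr
  congr 1
  apply propext
  exact or_comm

/-- horizontal darts, one direction -/
theorem cr_horiz {P : Set s.V} {a b v v' : s.V} (ha : a ∈ P) (hb : b ∈ P) (hv : v ∉ P)
    (hv' : v' ∉ P) (h1 : v'.1.1 = v.1.1 + 1) (h2 : s.H v.1.1 v.1.2 v'.1.2)
    (h3 : b.1.1 = a.1.1 + 1) (h4 : s.H a.1.1 a.1.2 b.1.2) :
    cr s a b v + cr s a b v' = ab s v' a + ab s v' b := by
  have e1 := ne_of_notMem s ha hv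
  have e2 := ne_of_notMem s hb hv'
  have c1 : cr s a b v = ab s v' b := by
    unfold cr ab
    congr 1
    apply propext
    constructor
    · rintro (⟨h5, _, h7⟩ | ⟨h5, h6, _⟩)
      · refine ⟨by omega, ?_⟩
        rw [h5] at h4
        have := s.mono _ _ _ _ _ h4 h2 h7
        have h8 := e2 (by omega)
        omega
      · omega
    · rintro ⟨h5, h6⟩
      left
      have h7 : a.1.1 = v.1.1 := by omega
      refine ⟨h7, by omega, ?_⟩
      by_contra hcon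
      have h8 := e1 h7
      have h9 : a.1.2 < v.1.2 := by omega
      rw [h7] at h4
      have := s.mono _ _ _ _ _ h2 h4 h9
      omega
  have c2 : cr s a b v' = ab s v' a := by
    unfold cr ab
    congr 1
    apply propext
    constructor
    · rintro (⟨h5, h6, h7⟩ | ⟨h5, h6, h7⟩)
      · exact ⟨h5, h7⟩
      · omega
    · rintro ⟨h5, h6⟩
      exact Or.inl ⟨h5, by omega, h6⟩
  rw [c1, c2, add_comm]

theorem cr_vert {P : Set s.V} {a b v v' : s.V} (ha : a ∈ P) (hb : b ∈ P)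
    (hv' : v' ∉ P) (h3 : a.1.1 = b.1.1) (h4 : a.1.2 + 1 = b.1.2 ∨ b.1.2 + 1 = a.1.2) :
    cr s a b v + cr s a b v' = ab s v' a + ab s v' b := by
  have e1 := ne_of_notMem s ha hv'
  have e2 := ne_of_notMem s hb hv'
  have c0 : ∀ u : s.V, cr s a b u = 0 := by
    intro u
    unfold cr
    rw [if_neg]
    rintro (⟨h5, h6, _⟩ | ⟨h5, h6, _⟩) <;> omega
  have c1 : ab s v' a = ab s v' b := by
    unfold ab
    congr 1
    apply propext
    constructor
    · rintro ⟨h5, h6⟩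
      have := e2 (by omega)
      exact ⟨by omega, by omega⟩
    · rintro ⟨h5, h6⟩
      have := e1 (by omega)
      exact ⟨by omega, by omega⟩
  rw [c0, c0, c1, CharTwo.add_self_eq_zero, CharTwo.add_self_eq_zero]

theorem cr_dart {P : Set s.V} {a b v v' : s.V} (ha : a ∈ P) (hb : b ∈ P) (hv : v ∉ P)
    (hv' : v' ∉ P) (h1 : v'.1.1 = v.1.1 + 1) (h2 : s.H v.1.1 v.1.2 v'.1.2)
    (h : s.Γ.Adj a b) :
    cr s a b v + cr s a b v' = ab s v' a + ab s v' b := by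
  rcases h with ⟨h3, h4⟩ | ⟨h3, h4⟩ | ⟨h3, h4⟩
  · exact cr_vert s ha hb hv' h3 h4
  · exact cr_horiz s ha hb hv hv' h1 h2 h3 h4
  · rw [cr_symm s a b v, cr_symm s a b v', add_comm (ab s v' a)]
    exact cr_horiz s hb ha hv hv' h1 h2 h3 h4

theorem path_parity {P : Set s.V} {a b : s.V} (_ha : a ∈ P) (h : RS s.Γ P a b) :
    ∃ N : s.V → ZMod 2, (∀ k, N (s.tp k) = 0) ∧
      (∀ v v' : s.V, v ∉ P → v' ∉ P → v.1.1 = v'.1.1 → v.1.2 + 1 = v'.1.2 → N v = N v') ∧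
      (∀ v v' : s.V, v ∉ P → v' ∉ P → v'.1.1 = v.1.1 + 1 → s.H v.1.1 v.1.2 v'.1.2 →
        N v + N v' = ab s v' a + ab s v' b) := by
  induction h with
  | refl =>
    refine ⟨fun _ => 0, fun _ => rfl, fun _ _ _ _ _ _ => rfl, fun v v' _ _ _ _ => ?_⟩
    rw [CharTwo.add_self_eq_zero, CharTwo.add_self_eq_zero]
  | @tail b c hab hbc ih =>
    obtain ⟨N, h1, h2, h3⟩ := ih
    refine ⟨fun v => N v + cr s b c v, fun k => ?_, fun v v' hv hv' e1 e2 => ?_,
      fun v v' hv hv' e1 e2 => ?_⟩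
    · simp only [h1, cr_top, add_zero]
    · simp only
      rw [h2 v v' hv hv' e1 e2, cr_same s hbc.2.1 hbc.2.2 hv' e1 e2]
    · simp only
      have e3 := h3 v v' hv hv' e1 e2
      have e4 := cr_dart s hbc.2.1 hbc.2.2 hv hv' e1 e2 hbc.1
      have e5 : ab s v' b + ab s v' b = 0 := CharTwo.add_self_eq_zero _
      linear_combination e3 + e4 + e5

theorem ab_top {P : Set s.V} {k : ℕ} (hk : s.tp k ∈ P) {v : s.V} (hv : v ∉ P) :
    ab s v (s.tp k) = (if k ≤ v.1.1 then 1 else 0) + (if k + 1 ≤ v.1.1 then 1 else 0) := by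
  have e1 := ne_of_notMem s hk hv
  have e2 := v.2
  by_cases h : k = v.1.1
  · have h' : (s.tp k).1.1 = v.1.1 := h
    have e3 := e1 h'
    have e3' : s.n k ≠ v.1.2 := e3
    have e4 : v.1.2 < s.n k := by
      rw [← h] at e2
      omega
    unfold ab
    rw [if_pos ⟨h', e4⟩, if_pos (by omega), if_neg (by omega), add_zero]
  · have h' : ¬ ((s.tp k).1.1 = v.1.1) := h
    unfold ab
    rw [if_neg (fun hc => h' hc.1)]
    by_cases h2 : k ≤ v.1.1
    · rw [if_pos h2, if_pos (by omega), CharTwo.add_self_eq_zero]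
    · rw [if_neg h2, if_neg (by omega), add_zero]

/-- G2: simple sets have interval tops -/
theorem ti_of_simple {P : Set s.V} (hP : Simple s.Γ P) : s.TI P := by
  obtain ⟨hfin, hconn, hconn'⟩ := hP
  intro k₁ k₂ k₃ h12 h23 hk1 hk3
  by_contra hk2
  obtain ⟨K, hK⟩ := bound_of_finite s hfin
  obtain ⟨N, h1, h2, h3⟩ := path_parity s hk1 (hconn _ hk1 _ hk3)
  have hk4 : s.tp (K + k₃ + 1) ∉ P := by
    intro h
    have := hK _ h
    have h' : K + k₃ + 1 ≤ K := this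
    omega
  -- the invariant
  let f : s.V → ZMod 2 := fun v => N v + (if k₁ ≤ v.1.1 then 1 else 0) +
    (if k₃ ≤ v.1.1 then 1 else 0)
  have hstep : ∀ v v' : s.V, v ∉ P → v' ∉ P → v'.1.1 = v.1.1 + 1 → s.H v.1.1 v.1.2 v'.1.2 →
      f v = f v' := by
    intro v v' hv hv' e1 e2
    have e3 := h3 v v' hv hv' e1 e2
    rw [ab_top s hk1 hv', ab_top s hk3 hv'] at e3
    simp only [e1, Nat.add_le_add_iff_right] at e3
    simp only [f, e1]
    have t1 : ∀ z : ZMod 2, z + z = 0 := fun z => CharTwo.add_self_eq_zero z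
    have t2 := t1 (N v')
    have t3 := t1 (if k₁ ≤ v.1.1 then (1 : ZMod 2) else 0)
    have t4 := t1 (if k₃ ≤ v.1.1 then (1 : ZMod 2) else 0)
    linear_combination e3 - t2 + t3 + t4
  have hadj : ∀ v v' : s.V, v ∉ P → v' ∉ P → s.Γ.Adj v v' → f v = f v' := by
    intro v v' hv hv' h
    rcases h with ⟨e1, e2 | e2⟩ | ⟨e1, e2⟩ | ⟨e1, e2⟩
    · simp only [f, h2 v v' hv hv' e1 e2, e1]
    · simp only [f, h2 v' v hv' hv e1.symm e2, e1]
    · exact hstep v v' hv hv' e1 e2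
    · exact (hstep v' v hv' hv e1 e2).symm
  have hpath : ∀ v, RS s.Γ Pᶜ (s.tp k₂) v → f (s.tp k₂) = f v := by
    intro v hv
    induction hv with
    | refl => rfl
    | tail _ hbc ih => exact ih.trans (hadj _ _ hbc.2.1 hbc.2.2 hbc.1)
  have e := hpath _ (hconn' _ hk2 _ hk4)
  have hne : k₂ ≠ k₃ := by
    rintro rfl
    exact hk2 hk3
  have e1 : f (s.tp k₂) = 1 := by
    show N (s.tp k₂) + (if k₁ ≤ k₂ then 1 else 0) + (if k₃ ≤ k₂ then 1 else 0) = 1
    rw [h1, if_pos h12, if_neg (by omega), zero_add, add_zero]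
  have e2 : f (s.tp (K + k₃ + 1)) = 0 := by
    show N (s.tp (K + k₃ + 1)) + (if k₁ ≤ K + k₃ + 1 then 1 else 0) +
      (if k₃ ≤ K + k₃ + 1 then 1 else 0) = 0
    rw [h1, if_pos (by omega), if_pos (by omega), zero_add, CharTwo.add_self_eq_zero]
  rw [e1, e2] at e
  exact one_ne_zero e

end strip

end PG

/-- PART G. -/
theorem stripHall : StripHall := by
  intro s x y h1 h2 A hA
  exact PG.G1 (PG.conn_univ s) (fun C hC => PG.out_exists s hC) (fun A hA => PG.nb_finite s hA)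
    (fun P hP => h1 P hP.1 (PG.ti_of_simple s hP)) (fun P hP => h2 P hP.1 (PG.ti_of_simple s hP)) hA

end QEP
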