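import Pool.Agent.Work.MP_e35540_an.PartF4
import Pool.Agent.Work.MP_e35540_an.CoreK
import Pool.Agent.Work.MP_e35540_an.PartG

/-! MP_e35540_an: assembly. -/

open Filter Topology

namespace QEP

namespace Asm

theorem b_eq (l a : ℕ → ℝ) (ha : ∀ i, 0 < a i) (hl : ∀ i, 0 ≤ l i) (i p : ℕ) :
    (FMat l a ha).b i p = Real.exp (hh (a i) (l i) (p + 1)) := by
  change Real.exp (phi (p + 1) (l i) * a i) = _
  congr 1
  unfold phi hh mn
  congr 1
  rcases (hl i).eq_or_lt with h | h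
  · rw [← h]; simp; ring
  · rw [if_neg h.ne']
    by_cases h1 : l i * ((p + 1 : ℕ) : ℝ) ≤ 1
    · rw [if_pos h1, min_eq_right]
      · ring
      · rw [le_div_iff₀ h]; linarith
    · rw [if_neg h1, min_eq_left]
      · ring
      · push Not at h1
        rw [div_le_iff₀ h]; linarith

/-- Absolute convergence of the expansions. -/
theorem abs_conv {K : KMat} {y : ℕ → K.Space} {c : ℕ → (K.Space →ₗ[ℂ] ℂ)}
    (hy0 : ∀ p n, 0 < K.sn p (y n))
    (U : ∀ p, ∃ q, ∃ C : ℝ, ∀ v n, ‖c n v‖ * K.sn p (y n) ≤ C * K.sn q v)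
    (N : ∀ p, ∃ q, p ≤ q ∧ Summable fun n => K.sn p (y n) / K.sn q (y n)) :
    ∀ p, ∃ q, ∃ C : ℝ, ∀ v, Summable (fun n => ‖c n v‖ * K.sn p (y n)) ∧
      ∑' n, ‖c n v‖ * K.sn p (y n) ≤ C * K.sn q v := by
  intro p
  obtain ⟨r, hr, hs⟩ := N p
  obtain ⟨q, C, hU⟩ := U r
  refine ⟨q, C * ∑' n, K.sn p (y n) / K.sn r (y n), fun v => ?_⟩
  have h1 : ∀ n, ‖c n v‖ * K.sn p (y n) ≤ C * K.sn q v * (K.sn p (y n) / K.sn r (y n)) := by
    intro n
    have h2 := hU v n
    have h3 := hy0 p n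
    have h4 := hy0 r n
    calc ‖c n v‖ * K.sn p (y n) = ‖c n v‖ * K.sn r (y n) * (K.sn p (y n) / K.sn r (y n)) := by
          field_simp
      _ ≤ _ := mul_le_mul_of_nonneg_right h2 (by positivity)
  have h5 : Summable fun n => C * K.sn q v * (K.sn p (y n) / K.sn r (y n)) := hs.mul_left _
  have h6 : Summable fun n => ‖c n v‖ * K.sn p (y n) :=
    Summable.of_nonneg_of_le (fun n => mul_nonneg (norm_nonneg _) (hy0 p n).le) h1 h5
  refine ⟨h6, ?_⟩
  refine (h6.tsum_le_tsum h1 h5).trans (le_of_eq ?_)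
  rw [tsum_mul_left]
  ring

/-- The expansion of unit vectors, coordinatewise. -/
theorem hasSum_ST {K : KMat} {y : ℕ → K.Space} {c : ℕ → (K.Space →ₗ[ℂ] ℂ)}
    (hT : ∀ v, Tendsto (fun N => ∑ n ∈ Finset.range N, c n v • y n) atTop (𝓝 v))
    (hA : ∀ p, ∃ q, ∃ C : ℝ, ∀ v, Summable (fun n => ‖c n v‖ * K.sn p (y n)) ∧
      ∑' n, ‖c n v‖ * K.sn p (y n) ≤ C * K.sn q v) (v : K.Space) (i : ℕ) :
    HasSum (fun j => (y j).co i * c j v) (v.co i) := by
  obtain ⟨q, C, h1⟩ := hA 0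
  obtain ⟨h2, -⟩ := h1 v
  have hb := K.pos i 0
  have h3 : Summable fun j => (y j).co i * c j v := by
    apply Summable.of_norm
    have h4 : Summable fun j => (‖c j v‖ * K.sn 0 (y j)) * (K.b i 0)⁻¹ := h2.mul_right _
    refine Summable.of_nonneg_of_le (fun j => norm_nonneg _) (fun j => ?_) h4
    rw [norm_mul]
    have h5 := F4.co_le 0 (y j) i
    have h6 : ‖(y j).co i‖ ≤ K.sn 0 (y j) * (K.b i 0)⁻¹ := by
      rw [← div_eq_mul_inv, le_div_iff₀ hb]; exact h5
    calc ‖(y j).co i‖ * ‖c j v‖ ≤ (K.sn 0 (y j) * (K.b i 0)⁻¹) * ‖c j v‖ :=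
          mul_le_mul_of_nonneg_right h6 (norm_nonneg _)
      _ = _ := by ring
  rw [h3.hasSum_iff_tendsto_nat]
  rw [Metric.tendsto_atTop]
  intro ε hε
  have h7 := (F1.tendsto_iff.1 (hT v)) 0 (ε * K.b i 0) (by positivity)
  rw [eventually_atTop] at h7
  obtain ⟨N, hN⟩ := h7
  refine ⟨N, fun n hn => ?_⟩
  have h8 := hN n hn
  have h9 := F4.co_le 0 ((∑ n ∈ Finset.range n, c n v • y n) - v) i
  rw [KMat.co_sub, F4.sum_co] at h9
  have h10 : ∑ j ∈ Finset.range n, (y j).co i * c j v =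
      ∑ j ∈ Finset.range n, (c j v • y j).co i := by
    apply Finset.sum_congr rfl
    intro j _
    rw [KMat.co_smul, mul_comm]
  rw [dist_eq_norm, h10]
  exact lt_of_mul_lt_mul_right (lt_of_le_of_lt h9 h8) hb.le

/-- The comparison of a basis with the unit vectors. -/
theorem compare (hCore : Core) (K : KMat) (l a : ℕ → ℝ) (ha : ∀ i, 0 < a i) (hl : ∀ i, 0 ≤ l i)
    (hl1 : ∀ i, l i ≤ 1) (hbe : ∀ i p, K.b i p = Real.exp (hh (a i) (l i) (p + 1)))
    (hnuc : ∀ p, ∃ q, p ≤ q ∧ Summable fun i => K.b i p / K.b i q)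
    {y : ℕ → K.Space} {c : ℕ → (K.Space →ₗ[ℂ] ℂ)}
    (hT : ∀ v, Tendsto (fun N => ∑ n ∈ Finset.range N, c n v • y n) atTop (𝓝 v))
    (hB : ∀ n m, c n (y m) = if n = m then 1 else 0)
    (U : ∀ p, ∃ q, ∃ C : ℝ, ∀ v n, ‖c n v‖ * K.sn p (y n) ≤ C * K.sn q v)
    (N : ∀ p, ∃ q, p ≤ q ∧ Summable fun n => K.sn p (y n) / K.sn q (y n)) :
    ∃ (π : Equiv.Perm ℕ) (t : ℕ → ℝ), (∀ n, 0 < t n) ∧
      (∀ p, ∃ q, ∃ C : ℝ, ∀ i, t i * K.sn p (y (π i)) ≤ C * K.b i q) ∧
      (∀ p, ∃ q, ∃ C : ℝ, ∀ i, K.b i p ≤ C * (t i * K.sn q (y (π i)))) := by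
  have hy0 : ∀ p n, 0 < K.sn p (y n) := by
    intro p n
    apply F1.sn_pos
    intro h
    have h2 := hB n n
    rw [h, map_zero] at h2
    simp at h2
  have hA := abs_conv hy0 U N
  choose qU CU hU using U
  set D : ℕ → ℝ := fun p => |CU p| + 1 with hD
  have hD0 : ∀ p, 0 < D p := fun p => by simp only [hD]; positivity
  have hU' : ∀ p v n, ‖c n v‖ * K.sn p (y n) ≤ D p * K.sn (qU p) v := by
    intro p v n
    refine (hU p v n).trans ?_
    apply mul_le_mul_of_nonneg_right _ (apply_nonneg _ _)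
    simp only [hD]
    have := le_abs_self (CU p)
    linarith
  set T0 : ℕ → ℕ → ℂ := fun j i => c j (F4.e K i) with hT0
  set S0 : ℕ → ℕ → ℂ := fun i j => (y j).co i with hS0
  have hT0b : ∀ p j i, ‖T0 j i‖ * K.sn p (y j) ≤ D p * K.b i (qU p) := by
    intro p j i
    have := hU' p (F4.e K i) j
    rwa [F4.sn_e] at this
  have hS0b : ∀ p i j, ‖S0 i j‖ * K.b i p ≤ K.sn p (y j) := fun p i j => F4.co_le p (y j) i
  have hST0 : ∀ i i', HasSum (fun j => S0 i j * T0 j i') (if i = i' then 1 else 0) := by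
    intro i i'
    have := hasSum_ST hT hA (F4.e K i') i
    rwa [F4.e_co] at this
  have hTS0 : ∀ j j', HasSum (fun i => T0 j i * S0 i j') (if j = j' then 1 else 0) := by
    intro j j'
    have h1 := F4.expand (c j) (qU 0) (D 0 / K.sn 0 (y j)) (fun v => by
      have h2 := hU' 0 v j
      have h3 := hy0 0 j
      rw [div_mul_eq_mul_div, le_div_iff₀ h3]
      exact h2) (y j')
    rw [hB] at h1
    have e : (fun i => T0 j i * S0 i j') = fun i => (y j').co i * c j (F4.e K i) := by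
      funext i; simp only [hT0, hS0]; ring
    rw [e]; exact h1
  -- dominating weights
  choose r hr hrs using hnuc
  obtain ⟨ω, hωs, hω, hD'⟩ := F4.dominating (fun p i => K.b i p / K.b i (r p))
    (fun p i => div_nonneg (K.pos i p).le (K.pos i (r p)).le) hrs
  choose D' hD'0 hD' using hD'
  have hω0 : ∀ i, 0 < ω i := by
    intro i
    have h1 : 0 < K.b i 0 / K.b i (r 0) := div_pos (K.pos i 0) (K.pos i (r 0))
    have h2 := hD' 0 i
    have h3 : 0 < D' 0 * ω i := lt_of_lt_of_le h1 h2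
    exact (mul_pos_iff_of_pos_left (hD'0 0)).1 h3
  have hsel : ∀ j, ∃ i, ω i ≤ ‖T0 j i‖ * ‖S0 i j‖ := by
    intro j
    by_contra hcon
    push Not at hcon
    have h1 := hTS0 j j
    rw [if_pos rfl] at h1
    have h2 : Summable fun i => ‖T0 j i * S0 i j‖ :=
      Summable.of_nonneg_of_le (fun i => norm_nonneg _)
        (fun i => by rw [norm_mul]; exact (hcon i).le) hωs
    have h3 : ‖(1 : ℂ)‖ ≤ ∑' i, ‖T0 j i * S0 i j‖ := by
      rw [← h1.tsum_eq]
      exact norm_tsum_le_tsum_norm h2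
    have h4 : ∑' i, ‖T0 j i * S0 i j‖ ≤ ∑' i, ω i :=
      h2.tsum_le_tsum (fun i => by rw [norm_mul]; exact (hcon i).le) hωs
    rw [norm_one] at h3
    linarith
  choose ι hι using hsel
  set t0 : ℕ → ℝ := fun j => ‖T0 j (ι j)‖ with ht0
  have ht0pos : ∀ j, 0 < t0 j := by
    intro j
    have h1 := lt_of_lt_of_le (hω0 (ι j)) (hι j)
    by_contra h
    push Not at h
    have h2 : t0 j = 0 := le_antisymm h (norm_nonneg _)
    simp only [ht0] at h2
    rw [h2] at h1
    simp at h1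
  have up : ∀ p j, t0 j * K.sn p (y j) ≤ D p * K.b (ι j) (qU p) := fun p j => hT0b p j (ι j)
  have lo : ∀ p j, K.b (ι j) p ≤ D' p * (t0 j * K.sn (r p) (y j)) := by
    intro p j
    have h1 := hD' p (ι j)
    have h2 := K.pos (ι j) (r p)
    rw [div_le_iff₀ h2] at h1
    have h3 := hι j
    have h4 := hS0b (r p) (ι j) j
    have h5 := hD'0 p
    calc K.b (ι j) p ≤ D' p * ω (ι j) * K.b (ι j) (r p) := h1
      _ ≤ D' p * (‖T0 j (ι j)‖ * ‖S0 (ι j) j‖) * K.b (ι j) (r p) := by gcongr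
      _ = D' p * (‖T0 j (ι j)‖ * (‖S0 (ι j) j‖ * K.b (ι j) (r p))) := by ring
      _ ≤ _ := by
        apply mul_le_mul_of_nonneg_left _ h5.le
        exact mul_le_mul_of_nonneg_left h4 (norm_nonneg _)
  -- the two families
  let A : Fam :=
    { a := a, l := l, apos := ha, l0 := hl, l1 := hl1
      nuc := by
        intro p hp
        obtain ⟨p, rfl⟩ : ∃ p', p = p' + 1 := ⟨p - 1, by omega⟩
        refine ⟨r p + 1, by have := hr p; omega, ?_⟩
        refine (hrs p).congr (fun i => ?_)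
        rw [hbe, hbe, Real.exp_sub] }
  have hAh : ∀ i p, Real.exp (A.h i (p + 1)) = K.b i p := fun i p => (hbe i p).symm
  let B : Fam :=
    { a := fun j => a (ι j), l := fun j => l (ι j), apos := fun j => ha _, l0 := fun j => hl _
      l1 := fun j => hl1 _
      nuc := by
        intro p hp
        obtain ⟨p, rfl⟩ : ∃ p', p = p' + 1 := ⟨p - 1, by omega⟩
        obtain ⟨q1, hq1, hs1⟩ := N (r p)
        refine ⟨max (qU q1) p + 1, by omega, ?_⟩
        refine Summable.of_nonneg_of_le (fun j => (Real.exp_pos _).le) (fun j => ?_)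
          (hs1.mul_left (D' p * D q1))
        rw [Real.exp_sub, ← hbe, ← hbe]
        have h1 := lo p j
        have h2 := up q1 j
        have h3 : K.b (ι j) (qU q1) ≤ K.b (ι j) (max (qU q1) p) := F1.b_mono (le_max_left _ _) _
        have h4 := K.pos (ι j) (qU q1)
        have h5 := hy0 q1 j
        have h6 := hy0 (r p) j
        have h7 := ht0pos j
        have h8 := hD0 q1
        have h9 := hD'0 p
        calc K.b (ι j) p / K.b (ι j) (max (qU q1) p) ≤ K.b (ι j) p / K.b (ι j) (qU q1) :=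
              div_le_div_of_nonneg_left (K.pos _ _).le h4 h3
          _ ≤ D' p * (t0 j * K.sn (r p) (y j)) / (t0 j * K.sn q1 (y j) / D q1) := by
              apply div_le_div₀ (by positivity) h1 (by positivity)
              rw [div_le_iff₀ h8]; linarith
          _ = _ := by field_simp }
  have hBh : ∀ j p, Real.exp (B.h j (p + 1)) = K.b (ι j) p := fun j p => (hbe (ι j) p).symm
  set T : ℕ → ℕ → ℂ := fun j i => T0 j i / (t0 j : ℂ) with hTdef
  set S : ℕ → ℕ → ℂ := fun i j => S0 i j * (t0 j : ℂ) with hSdef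
  have hnt : ∀ j, ‖(t0 j : ℂ)‖ = t0 j := fun j => by
    rw [Complex.norm_real, Real.norm_eq_abs, abs_of_pos (ht0pos j)]
  have htne : ∀ j, (t0 j : ℂ) ≠ 0 := fun j => by
    rw [Ne, Complex.ofReal_eq_zero]; exact (ht0pos j).ne'
  obtain ⟨L⟩ := F4.mkLink A B T S (by
      intro p
      refine ⟨qU (r p), D' p * D (r p), fun j i => ?_⟩
      rw [Real.exp_sub, hAh, hBh]
      simp only [hTdef]
      rw [norm_div, hnt]
      have h1 := lo p j
      have h2 := hT0b (r p) j i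
      have h3 := K.pos (ι j) p
      have h4 := ht0pos j
      have h5 := hD'0 p
      rw [← mul_div_assoc, le_div_iff₀ h3]
      calc ‖T0 j i‖ / t0 j * K.b (ι j) p
          ≤ ‖T0 j i‖ / t0 j * (D' p * (t0 j * K.sn (r p) (y j))) := by gcongr
        _ = D' p * (‖T0 j i‖ * K.sn (r p) (y j)) := by field_simp
        _ ≤ D' p * (D (r p) * K.b i (qU (r p))) := by gcongr
        _ = _ := by ring)
    (by
      intro p
      refine ⟨qU p, D p, fun i j => ?_⟩
      rw [Real.exp_sub, hAh, hBh]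
      simp only [hSdef]
      rw [norm_mul, hnt]
      have h1 := up p j
      have h2 := hS0b p i j
      have h3 := K.pos i p
      have h4 := ht0pos j
      rw [← mul_div_assoc, le_div_iff₀ h3]
      calc ‖S0 i j‖ * t0 j * K.b i p = t0 j * (‖S0 i j‖ * K.b i p) := by ring
        _ ≤ t0 j * K.sn p (y j) := by gcongr
        _ ≤ _ := h1)
    (by
      intro i i'
      have e : (fun j => S i j * T j i') = fun j => S0 i j * T0 j i' := by
        funext j
        simp only [hTdef, hSdef]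
        have := htne j
        field_simp
      rw [e]; exact hST0 i i')
    (by
      intro j j'
      have h1 := (hTS0 j j').mul_left ((t0 j' : ℂ) / (t0 j : ℂ))
      have e : (fun i => T j i * S i j') =
          fun i => ((t0 j' : ℂ) / (t0 j : ℂ)) * (T0 j i * S0 i j') := by
        funext i
        simp only [hTdef, hSdef]
        ring
      rw [e]
      have e2 : (t0 j' : ℂ) / (t0 j : ℂ) * (if j = j' then 1 else 0) = if j = j' then 1 else 0 := by
        by_cases h : j = j'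
        · subst h
          rw [if_pos rfl, mul_one, div_self (htne j)]
        · rw [if_neg h, mul_zero]
      rwa [e2] at h1)
  obtain ⟨π, τ, hπ⟩ := hCore A B L
  refine ⟨π, fun i => t0 (π i) * Real.exp (τ i), fun i => mul_pos (ht0pos _) (Real.exp_pos _),
    ?_, ?_⟩
  · intro p
    obtain ⟨q, hq, C, h⟩ := hπ (qU p + 1) (by omega)
    obtain ⟨q, rfl⟩ : ∃ q', q = q' + 1 := ⟨q - 1, by omega⟩
    refine ⟨q, D p * Real.exp C, fun i => ?_⟩
    have h1 := up p (π i)
    have h2 := (h i).2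
    have h3 := hD0 p
    calc t0 (π i) * Real.exp (τ i) * K.sn p (y (π i))
        = (t0 (π i) * K.sn p (y (π i))) * Real.exp (τ i) := by ring
      _ ≤ (D p * K.b (ι (π i)) (qU p)) * Real.exp (τ i) := by gcongr
      _ = D p * Real.exp (B.h (π i) (qU p + 1) + τ i) := by
          rw [Real.exp_add, hBh]; ring
      _ ≤ D p * Real.exp (A.h i (q + 1) + C) := by gcongr
      _ = _ := by rw [Real.exp_add, hAh]; ring
  · intro p
    obtain ⟨q, hq, C, h⟩ := hπ (p + 1) (by omega)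
    obtain ⟨q, rfl⟩ : ∃ q', q = q' + 1 := ⟨q - 1, by omega⟩
    refine ⟨r q, Real.exp C * D' q, fun i => ?_⟩
    have h1 := lo q (π i)
    have h2 := (h i).1
    calc K.b i p = Real.exp (A.h i (p + 1)) := (hAh i p).symm
      _ ≤ Real.exp (B.h (π i) (q + 1) + τ i + C) := Real.exp_le_exp.2 h2
      _ = Real.exp C * Real.exp (τ i) * K.b (ι (π i)) q := by
          rw [Real.exp_add, Real.exp_add, hBh]; ring
      _ ≤ Real.exp C * Real.exp (τ i) * (D' q * (t0 (π i) * K.sn (r q) (y (π i)))) := by gcongr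
      _ = _ := by ring

/-- The main theorem from the parts. -/
theorem main_of (h2 : PartF2) (h3 : PartF3) (h5 : PartF5) : Main := by
  intro l a ha hl hl1 hN x y hx hy
  have hCore : Core := core stripHall
  have hnuc := h3 _ hN
  have key : ∀ z : ℕ → FSpace l a ha, IsBasis z → ∃ (π : Equiv.Perm ℕ) (t : ℕ → ℝ)
      (Φ : FSpace l a ha ≃L[ℂ] FSpace l a ha), (∀ n, 0 < t n) ∧
      ∀ i, Φ (F4.e _ i) = ((t i : ℝ) : ℂ) • z (π i) := by
    intro z hz
    obtain ⟨c, hT, hB, U⟩ := partF1 _ z hz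
    have N := h2 _ hnuc z c hB U
    obtain ⟨π, t, ht, hc1, hc2⟩ := compare hCore _ l a ha hl hl1 (b_eq l a ha hl) hnuc hT hB U N
    have hy0 : ∀ p n, 0 < (FMat l a ha).sn p (z n) := by
      intro p n
      apply F1.sn_pos
      intro h
      have h2 := hB n n
      rw [h, map_zero] at h2
      simp at h2
    obtain ⟨Φ, hΦ⟩ := h5 _ z c hT hB (abs_conv hy0 U N) π t ht hc1 hc2
    exact ⟨π, t, Φ, ht, fun i => hΦ i _ (fun j => F4.e_co i j)⟩
  obtain ⟨σ, s, Φx, hs, hΦx⟩ := key x hx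
  obtain ⟨π, t, Φy, ht, hΦy⟩ := key y hy
  refine ⟨σ.symm.trans π, fun n => ((t (σ.symm n) : ℝ) : ℂ) / ((s (σ.symm n) : ℝ) : ℂ),
    Φx.symm.trans Φy, ?_, ?_⟩
  · intro n
    apply div_ne_zero
    · rw [Ne, Complex.ofReal_eq_zero]; exact (ht _).ne'
    · rw [Ne, Complex.ofReal_eq_zero]; exact (hs _).ne'
  · intro n
    have hsne : ((s (σ.symm n) : ℝ) : ℂ) ≠ 0 := by
      rw [Ne, Complex.ofReal_eq_zero]; exact (hs _).ne'
    have h1 := hΦx (σ.symm n)
    rw [Equiv.apply_symm_apply] at h1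
    have h2 : x n = ((s (σ.symm n) : ℝ) : ℂ)⁻¹ • Φx (F4.e _ (σ.symm n)) := by
      rw [h1, smul_smul, inv_mul_cancel₀ hsne, one_smul]
    rw [h2, map_smul]
    have h4 : (Φx.symm.trans Φy) (Φx (F4.e _ (σ.symm n))) = Φy (F4.e _ (σ.symm n)) := by
      rw [ContinuousLinearEquiv.trans_apply, ContinuousLinearEquiv.symm_apply_apply]
    rw [h4, hΦy, smul_smul, ← div_eq_inv_mul]
    rfl

end Asm

end QEP
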