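import Pool.Agent.Work.MP_e35540_an.Defs

/-! MP_e35540_an: elementary facts about `mn`, `hh`, and the pair estimates. -/

open Filter Topology

namespace QEP

theorem mn_le {l x : ℝ} (hl : 0 ≤ l) : mn l x ≤ x := by
  unfold mn
  split_ifs with h
  · exact le_rfl
  · push Not at h
    have hl' : 0 < l := by
      rcases hl.eq_or_lt with h0 | h0
      · rw [← h0] at h; linarith
      · exact h0
    rw [div_le_iff₀ hl']; linarith

theorem mul_mn_le {l x : ℝ} : l * mn l x ≤ 1 := by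
  unfold mn
  split_ifs with h
  · exact h
  · rcases eq_or_ne l 0 with h0 | h0
    · rw [h0]; simp
    · rw [mul_one_div_cancel h0]

theorem le_mn {l x y : ℝ} (h1 : y ≤ x) (hl : 0 ≤ l) (h2 : l * y ≤ 1) : y ≤ mn l x := by
  unfold mn
  split_ifs with h
  · exact h1
  · push Not at h
    have hl' : 0 < l := by
      rcases hl.eq_or_lt with h0 | h0
      · rw [← h0] at h; linarith
      · exact h0
    rw [le_div_iff₀ hl']; linarith

theorem mn_mono {l x y : ℝ} (hl : 0 ≤ l) (h : x ≤ y) : mn l x ≤ mn l y :=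
  le_mn ((mn_le hl).trans h) hl mul_mn_le

theorem one_le_mn {l x : ℝ} (hl : 0 ≤ l) (hl1 : l ≤ 1) (hx : 1 ≤ x) : 1 ≤ mn l x :=
  le_mn hx hl (by linarith)

theorem mn_eq {l x : ℝ} (h : l * x ≤ 1) : mn l x = x := by
  unfold mn; rw [if_pos h]

theorem mn_nonneg {l x : ℝ} (hl : 0 ≤ l) (hx : 0 ≤ x) : 0 ≤ mn l x :=
  le_mn hx hl (by simp)

theorem hh_one {a l : ℝ} (hl1 : l ≤ 1) : hh a l 1 = 0 := by
  unfold hh
  rw [mn_eq (by simpa using hl1)]
  simp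

theorem hh_le {a l : ℝ} (ha : 0 < a) (hl : 0 ≤ l) (p : ℕ) : hh a l p ≤ p * a := by
  unfold hh
  have h1 := mn_le (x := (p : ℝ)) hl
  have h2 : (0 : ℝ) ≤ 1 / p := by positivity
  exact mul_le_mul_of_nonneg_right (by linarith) ha.le

theorem hh_nonneg {a l : ℝ} (ha : 0 < a) (hl : 0 ≤ l) (hl1 : l ≤ 1) {p : ℕ} (hp : 1 ≤ p) :
    0 ≤ hh a l p := by
  unfold hh
  have hp' : (1 : ℝ) ≤ p := by exact_mod_cast hp
  have h1 := one_le_mn hl hl1 hp'
  have h2 : (1 : ℝ) / p ≤ 1 := by rw [div_le_one (by linarith)]; exact hp'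
  exact mul_nonneg (by linarith) ha.le

theorem hh_mono {a l : ℝ} (ha : 0 < a) (hl : 0 ≤ l) {p q : ℕ} (h : p ≤ q) :
    hh a l p + (1 / p - 1 / q) * a ≤ hh a l q := by
  unfold hh
  have h1 := mn_mono (x := (p : ℝ)) (y := q) hl (by exact_mod_cast h)
  have h2 := mul_le_mul_of_nonneg_right h1 ha.le
  nlinarith

theorem hh_mono' {a l : ℝ} (ha : 0 < a) (hl : 0 ≤ l) {p q : ℕ} (hp : 1 ≤ p) (h : p ≤ q) :
    hh a l p ≤ hh a l q := by
  have h1 := hh_mono ha hl h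
  have h2 : (1 : ℝ) / q ≤ 1 / p :=
    one_div_le_one_div_of_le (by exact_mod_cast hp) (by exact_mod_cast h)
  have h3 : 0 ≤ (1 / (p : ℝ) - 1 / q) * a := mul_nonneg (by linarith) ha.le
  linarith

theorem le_hh {a l G : ℝ} (ha : 0 < a) (hl : 0 ≤ l) {p : ℕ} (h1 : G ≤ p * a) (h2 : l * G ≤ a) :
    G - a / p ≤ hh a l p := by
  unfold hh
  have h3 : G / a ≤ mn l p := by
    apply le_mn _ hl
    · rw [← mul_div_assoc, div_le_one ha]; exact h2
    · rw [div_le_iff₀ ha]; exact h1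
  have h4 := mul_le_mul_of_nonneg_right h3 ha.le
  rw [div_mul_cancel₀ _ ha.ne'] at h4
  have : (mn l ↑p - 1 / ↑p) * a = mn l p * a - a / p := by ring
  rw [this]; linarith

theorem hh_le_G {a l G : ℝ} (ha : 0 < a) (hl : 0 ≤ l) (h : a ≤ l * G) (q : ℕ) : hh a l q ≤ G := by
  have hl' : 0 < l := by
    rcases hl.eq_or_lt with h0 | h0
    · rw [← h0] at h; linarith
    · exact h0
  have h1 : l * (mn l q * a) ≤ l * G := by
    have := mul_le_mul_of_nonneg_right (mul_mn_le (l := l) (x := (q : ℝ))) ha.le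
    calc l * (mn l q * a) = l * mn l q * a := by ring
      _ ≤ 1 * a := this
      _ ≤ l * G := by linarith
  have h2 := le_of_mul_le_mul_left h1 hl'
  unfold hh
  have h3 : (0 : ℝ) ≤ 1 / q * a := by positivity
  nlinarith

theorem hh_eq {a l : ℝ} {p : ℕ} (h : l * p ≤ 1) : hh a l p = (p - 1 / p) * a := by
  unfold hh; rw [mn_eq h]

/-- `min (a/l) W`. -/
noncomputable def gg (a l W : ℝ) : ℝ := mn l (W / a) * a

theorem gg_le {a l W : ℝ} (ha : 0 < a) (hl : 0 ≤ l) : gg a l W ≤ W := by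
  unfold gg
  have := mul_le_mul_of_nonneg_right (mn_le (x := W / a) hl) ha.le
  rwa [div_mul_cancel₀ _ ha.ne'] at this

theorem mul_gg_le {a l W : ℝ} (ha : 0 < a) : l * gg a l W ≤ a := by
  unfold gg
  have := mul_le_mul_of_nonneg_right (mul_mn_le (l := l) (x := W / a)) ha.le
  calc l * (mn l (W / a) * a) = l * mn l (W / a) * a := by ring
    _ ≤ 1 * a := this
    _ = a := one_mul a

theorem gg_nonneg {a l W : ℝ} (ha : 0 < a) (hl : 0 ≤ l) (hW : 0 ≤ W) : 0 ≤ gg a l W :=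
  mul_nonneg (mn_nonneg hl (by positivity)) ha.le

theorem le_gg {a l W y : ℝ} (ha : 0 < a) (hl : 0 ≤ l) (h1 : y ≤ W) (h2 : l * y ≤ a) :
    y ≤ gg a l W := by
  unfold gg
  have h3 : y / a ≤ mn l (W / a) := by
    apply le_mn (by gcongr) hl
    rw [← mul_div_assoc, div_le_one ha]; exact h2
  have := mul_le_mul_of_nonneg_right h3 ha.le
  rwa [div_mul_cancel₀ _ ha.ne'] at this

theorem gg_dich {a l W : ℝ} (ha : 0 < a) : (gg a l W = W ∧ l * W ≤ a) ∨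
    (a < l * W ∧ l * gg a l W = a) := by
  unfold gg mn
  by_cases h : l * (W / a) ≤ 1
  · left
    rw [if_pos h, div_mul_cancel₀ _ ha.ne']
    refine ⟨rfl, ?_⟩
    rwa [← mul_div_assoc, div_le_one ha] at h
  · right
    rw [if_neg h]
    push Not at h
    have hl : l ≠ 0 := by rintro rfl; simp at h; linarith
    refine ⟨?_, by field_simp⟩
    rwa [← mul_div_assoc, one_lt_div ha] at h

/-! ### The pair estimates -/

/-- The potential. -/
noncomputable def pot (p1 : ℕ) (a l G : ℝ) : ℝ := (hh a l p1 + G) / 2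

/-- The surplus of the level `p` for the output `u` and the input `v`. -/
noncomputable def sur (ψ : ℕ → ℕ) (c : ℕ → ℝ) (p1 : ℕ) (au lu Gu av lv Gv : ℝ) (p : ℕ) : ℝ :=
  hh au lu p - hh av lv (ψ p) - c p - (pot p1 au lu Gu - pot p1 av lv Gv)

/-- The constants. -/
structure Cst (ψ : ℕ → ℕ) (c : ℕ → ℝ) where
  p1 : ℕ
  q0 : ℝ
  ε : ℝ
  Λ : ℝ
  A0 : ℝ
  K2 : ℝ
  hψ : ∀ p, p ≤ ψ p
  ψmono : Monotone ψ
  hc : ∀ p, 0 ≤ c p
  hq0 : 0 ≤ q0
  hp1 : 2 * (ψ 1 : ℝ) + 2 * q0 + 10 ≤ p1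
  hε0 : 0 < ε
  hε : ε ≤ 1 / (64 * p1)
  hΛ : 64 * (p1 : ℝ) * ψ (2 * p1) ≤ Λ
  hA0 : 0 < A0
  hA1 : c 1 ≤ A0 / (64 * p1)
  hA2 : c (2 * p1) ≤ A0 / (64 * p1)
  hK2 : 2 * q0 + 2 * ψ 1 + p1 + 6 ≤ K2

variable {ψ : ℕ → ℕ} {c : ℕ → ℝ} (C : Cst ψ c)

namespace Cst

include C in
theorem s1 : (1 : ℝ) ≤ ψ 1 := by exact_mod_cast C.hψ 1

theorem p1pos : (12 : ℝ) ≤ C.p1 := by
  have := C.hp1; have := C.s1; have := C.hq0; linarith

theorem p1nat : 1 ≤ C.p1 := by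
  have h := C.p1pos
  have h2 : ((1 : ℕ) : ℝ) ≤ (C.p1 : ℝ) := by push_cast; linarith
  exact_mod_cast h2

/-- Estimate D. -/
theorem pairD {au lu Gu av lv Gv : ℝ} (hau : 0 < au) (hlu : 0 ≤ lu) (hlu1 : lu ≤ 1)
    (hav : 0 < av) (hlv : 0 ≤ lv) (_hlv1 : lv ≤ 1) (hr : C.Λ * au ≤ av) (hA : C.A0 ≤ av)
    (hGu : lu * Gu ≤ au)
    (hlev : Gu = 0 ∨ ∃ p : ℕ, 1 ≤ p ∧ Gu ≤ p * au ∧ au / p ≤ C.ε * av ∧ c p ≤ C.ε * av)
    (hcase : av ≤ lv * Gv ∨ (Gu ≤ Gv ∧ lv * C.p1 ≤ 1)) :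
    ∃ p : ℕ, 1 ≤ p ∧ 1 / (8 * (ψ 1 : ℝ)) * av ≤ sur ψ c C.p1 au lu Gu av lv Gv p ∧
      (lv * C.p1 ≤ 1 → (C.q0 + 1) * av ≤ sur ψ c C.p1 au lu Gu av lv Gv p) := by
  have hs := C.s1
  have hp := C.p1pos
  have hp1 := C.hp1
  have hq0 := C.hq0
  have hs0 : (0 : ℝ) < ψ 1 := by linarith
  have hp0 : (0 : ℝ) < C.p1 := by linarith
  -- basic bounds
  have e1 : hh av lv (ψ 1) + (1 / (ψ 1 : ℝ) - 1 / C.p1) * av ≤ hh av lv C.p1 := by
    apply hh_mono hav hlv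
    have : ((ψ 1 : ℕ) : ℝ) ≤ (C.p1 : ℝ) := by linarith
    exact_mod_cast this
  have e2 : (1 / (2 * (ψ 1 : ℝ))) * av ≤ (1 / (ψ 1 : ℝ) - 1 / C.p1) * av := by
    apply mul_le_mul_of_nonneg_right _ hav.le
    have : 1 / (C.p1 : ℝ) ≤ 1 / (2 * (ψ 1 : ℝ)) :=
      one_div_le_one_div_of_le (by positivity) (by linarith)
    have h3 : 1 / (ψ 1 : ℝ) = 1 / (2 * (ψ 1 : ℝ)) + 1 / (2 * (ψ 1 : ℝ)) := by
      field_simp; norm_num
    linarith
  have e3 : hh au lu C.p1 ≤ 1 / (64 * (ψ 1 : ℝ)) * av := by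
    have h1 := hh_le hau hlu C.p1
    have h2 : 64 * (C.p1 : ℝ) * ψ 1 ≤ C.Λ := by
      refine le_trans ?_ C.hΛ
      have : (ψ 1 : ℝ) ≤ ψ (2 * C.p1) := by
        exact_mod_cast C.ψmono (by have := C.p1nat; omega)
      have := mul_le_mul_of_nonneg_left this (show (0 : ℝ) ≤ 64 * C.p1 by positivity)
      linarith
    have h3 : 64 * (C.p1 : ℝ) * ψ 1 * au ≤ av := le_trans (by gcongr) hr
    rw [div_mul_eq_mul_div, one_mul, le_div_iff₀ (by positivity)]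
    nlinarith
  have hp2 : 2 * (ψ 1 : ℝ) ≤ C.p1 := by linarith
  have e4 : C.ε * av ≤ 1 / (128 * (ψ 1 : ℝ)) * av := by
    apply mul_le_mul_of_nonneg_right _ hav.le
    refine C.hε.trans (one_div_le_one_div_of_le (by positivity) (by linarith))
  have e5 : c 1 ≤ 1 / (128 * (ψ 1 : ℝ)) * av := by
    refine C.hA1.trans ?_
    calc C.A0 / (64 * C.p1) ≤ av / (64 * C.p1) := by gcongr
      _ = 1 / (64 * C.p1) * av := by ring
      _ ≤ _ := by
        apply mul_le_mul_of_nonneg_right _ hav.le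
        exact one_div_le_one_div_of_le (by positivity) (by linarith)
  have eu : hh au lu 1 = 0 := hh_one hlu1
  set X : ℝ := av / ψ 1 with hX
  have hXpos : 0 < X := by positivity
  have hXav : X ≤ av := by rw [hX]; exact div_le_self hav.le hs
  have f2 : (1 / (2 * (ψ 1 : ℝ))) * av = X / 2 := by rw [hX]; field_simp
  have f3 : 1 / (64 * (ψ 1 : ℝ)) * av = X / 64 := by rw [hX]; field_simp
  have f4 : 1 / (128 * (ψ 1 : ℝ)) * av = X / 128 := by rw [hX]; field_simp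
  have f8 : 1 / (8 * (ψ 1 : ℝ)) * av = X / 8 := by rw [hX]; field_simp
  rw [f2] at e2
  rw [f3] at e3
  rw [f4] at e4 e5
  have hs_le : hh av lv (ψ 1) ≤ ψ 1 * av := hh_le hav hlv _
  -- the second bound for `h_v(p1)`
  have e6 : lv * C.p1 ≤ 1 → ((C.p1 : ℝ) - 1) * av ≤ hh av lv C.p1 := by
    intro h
    rw [hh_eq h]
    apply mul_le_mul_of_nonneg_right _ hav.le
    have : 1 / (C.p1 : ℝ) ≤ 1 := by rw [div_le_one hp0]; linarith
    linarith
  rcases hcase with hcase | ⟨hc1, hc2⟩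
  · have hv : ∀ q, hh av lv q ≤ Gv := hh_le_G hav hlv hcase
    rcases hlev with hG0 | ⟨p, hp1', hG1, hG2, hG3⟩
    · refine ⟨1, le_rfl, ?_, ?_⟩
      · rw [f8]
        unfold sur pot
        rw [eu, hG0]
        have := hv (ψ 1)
        linarith
      · intro h
        have e6' := e6 h
        unfold sur pot
        rw [eu, hG0]
        have := hv (ψ 1)
        nlinarith
    · -- one of the two levels works
      have k1 : sur ψ c C.p1 au lu Gu av lv Gv 1 + sur ψ c C.p1 au lu Gu av lv Gv p ≥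
          hh av lv C.p1 - hh av lv (ψ 1) - c 1 - hh au lu C.p1 - au / p - c p := by
        unfold sur pot
        rw [eu]
        have h1 := le_hh hau hlu hG1 hGu
        have h2 := hv (ψ p)
        linarith
      have k2 : 2 * (X / 8) ≤ sur ψ c C.p1 au lu Gu av lv Gv 1 +
          sur ψ c C.p1 au lu Gu av lv Gv p := by linarith
      have k3 : lv * C.p1 ≤ 1 → 2 * ((C.q0 + 1) * av) ≤ sur ψ c C.p1 au lu Gu av lv Gv 1 +
          sur ψ c C.p1 au lu Gu av lv Gv p := by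
        intro h
        have e6' := e6 h
        nlinarith
      rw [f8]
      rcases le_total (sur ψ c C.p1 au lu Gu av lv Gv p) (sur ψ c C.p1 au lu Gu av lv Gv 1) with h | h
      · refine ⟨1, le_rfl, by linarith, fun hh => ?_⟩
        have := k3 hh; linarith
      · refine ⟨p, hp1', by linarith, fun hh => ?_⟩
        have := k3 hh; linarith
  · have key : (C.q0 + 1) * av ≤ sur ψ c C.p1 au lu Gu av lv Gv 1 := by
      have e6' := e6 hc2
      unfold sur pot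
      rw [eu]
      nlinarith
    refine ⟨1, le_rfl, ?_, fun _ => key⟩
    rw [f8]
    nlinarith

/-- Estimate U. -/
theorem pairU {au lu Gu av lv Gv : ℝ} (hau : 0 < au) (hlu : 0 ≤ lu) (hlu1 : lu ≤ 1)
    (hav : 0 < av) (hlv : 0 ≤ lv) (hlv1 : lv ≤ 1) (hr : C.Λ * av ≤ au) (hA : C.A0 ≤ au)
    (hGu : lu * Gu ≤ au) (hGv : 0 ≤ Gv)
    (hlev : (∃ p : ℕ, 1 ≤ p ∧ Gu ≤ p * au ∧ 1 / p ≤ C.ε ∧ c p ≤ C.ε * au ∧
      (av ≤ lv * Gv ∨ ψ p * av ≤ C.ε * au)) ∨ Gu ≤ Gv) :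
    ∃ p : ℕ, 1 ≤ p ∧ 1 / (8 * (C.p1 : ℝ)) * au ≤ sur ψ c C.p1 au lu Gu av lv Gv p := by
  have hs := C.s1
  have hp := C.p1pos
  have hp0 : (0 : ℝ) < C.p1 := by linarith
  set X : ℝ := au / C.p1 with hX
  have hXpos : 0 < X := by positivity
  have e1 : hh au lu C.p1 + X / 2 ≤ hh au lu (2 * C.p1) := by
    have h := hh_mono hau hlu (show C.p1 ≤ 2 * C.p1 by omega)
    have h2 : (1 / (C.p1 : ℝ) - 1 / ((2 * C.p1 : ℕ) : ℝ)) * au = X / 2 := by
      rw [hX]; push_cast; field_simp; norm_num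
    linarith
  have e2 : hh av lv (ψ (2 * C.p1)) ≤ X / 64 := by
    have h1 := hh_le hav hlv (ψ (2 * C.p1))
    have h3 : 64 * (C.p1 : ℝ) * ψ (2 * C.p1) * av ≤ au := le_trans (by gcongr; exact C.hΛ) hr
    refine h1.trans ?_
    rw [hX, div_div, le_div_iff₀ (by positivity)]
    linarith
  have e3 : c (2 * C.p1) ≤ X / 64 := by
    refine C.hA2.trans ?_
    rw [hX, div_div, mul_comm (64 : ℝ)]
    gcongr
  have e4 : C.ε * au ≤ X / 64 := by
    have := mul_le_mul_of_nonneg_right C.hε hau.le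
    have h2 : 1 / (64 * (C.p1 : ℝ)) * au = X / 64 := by rw [hX]; field_simp
    linarith
  have f8 : 1 / (8 * (C.p1 : ℝ)) * au = X / 8 := by rw [hX]; field_simp
  have e5 : 0 ≤ hh av lv C.p1 := hh_nonneg hav hlv hlv1 C.p1nat
  have e6 : 0 ≤ hh au lu C.p1 := hh_nonneg hau hlu hlu1 C.p1nat
  have hn : 1 ≤ 2 * C.p1 := by have := C.p1nat; omega
  rw [f8]
  rcases hlev with ⟨p, hp1', hG1, hG2, hG3, hG4⟩ | hle
  · have h1 := le_hh hau hlu hG1 hGu
    have h2 : au / p ≤ C.ε * au := by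
      have := mul_le_mul_of_nonneg_right hG2 hau.le
      have h3 : 1 / (p : ℝ) * au = au / p := by ring
      linarith
    have h3 : Gu - au / p - c p - X / 64 - Gv ≤ hh au lu p - hh av lv (ψ p) - c p := by
      rcases hG4 with h4 | h4
      · have := hh_le_G hav hlv h4 (ψ p); linarith
      · have := hh_le hav hlv (ψ p); linarith
    have k : 2 * (X / 8) ≤ sur ψ c C.p1 au lu Gu av lv Gv (2 * C.p1) +
          sur ψ c C.p1 au lu Gu av lv Gv p := by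
      unfold sur pot
      linarith
    rcases le_total (sur ψ c C.p1 au lu Gu av lv Gv p)
      (sur ψ c C.p1 au lu Gu av lv Gv (2 * C.p1)) with h | h
    · exact ⟨2 * C.p1, hn, by linarith⟩
    · exact ⟨p, hp1', by linarith⟩
  · refine ⟨2 * C.p1, hn, ?_⟩
    unfold sur pot
    linarith

/-- Estimate N, upper output. -/
theorem pairN1 {au lu Gu av lv Gv m : ℝ} (hau : 0 < au) (hlu : 0 ≤ lu)
    (hav : 0 < av) (hlv : 0 ≤ lv) (hlv1 : lv ≤ 1)
    (hum : au ≤ m) (hGu : lu * Gu ≤ au)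
    (hlev : ∃ p : ℕ, 1 ≤ p ∧ Gu ≤ p * au ∧ 1 / p ≤ C.ε ∧ c p ≤ C.ε * au)
    (hv : av ≤ lv * Gv) (hgap : C.K2 * m ≤ Gu - Gv) :
    ∃ p : ℕ, 1 ≤ p ∧ (C.q0 + 1) * m ≤ sur ψ c C.p1 au lu Gu av lv Gv p := by
  obtain ⟨p, hp1', hG1, hG2, hG3⟩ := hlev
  refine ⟨p, hp1', ?_⟩
  have hs := C.s1
  have hp := C.p1pos
  have hK := C.hK2
  have h1 := le_hh hau hlu hG1 hGu
  have h2 : au / p ≤ C.ε * au := by
    have := mul_le_mul_of_nonneg_right hG2 hau.le
    have h3 : 1 / (p : ℝ) * au = au / p := by ring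
    linarith
  have h3 := hh_le_G hav hlv hv (ψ p)
  have h4 : C.ε * au ≤ m := by
    have h5 : C.ε ≤ 1 := by
      refine C.hε.trans ?_
      rw [div_le_one (by positivity)]; linarith
    nlinarith [C.hε0]
  have h5 := hh_le hau hlu C.p1
  have h6 : (C.p1 : ℝ) * au ≤ C.p1 * m := by gcongr
  have h7 : 0 ≤ hh av lv C.p1 := hh_nonneg hav hlv hlv1 C.p1nat
  have hm : 0 < m := lt_of_lt_of_le hau hum
  have h8 : (2 * C.q0 + 2 * ψ 1 + C.p1 + 6) * m ≤ Gu - Gv :=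
    le_trans (mul_le_mul_of_nonneg_right hK hm.le) hgap
  have h9 : 0 < (ψ 1 : ℝ) * m := by positivity
  unfold sur pot
  nlinarith

/-- Estimate N, lower output. -/
theorem pairN2 {au lu Gu av lv Gv m : ℝ} (hau : 0 < au) (hlu : 0 ≤ lu) (hlu1 : lu ≤ 1)
    (hav : 0 < av) (hlv : 0 ≤ lv) (hlv1 : lv ≤ 1)
    (hum : au ≤ m) (hvm : av ≤ m) (hA : C.A0 ≤ m) (hgap : C.K2 * m ≤ Gu - Gv) :
    (C.q0 + 1) * m ≤ sur ψ c C.p1 av lv Gv au lu Gu 1 := by
  have hs := C.s1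
  have hp := C.p1pos
  have hK := C.hK2
  have hm : 0 < m := lt_of_lt_of_le hau hum
  have h8 : (2 * C.q0 + 2 * ψ 1 + C.p1 + 6) * m ≤ Gu - Gv :=
    le_trans (mul_le_mul_of_nonneg_right hK hm.le) hgap
  have h1 : hh av lv 1 = 0 := hh_one hlv1
  have h2 := hh_le hau hlu (ψ 1)
  have h3 : (ψ 1 : ℝ) * au ≤ ψ 1 * m := by gcongr
  have h4 := hh_le hav hlv C.p1
  have h5 : (C.p1 : ℝ) * av ≤ C.p1 * m := by gcongr
  have h6 : c 1 ≤ m := by
    refine C.hA1.trans ((div_le_self C.hA0.le (by linarith)).trans hA)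
  have h7 : 0 ≤ hh au lu C.p1 := hh_nonneg hau hlu hlu1 C.p1nat
  unfold sur pot
  rw [h1]
  nlinarith

end Cst

end QEP
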