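import Mathlib

/-! MP_e35540_an: the rank lemma. -/

open Filter Topology

namespace QEP

/-- The rank lemma. -/
theorem rank_lemma (S T : ℕ → ℕ → ℂ) (F G : Finset ℕ) (g g' X Y : ℕ → ℝ)
    (hST : ∀ i ∈ F, ∀ i' ∈ F, HasSum (fun j => S i j * T j i') (if i = i' then 1 else 0))
    (hX0 : ∀ j, 0 ≤ X j) (hXs : Summable X) (hX : ∑' j, X j ≤ 1 / 2)
    (hY0 : ∀ j, 0 ≤ Y j) (hYs : Summable Y) (hY : ∑' j, Y j ≤ 1 / 2)
    (h1 : ∀ i ∈ F, ∀ j, j ∉ G → ‖S i j‖ * Real.exp (g i - g' j) ≤ X j)
    (h2 : ∀ i ∈ F, ∀ j, j ∉ G → ‖T j i‖ * Real.exp (g' j - g i) ≤ Y i) :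
    F.card ≤ G.card := by
  classical
  -- the matrix
  set N : Matrix F F ℂ := fun i i' =>
    (∑ j ∈ G, S i j * T j i') * (Real.exp (g i - g i') : ℂ) with hN
  -- off-part
  have key : ∀ i i' : F, ‖(if (i : ℕ) = i' then (1 : ℂ) else 0) - N i i'‖ ≤ 1 / 2 * Y i' := by
    intro i i'
    set f : ℕ → ℂ := fun j => S i j * T j i' with hf
    have hs := hST i i.2 i' i'.2
    -- the sum over the complement of G
    have h3 : HasSum (fun j => if j ∈ G then 0 else f j)
        ((if (i : ℕ) = i' then (1 : ℂ) else 0) - ∑ j ∈ G, f j) := by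
      have h4 : HasSum (fun j => if j ∈ G then f j else 0) (∑ j ∈ G, f j) := by
        have : HasSum (fun j => if j ∈ G then f j else 0)
            (∑ b ∈ G, (if b ∈ G then f b else 0)) :=
          hasSum_sum_of_ne_finset_zero (fun b hb => by simp [hb])
        have e : ∑ b ∈ G, (if b ∈ G then f b else 0) = ∑ j ∈ G, f j :=
          Finset.sum_congr rfl (fun b hb => by simp [hb])
        rwa [e] at this
      have := hs.sub h4
      have e : (fun j => if j ∈ G then 0 else f j) =
          (fun b => S (↑i) b * T b ↑i' - if b ∈ G then f b else 0) := by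
        funext j
        by_cases hj : j ∈ G <;> simp [hj, hf]
      rw [e]
      exact this
    have h5 : ∀ j, ‖(if j ∈ G then 0 else f j)‖ * Real.exp (g i - g i') ≤ X j * Y i' := by
      intro j
      by_cases hj : j ∈ G
      · simp [hj]; exact mul_nonneg (hX0 _) (hY0 _)
      · rw [if_neg hj]
        have a1 := h1 i i.2 j hj
        have a2 := h2 i' i'.2 j hj
        have a3 : Real.exp (g i - g i') = Real.exp (g i - g' j) * Real.exp (g' j - g i') := by
          rw [← Real.exp_add]; congr 1; ring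
        rw [hf, a3]
        simp only [norm_mul]
        calc ‖S i j‖ * ‖T j i'‖ * (Real.exp (g i - g' j) * Real.exp (g' j - g i'))
            = (‖S i j‖ * Real.exp (g i - g' j)) * (‖T j i'‖ * Real.exp (g' j - g i')) := by ring
          _ ≤ X j * Y i' := mul_le_mul a1 a2 (by positivity) (hX0 _)
    have h6 : ‖((if (i : ℕ) = i' then (1 : ℂ) else 0) - ∑ j ∈ G, f j)‖ * Real.exp (g i - g i') ≤
        (∑' j, X j) * Y i' := by
      rw [← h3.tsum_eq]
      have hsum : Summable fun j => ‖(if j ∈ G then 0 else f j)‖ * Real.exp (g i - g i') :=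
        Summable.of_nonneg_of_le (fun j => by positivity) h5 (hXs.mul_right _)
      have hsum' : Summable fun j => ‖(if j ∈ G then 0 else f j)‖ := by
        have := hsum.mul_right (Real.exp (g i - g i'))⁻¹
        refine this.congr (fun j => ?_)
        field_simp
      calc ‖∑' j, (if j ∈ G then 0 else f j)‖ * Real.exp (g i - g i')
          ≤ (∑' j, ‖(if j ∈ G then 0 else f j)‖) * Real.exp (g i - g i') := by
            apply mul_le_mul_of_nonneg_right _ (Real.exp_pos _).le
            exact norm_tsum_le_tsum_norm hsum'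
        _ = ∑' j, ‖(if j ∈ G then 0 else f j)‖ * Real.exp (g i - g i') := by
            rw [tsum_mul_right]
        _ ≤ ∑' j, X j * Y i' := hsum.tsum_le_tsum h5 (hXs.mul_right _)
        _ = _ := by rw [tsum_mul_right]
    have h7 : (if (i : ℕ) = i' then (1 : ℂ) else 0) - N i i' =
        ((if (i : ℕ) = i' then (1 : ℂ) else 0) - ∑ j ∈ G, f j) * (Real.exp (g i - g i') : ℂ) := by
      rw [hN, sub_mul]
      congr 1
      by_cases h : (i : ℕ) = i'
      · simp [h]
      · simp [h]
    rw [h7, norm_mul, Complex.norm_real, Real.norm_eq_abs, abs_of_pos (Real.exp_pos _)]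
    refine h6.trans ?_
    exact mul_le_mul_of_nonneg_right hX (hY0 _)
  -- diagonal dominance
  have hdet : N.det ≠ 0 := by
    apply det_ne_zero_of_sum_row_lt_diag
    intro i
    have hsumY : ∑ i' : F, Y i' ≤ 1 / 2 := by
      refine le_trans ?_ hY
      have := hYs.sum_le_tsum F (fun j _ => hY0 j)
      rwa [← Finset.sum_coe_sort] at this
    have h8 : ∀ i' ∈ Finset.univ.erase i, ‖N i i'‖ ≤ 1 / 2 * Y i' := by
      intro i' hi'
      have hne : (i : ℕ) ≠ i' := fun h => (Finset.ne_of_mem_erase hi') (Subtype.ext h.symm)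
      have := key i i'
      rw [if_neg hne, zero_sub, norm_neg] at this
      exact this
    have h9 : ‖(1 : ℂ) - N i i‖ ≤ 1 / 2 * Y i := by
      have := key i i
      rwa [if_pos rfl] at this
    have h10 : 1 - 1 / 2 * Y i ≤ ‖N i i‖ := by
      have : ‖(1 : ℂ)‖ ≤ ‖(1 : ℂ) - N i i‖ + ‖N i i‖ := by
        have := norm_add_le ((1 : ℂ) - N i i) (N i i)
        simpa using this
      rw [norm_one] at this
      linarith
    have h11 : ∑ i' ∈ Finset.univ.erase i, ‖N i i'‖ ≤ 1 / 2 * (1 / 2 - Y i) := by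
      calc _ ≤ ∑ i' ∈ Finset.univ.erase i, 1 / 2 * Y i' := Finset.sum_le_sum h8
        _ = 1 / 2 * ∑ i' ∈ Finset.univ.erase i, Y i' := by rw [Finset.mul_sum]
        _ = 1 / 2 * (∑ i' : F, Y i' - Y i) := by
          rw [← Finset.add_sum_erase Finset.univ (fun i' : F => Y i') (Finset.mem_univ i)]; ring
        _ ≤ _ := by linarith
    linarith
  -- rank
  have hrank : N.rank ≤ G.card := by
    set P : Matrix F G ℂ := fun i j => S i j * (Real.exp (g i) : ℂ) with hP
    set Q : Matrix G F ℂ := fun j i => T j i * (Real.exp (-g i) : ℂ) with hQ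
    have hPQ : N = P * Q := by
      ext i i'
      rw [Matrix.mul_apply, hN]
      simp only [hP, hQ]
      rw [Finset.sum_mul, ← Finset.sum_coe_sort]
      apply Finset.sum_congr rfl
      intro j _
      have : (Real.exp (g i - g i') : ℂ) = (Real.exp (g i) : ℂ) * (Real.exp (-g i') : ℂ) := by
        rw [← Complex.ofReal_mul, ← Real.exp_add, sub_eq_add_neg]
      rw [this]; ring
    rw [hPQ]
    refine (Matrix.rank_mul_le_left P Q).trans ?_
    refine (Matrix.rank_le_card_width P).trans ?_
    simp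
  have hfull : N.rank = F.card := by
    have : IsUnit N := by
      rw [Matrix.isUnit_iff_isUnit_det]
      exact isUnit_iff_ne_zero.2 hdet
    rw [Matrix.rank_of_isUnit N this]
    simp
  omega

end QEP
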