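import Mathlib

/-! MP_e35540_an: cut-off functions which are constant near the transitions. -/

namespace QEP

/-- The required ratio. -/
def RR (ψ : ℕ → ℕ) (E : ℕ) (x : ℕ) : ℕ := E * ψ (max x E)

theorem RR_mono {ψ : ℕ → ℕ} (hψ : Monotone ψ) (E : ℕ) : Monotone (RR ψ E) := by
  intro x y h
  unfold RR
  exact Nat.mul_le_mul_left _ (hψ (max_le_max_right _ h))

/-- `W` has no bad pair across `t`. -/
def Good (ψ : ℕ → ℕ) (E Λ : ℕ) (W : ℕ → ℕ) (t : ℕ) : Prop :=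
  ∀ κv κu, κv < t → t ≤ κu → W κu ≤ W κv ∨
    ∃ x, W κu ≤ x * Λ ^ κu ∧ RR ψ E x ≤ Λ ^ (κu - κv - 1)

theorem le_pow_self {Λ : ℕ} (hΛ : 2 ≤ Λ) (x : ℕ) : x ≤ Λ ^ x :=
  (Nat.lt_two_pow_self (n := x)).le.trans (Nat.pow_le_pow_left hΛ x)

/-- Flattening. -/
theorem flat {ψ : ℕ → ℕ} {E Λ : ℕ} (hψ : Monotone ψ) (hΛ : 2 ≤ Λ)
    {nn D ρ M L V : ℕ → ℕ} (hV : Monotone V) (hρ : Monotone ρ)
    (hMm : Monotone M) (hLm : Monotone L)
    (hslow : ∀ κ κ', nn κ + 2 ≤ nn κ' → κ + D (nn κ') ≤ κ')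
    (hVρ : ∀ κ, V κ ≤ ρ (nn κ) * Λ ^ κ)
    (hM : ∀ m, RR ψ E (ρ (m + 1)) ≤ Λ ^ M m)
    (hL : ∀ m, RR ψ E (ρ (m + 1) * Λ ^ M m) ≤ Λ ^ L m)
    (hD1 : ∀ m, RR ψ E (ρ m) ≤ Λ ^ D m) (hD2 : ∀ m, M m < D m) (hD3 : ∀ m, L m < D m)
    (t : ℕ) :
    ∃ V' : ℕ → ℕ, Monotone V' ∧ (∀ κ, V κ ≤ V' κ) ∧
      (∀ κ, V' κ ≤ (ρ (nn κ + 2) * Λ ^ (M (nn κ + 1) + L (nn κ + 1))) * Λ ^ κ) ∧
      Good ψ E Λ V' t ∧ (∀ t', t ≤ t' → Good ψ E Λ V t' → Good ψ E Λ V' t') ∧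
      (∀ κ, κ + L (nn t) < t → V' κ = V κ) := by
  have hΛ1 : 1 ≤ Λ := by omega
  set m := nn t with hm
  -- the growth of nn on the window
  have hnM : nn (t + M m) ≤ m + 1 := by
    by_contra h
    push Not at h
    have h1 := hslow t (t + M m) (by omega)
    have h2 : D (nn (t + M m)) ≤ M m := by omega
    have h3 := hD2 (nn (t + M m))
    have h4 : M m ≤ M (nn (t + M m)) := hMm (by omega)
    omega
  have hnL : ∀ κ, t ≤ κ + L m → m ≤ nn κ + 1 := by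
    intro κ h
    by_contra h'
    push Not at h'
    have h1 := hslow κ t (by omega)
    rw [← hm] at h1
    have h3 := hD3 m
    omega
  set V' : ℕ → ℕ := fun κ => if t ≤ κ + L m then max (V κ) (V (t + M m)) else V κ with hV'
  have hV'1 : ∀ κ, V κ ≤ V' κ := by
    intro κ; simp only [hV']; split_ifs
    · exact le_max_left _ _
    · exact le_rfl
  have hV'2 : ∀ κ, t ≤ κ + L m → V (t + M m) ≤ V' κ := by
    intro κ h; simp only [hV']; rw [if_pos h]; exact le_max_right _ _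
  have hV'3 : ∀ κ, t + M m ≤ κ → V' κ = V κ := by
    intro κ h; simp only [hV']; split_ifs with h1
    · exact max_eq_left (hV h)
    · rfl
  have hV'4 : ∀ κ, κ ≤ t + M m → V' κ ≤ V (t + M m) := by
    intro κ h; simp only [hV']; split_ifs with h1
    · exact max_le (hV h) le_rfl
    · exact hV h
  -- bound of V (t + M)
  have hb : V (t + M m) ≤ ρ (m + 1) * Λ ^ (t + M m) :=
    (hVρ _).trans (Nat.mul_le_mul_right _ (hρ hnM))
  have hfar : ∀ κv κu, κv + L m < t → t ≤ κu → κu ≤ t + M m →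
      ∃ x, V' κu ≤ x * Λ ^ κu ∧ RR ψ E x ≤ Λ ^ (κu - κv - 1) := by
    intro κv κu h1 h2 h3
    refine ⟨ρ (m + 1) * Λ ^ M m, ?_, ?_⟩
    · refine (hV'4 κu h3).trans (hb.trans ?_)
      rw [pow_add, mul_assoc, mul_comm (Λ ^ M m)]
      exact Nat.mul_le_mul_left _ (Nat.mul_le_mul_right _ (Nat.pow_le_pow_right hΛ1 h2))
    · exact (hL m).trans (Nat.pow_le_pow_right hΛ1 (by omega))
  refine ⟨V', ?_, hV'1, ?_, ?_, ?_, ?_⟩
  · intro κ κ' h
    simp only [hV']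
    by_cases h1 : t ≤ κ + L m
    · rw [if_pos h1, if_pos (by omega)]
      exact max_le_max_right _ (hV h)
    · rw [if_neg h1]
      split_ifs
      · exact (hV h).trans (le_max_left _ _)
      · exact hV h
  · intro κ
    have h0 : ρ (nn κ) ≤ ρ (nn κ + 2) * Λ ^ (M (nn κ + 1) + L (nn κ + 1)) :=
      (hρ (by omega)).trans (Nat.le_mul_of_pos_right _ (by positivity))
    by_cases h1 : t ≤ κ + L m
    · by_cases h2 : t + M m ≤ κ
      · rw [hV'3 κ h2]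
        exact (hVρ κ).trans (Nat.mul_le_mul_right _ h0)
      · push Not at h2
        refine (hV'4 κ h2.le).trans (hb.trans ?_)
        have h3 := hnL κ h1
        have h4 : ρ (m + 1) ≤ ρ (nn κ + 2) := hρ (by omega)
        have h5 : M m ≤ M (nn κ + 1) := hMm h3
        have h6 : L m ≤ L (nn κ + 1) := hLm h3
        rw [mul_assoc, ← pow_add]
        exact Nat.mul_le_mul h4 (Nat.pow_le_pow_right hΛ1 (by omega))
    · have : V' κ = V κ := by simp only [hV']; rw [if_neg h1]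
      rw [this]
      exact (hVρ κ).trans (Nat.mul_le_mul_right _ h0)
  · intro κv κu h1 h2
    by_cases h3 : t + M m ≤ κu
    · right
      refine ⟨ρ (nn κu), by rw [hV'3 κu h3]; exact hVρ κu, ?_⟩
      by_cases h4 : nn κu ≤ m + 1
      · refine (RR_mono hψ E (hρ h4)).trans ((hM m).trans ?_)
        exact Nat.pow_le_pow_right hΛ1 (by omega)
      · push Not at h4
        have h5 := hslow t κu (by omega)
        exact (hD1 (nn κu)).trans (Nat.pow_le_pow_right hΛ1 (by omega))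
    · push Not at h3
      by_cases h4 : t ≤ κv + L m
      · left
        exact (hV'4 κu h3.le).trans (hV'2 κv h4)
      · right
        exact hfar κv κu (by omega) h2 h3.le
  · intro t' ht' hg κv κu h1 h2
    by_cases h3 : t + M m ≤ κu
    · rw [hV'3 κu h3]
      rcases hg κv κu h1 h2 with h | h
      · exact Or.inl (h.trans (hV'1 κv))
      · exact Or.inr h
    · push Not at h3
      by_cases h4 : t ≤ κv + L m
      · left
        exact (hV'4 κu h3.le).trans (hV'2 κv h4)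
      · right
        exact hfar κv κu (by omega) (by omega) h3.le
  · intro κ h
    simp only [hV']
    rw [if_neg (by omega)]

section params

variable (ψ : ℕ → ℕ) (E Λ : ℕ)

/-- First window length. -/
def MM (ρ : ℕ → ℕ) (m : ℕ) : ℕ := RR ψ E (ρ (m + 1))
/-- Second window length. -/
def LL (ρ : ℕ → ℕ) (m : ℕ) : ℕ := RR ψ E (ρ (m + 1) * Λ ^ MM ψ E ρ m)
/-- The next bound of the ratio. -/
def nxt (ρ : ℕ → ℕ) (m : ℕ) : ℕ :=
  ρ (m + 2) * Λ ^ (MM ψ E ρ (m + 1) + LL ψ E Λ ρ (m + 1))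

variable {ψ E Λ}

theorem MM_mono (hψ : Monotone ψ) {ρ : ℕ → ℕ} (hρ : Monotone ρ) : Monotone (MM ψ E ρ) :=
  fun _ _ h => RR_mono hψ E (hρ (by omega))

theorem LL_mono (hψ : Monotone ψ) (hΛ : 1 ≤ Λ) {ρ : ℕ → ℕ} (hρ : Monotone ρ) :
    Monotone (LL ψ E Λ ρ) :=
  fun _ _ h => RR_mono hψ E (Nat.mul_le_mul (hρ (by omega))
    (Nat.pow_le_pow_right hΛ (MM_mono hψ hρ h)))

theorem nxt_mono (hψ : Monotone ψ) (hΛ : 1 ≤ Λ) {ρ : ℕ → ℕ} (hρ : Monotone ρ) :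
    Monotone (nxt ψ E Λ ρ) :=
  fun x y h => Nat.mul_le_mul (hρ (by omega)) (Nat.pow_le_pow_right hΛ
    (add_le_add (MM_mono hψ hρ (by omega)) (LL_mono hψ hΛ hρ (by omega))))

end params

/-- The existence of a slowly growing `nn`. -/
theorem exists_slow (D N : ℕ → ℕ) : ∃ (nn κs : ℕ → ℕ), Monotone nn ∧
    (∀ κ κ', nn κ + 2 ≤ nn κ' → κ + D (nn κ') ≤ κ') ∧
    (∀ κ, κs (nn κ) ≤ κ) ∧ (∀ κ, κ < κs (nn κ + 1)) ∧
    (∀ m, κs m + D (m + 1) + 1 ≤ κs (m + 1)) ∧ (∀ m, N (m + 1) ≤ κs (m + 1)) := by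
  classical
  obtain ⟨κs, h0, hs⟩ : ∃ κs : ℕ → ℕ, κs 0 = 0 ∧
      ∀ m, κs (m + 1) = max (κs m + D (m + 1) + 1) (N (m + 1)) :=
    ⟨fun m => Nat.rec 0 (fun k r => max (r + D (k + 1) + 1) (N (k + 1))) m, rfl, fun m => rfl⟩
  have h1 : ∀ m, κs m + D (m + 1) + 1 ≤ κs (m + 1) := fun m => by rw [hs]; exact le_max_left _ _
  have hlt : ∀ m, κs m < κs (m + 1) := fun m => by have := h1 m; omega
  have hmono : StrictMono κs := strictMono_nat_of_lt_succ hlt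
  have hge : ∀ m, m ≤ κs m := fun m => hmono.le_apply
  set nn : ℕ → ℕ := fun κ => Nat.findGreatest (fun m => κs m ≤ κ) κ with hnn
  have hn1 : ∀ κ, κs (nn κ) ≤ κ := by
    intro κ
    exact Nat.findGreatest_spec (P := fun m => κs m ≤ κ) (Nat.zero_le κ) (by rw [h0]; omega)
  have hn2 : ∀ κ m, κs m ≤ κ → m ≤ nn κ := by
    intro κ m h
    exact Nat.le_findGreatest ((hge m).trans h) h
  have hn3 : ∀ κ, κ < κs (nn κ + 1) := by
    intro κ
    by_contra h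
    push Not at h
    have := hn2 κ (nn κ + 1) h
    omega
  refine ⟨nn, κs, ?_, ?_, hn1, hn3, h1, fun m => by rw [hs]; exact le_max_right _ _⟩
  · intro κ κ' h
    exact hn2 κ' _ ((hn1 κ).trans h)
  · intro κ κ' h
    obtain ⟨m, hm⟩ : ∃ m, nn κ' = m + 1 := ⟨nn κ' - 1, by omega⟩
    have h2 := h1 m
    have h3 := hn1 κ'
    have h4 := hn3 κ
    have h5 : κs (nn κ + 1) ≤ κs m := hmono.monotone (show nn κ + 1 ≤ m by omega)
    rw [hm] at h3 ⊢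
    omega

/-- The scale data. -/
structure Scale (ψ : ℕ → ℕ) (E Λ η : ℕ) where
  nn : ℕ → ℕ
  ρ0 : ℕ → ℕ
  ρ2 : ℕ → ℕ
  κ0 : ℕ
  kst : ℕ
  hnn : Monotone nn
  nnlim : ∀ m, ∃ κ, m ≤ nn κ
  ρ0mono : Monotone ρ0
  ρ0ge : ∀ m, (m + 2) * η * Λ ^ 2 ≤ ρ0 m
  ρ0ge' : ∀ m, (m + 1) * η * Λ * RR ψ E ((m + 1) * η) ≤ ρ0 m
  ρ2mono : Monotone ρ2
  hκ0 : 1 ≤ κ0
  hkst : κ0 < kst
  nn0 : ∀ κ, nn κ = 0 ↔ κ < κ0
  jump : ∀ κ κ', nn κ + 2 ≤ nn κ' → RR ψ E (nn κ' * η) ≤ Λ ^ (κ' - κ - 1)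
  jump0 : ∀ κ κ', κ < κ0 → kst ≤ κ' → RR ψ E (nn κ' * η) ≤ Λ ^ (κ' - κ - 1)
  W : ∀ t1 t2, kst ≤ t1 → t1 ≤ t2 → ∃ W : ℕ → ℕ, Monotone W ∧
    (∀ κ, κ0 ≤ κ → ρ0 (nn κ) * Λ ^ κ ≤ W κ) ∧ (∀ κ, W κ ≤ ρ2 (nn κ) * Λ ^ κ) ∧
    (∀ κ, κ < κ0 → W κ = 0) ∧ Good ψ E Λ W t1 ∧ Good ψ E Λ W t2

/-- Existence of the scale data; `N` is an arbitrary threshold function of the ratio bound. -/
theorem exists_scale {ψ : ℕ → ℕ} {E Λ η : ℕ} (hψ : Monotone ψ) (hΛ : 2 ≤ Λ) (N : ℕ → ℕ) :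
    ∃ s : Scale ψ E Λ η, ∀ κ, s.κ0 ≤ κ → N (s.ρ2 (s.nn κ)) ≤ κ := by
  have hΛ1 : 1 ≤ Λ := by omega
  have hR := RR_mono hψ E
  set ρ0 : ℕ → ℕ := fun m => (m + 2) * η * Λ ^ 2 + (m + 1) * η * Λ * RR ψ E ((m + 1) * η) with hρ0
  have hρ0m : Monotone ρ0 := by
    intro x y h
    simp only [hρ0]
    apply add_le_add
    · gcongr
    · apply Nat.mul_le_mul (by gcongr)
      exact hR (by gcongr)
  set ρ1 := nxt ψ E Λ ρ0 with hρ1
  have hρ1m : Monotone ρ1 := nxt_mono hψ hΛ1 hρ0m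
  set ρ2 := nxt ψ E Λ ρ1 with hρ2
  have hρ2m : Monotone ρ2 := nxt_mono hψ hΛ1 hρ1m
  set D : ℕ → ℕ := fun m => MM ψ E ρ0 m + LL ψ E Λ ρ0 m + MM ψ E ρ1 m + LL ψ E Λ ρ1 m +
    RR ψ E (ρ0 m) + RR ψ E (ρ1 m) + RR ψ E (m * η) + 1 with hD
  obtain ⟨nn, κs, hnn, hslow, hκ1, hκ2, hκ3, hκ4⟩ := exists_slow D (fun m => N (ρ2 m))
  have hκmono : StrictMono κs := strictMono_nat_of_lt_succ (fun m => by have := hκ3 m; omega)
  have hnn0 : ∀ κ, nn κ = 0 ↔ κ < κs 1 := by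
    intro κ
    constructor
    · intro h; have := hκ2 κ; rwa [h] at this
    · intro h
      by_contra h'
      have h1 : κs 1 ≤ κs (nn κ) := hκmono.monotone (by omega)
      have := hκ1 κ
      omega
  set κ0 := κs 1 with hκ0
  set kst := κ0 + D 1 with hkst
  -- windows stay to the right of κ0
  have hwin : ∀ t, kst ≤ t → κ0 + D (nn t) ≤ t := by
    intro t ht
    have h1 : nn t ≠ 0 := fun h => by rw [hnn0] at h; omega
    rcases Nat.lt_or_ge (nn t) 2 with h2 | h2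
    · have : nn t = 1 := by omega
      rw [this]; omega
    · obtain ⟨m, hm⟩ : ∃ m, nn t = m + 2 := ⟨nn t - 2, by omega⟩
      have h3 := hκ1 t
      have h4 := hκ3 (m + 1)
      have h5 : κs 1 ≤ κs (m + 1) := hκmono.monotone (by omega)
      rw [hm] at h3 ⊢
      have h6 : m + 1 + 1 = m + 2 := rfl
      rw [h6] at h4
      omega
  refine ⟨{ nn := nn, ρ0 := ρ0, ρ2 := ρ2, κ0 := κ0, kst := kst, hnn := hnn, nnlim := ?_,
            ρ0mono := hρ0m, ρ0ge := ?_, ρ0ge' := ?_, ρ2mono := hρ2m, hκ0 := ?_, hkst := ?_,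
            nn0 := hnn0, jump := ?_, jump0 := ?_, W := ?_ }, ?_⟩
  · intro m
    refine ⟨κs m, ?_⟩
    by_contra h
    push Not at h
    have h1 := hκ2 (κs m)
    have h2 : κs (nn (κs m) + 1) ≤ κs m := hκmono.monotone (by omega)
    omega
  · intro m; simp only [hρ0]; omega
  · intro m; simp only [hρ0]; omega
  · have h : κs 0 + D 1 + 1 ≤ κs 1 := hκ3 0
    omega
  · rw [hkst]; simp only [hD]; omega
  · intro κ κ' h
    have h1 := hslow κ κ' h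
    have h2 : RR ψ E (nn κ' * η) + 1 ≤ D (nn κ') := by simp only [hD]; omega
    exact (le_pow_self hΛ _).trans (Nat.pow_le_pow_right hΛ1 (by omega))
  · intro κ κ' h h'
    have h1 := hwin κ' h'
    have h2 : RR ψ E (nn κ' * η) + 1 ≤ D (nn κ') := by simp only [hD]; omega
    exact (le_pow_self hΛ _).trans (Nat.pow_le_pow_right hΛ1 (by omega))
  · intro t1 t2 ht1 ht12
    set W0 : ℕ → ℕ := fun κ => if κ < κ0 then 0 else ρ0 (nn κ) * Λ ^ κ with hW0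
    have hW0m : Monotone W0 := by
      intro x y h
      simp only [hW0]
      by_cases hx : x < κ0
      · rw [if_pos hx]; exact Nat.zero_le _
      · rw [if_neg hx, if_neg (by omega)]
        exact Nat.mul_le_mul (hρ0m (hnn h)) (Nat.pow_le_pow_right hΛ1 h)
    have hW0b : ∀ κ, W0 κ ≤ ρ0 (nn κ) * Λ ^ κ := by
      intro κ; simp only [hW0]; split_ifs
      · exact Nat.zero_le _
      · exact le_rfl
    obtain ⟨V1, hV1m, hV1a, hV1b, hV1g, -, hV1z⟩ := flat (ψ := ψ) (E := E) (Λ := Λ) hψ hΛ (nn := nn)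
      (D := D) (ρ := ρ0) (M := MM ψ E ρ0) (L := LL ψ E Λ ρ0) (V := W0) hW0m hρ0m
      (MM_mono hψ hρ0m) (LL_mono hψ hΛ1 hρ0m) hslow hW0b
      (fun m => le_pow_self hΛ _) (fun m => le_pow_self hΛ _)
      (fun m => (le_pow_self hΛ _).trans (Nat.pow_le_pow_right hΛ1 (by simp only [hD]; omega)))
      (fun m => by simp only [hD]; omega) (fun m => by simp only [hD]; omega) t2
    obtain ⟨V2, hV2m, hV2a, hV2b, hV2g, hV2g', hV2z⟩ := flat (ψ := ψ) (E := E) (Λ := Λ) hψ hΛ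
      (nn := nn) (D := D) (ρ := ρ1) (M := MM ψ E ρ1) (L := LL ψ E Λ ρ1) (V := V1) hV1m hρ1m
      (MM_mono hψ hρ1m) (LL_mono hψ hΛ1 hρ1m) hslow hV1b
      (fun m => le_pow_self hΛ _) (fun m => le_pow_self hΛ _)
      (fun m => (le_pow_self hΛ _).trans (Nat.pow_le_pow_right hΛ1 (by simp only [hD]; omega)))
      (fun m => by simp only [hD]; omega) (fun m => by simp only [hD]; omega) t1
    refine ⟨V2, hV2m, ?_, hV2b, ?_, hV2g, hV2g' t2 ht12 hV1g⟩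
    · intro κ hκ
      refine le_trans ?_ ((hV1a κ).trans (hV2a κ))
      simp only [hW0]
      rw [if_neg (by omega)]
    · intro κ hκ
      have h1 := hwin t1 ht1
      have h2 := hwin t2 (by omega)
      have h3 : LL ψ E Λ ρ1 (nn t1) < D (nn t1) := by simp only [hD]; omega
      have h4 : LL ψ E Λ ρ0 (nn t2) < D (nn t2) := by simp only [hD]; omega
      rw [hV2z κ (by omega), hV1z κ (by omega)]
      simp only [hW0]
      rw [if_pos hκ]
  · intro κ hκ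
    have h1 : nn κ ≠ 0 := fun h => by rw [hnn0] at h; exact absurd h (by simpa using hκ)
    obtain ⟨m, hm⟩ : ∃ m, nn κ = m + 1 := ⟨nn κ - 1, by omega⟩
    have h2 := hκ4 m
    have h3 := hκ1 κ
    change N (ρ2 (nn κ)) ≤ κ
    rw [hm] at h3 ⊢
    exact h2.trans h3

end QEP
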