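import Pool.Agent.Work.MP_e35540_an.CoreA
import Pool.Agent.Work.MP_e35540_an.CoreD

/-! MP_e35540_an: cells. -/

open Filter Topology

namespace QEP

/-- All the data of the geometry. -/
structure Geo (ψ : ℕ → ℕ) (c : ℕ → ℝ) where
  C : Cst ψ c
  cmono : Monotone c
  E : ℕ
  Λ : ℕ
  η : ℕ
  s : Scale ψ E Λ η
  hE : 1 ≤ E
  hΛ : 2 ≤ Λ
  hΛe : Even Λ
  hΛC : C.Λ = Λ
  hΛq : 16 * C.p1 * C.q0 ≤ (Λ : ℝ)
  hεC : C.ε = 1 / E
  hη : 2 * C.K2 * (Λ : ℝ) ^ 2 ≤ η
  hηp : C.p1 ≤ η
  hlev : ∀ κ, s.κ0 ≤ κ → c (max (s.ρ2 (s.nn κ)) E) ≤ C.ε * (Λ : ℝ) ^ κ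
  hA : C.A0 ≤ (Λ : ℝ) ^ s.κ0

namespace Geo

variable {ψ : ℕ → ℕ} {c : ℕ → ℝ} (G : Geo ψ c)

/-- The size index. -/
noncomputable def κ (a : ℝ) : ℕ := Nat.log G.Λ ⌊a⌋₊

theorem lt_pow (a : ℝ) : a < (G.Λ : ℝ) ^ (G.κ a + 1) := by
  have h1 := Nat.lt_pow_succ_log_self (b := G.Λ) (by have := G.hΛ; omega) ⌊a⌋₊
  have h2 := Nat.lt_floor_add_one a
  have h3 : ((⌊a⌋₊ + 1 : ℕ) : ℝ) ≤ ((G.Λ ^ (G.κ a + 1) : ℕ) : ℝ) := by exact_mod_cast h1
  push_cast at h3
  linarith

theorem pow_le {a : ℝ} (h : 1 ≤ G.κ a) : (G.Λ : ℝ) ^ G.κ a ≤ a := by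
  have h0 : ⌊a⌋₊ ≠ 0 := by
    intro h0
    unfold κ at h
    rw [h0] at h
    simp at h
  have h1 := Nat.pow_log_le_self G.Λ h0
  have h2 : a ≥ 0 := by
    by_contra h'
    push Not at h'
    exact h0 (Nat.floor_of_nonpos h'.le)
  have h3 := Nat.floor_le h2
  have h4 : ((G.Λ ^ G.κ a : ℕ) : ℝ) ≤ (⌊a⌋₊ : ℝ) := by exact_mod_cast h1
  push_cast at h4
  linarith

/-- The column. -/
noncomputable def col (a : ℝ) : ℕ := G.κ a + 1 - G.s.kst

/-- The unit of length in the columns. -/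
noncomputable def un (k : ℕ) : ℝ := G.η * (G.Λ : ℝ) ^ k

theorem hηp' : (G.C.p1 : ℝ) ≤ G.η := by exact_mod_cast G.hηp

theorem ηpos : (0 : ℝ) < G.η := lt_of_lt_of_le (by have := G.C.p1pos; linarith) G.hηp'

theorem Λpos : (0 : ℝ) < G.Λ := by exact_mod_cast (by have := G.hΛ; omega : 0 < G.Λ)

theorem Λ2 : (2 : ℝ) ≤ G.Λ := by exact_mod_cast G.hΛ

theorem un_pos (k : ℕ) : 0 < G.un k := mul_pos G.ηpos (pow_pos G.Λpos _)

theorem un_succ (k : ℕ) : G.un (k + 1) = G.Λ * G.un k := by unfold un; rw [pow_succ]; ring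

/-- The row in the columns `≥ 1`. -/
noncomputable def row (a l : ℝ) : ℕ :=
  ⌊gg a l (G.s.nn (G.κ a) * G.un (G.κ a)) / G.un (G.κ a) + 1 / 2⌋₊

theorem row_le {a l : ℝ} (ha : 0 < a) (hl : 0 ≤ l) : G.row a l ≤ G.s.nn (G.κ a) := by
  unfold row
  have h0 := G.un_pos (G.κ a)
  have h1 : gg a l (G.s.nn (G.κ a) * G.un (G.κ a)) / G.un (G.κ a) ≤ G.s.nn (G.κ a) := by
    rw [div_le_iff₀ h0]
    exact gg_le ha hl
  have h2 : 0 ≤ gg a l (G.s.nn (G.κ a) * G.un (G.κ a)) / G.un (G.κ a) + 1 / 2 := by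
    have := gg_nonneg (W := G.s.nn (G.κ a) * G.un (G.κ a)) ha hl (by positivity)
    positivity
  have h3 : ⌊gg a l (G.s.nn (G.κ a) * G.un (G.κ a)) / G.un (G.κ a) + 1 / 2⌋₊ <
      G.s.nn (G.κ a) + 1 := by
    rw [Nat.floor_lt h2]
    push_cast
    linarith
  omega

theorem row_lo {a l : ℝ} (ha : 0 < a) (hl : 0 ≤ l) :
    (G.row a l - 1 / 2) * G.un (G.κ a) ≤ gg a l (G.s.nn (G.κ a) * G.un (G.κ a)) := by
  have h0 := G.un_pos (G.κ a)
  have h2 : 0 ≤ gg a l (G.s.nn (G.κ a) * G.un (G.κ a)) / G.un (G.κ a) + 1 / 2 := by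
    have := gg_nonneg (W := G.s.nn (G.κ a) * G.un (G.κ a)) ha hl (by positivity)
    positivity
  have h3 := Nat.floor_le h2
  have h4 : (G.row a l : ℝ) - 1 / 2 ≤ gg a l (G.s.nn (G.κ a) * G.un (G.κ a)) / G.un (G.κ a) := by
    unfold row; linarith
  rwa [le_div_iff₀ h0] at h4

theorem row_lo' {a l : ℝ} (ha : 0 < a) (hl : 0 ≤ l) :
    l * ((G.row a l - 1 / 2) * G.un (G.κ a)) ≤ a :=
  (mul_le_mul_of_nonneg_left (G.row_lo ha hl) hl).trans (mul_gg_le ha)

theorem row_hi {a l : ℝ} (ha : 0 < a) (hl : 0 ≤ l) (h : G.row a l < G.s.nn (G.κ a)) :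
    a < l * ((G.row a l + 1 / 2) * G.un (G.κ a)) := by
  have h0 := G.un_pos (G.κ a)
  have h3 := Nat.lt_floor_add_one
    (gg a l (G.s.nn (G.κ a) * G.un (G.κ a)) / G.un (G.κ a) + 1 / 2)
  have h4 : gg a l (G.s.nn (G.κ a) * G.un (G.κ a)) / G.un (G.κ a) < G.row a l + 1 / 2 := by
    unfold row; linarith
  rw [div_lt_iff₀ h0] at h4
  rcases gg_dich (a := a) (l := l) (W := G.s.nn (G.κ a) * G.un (G.κ a)) ha with ⟨h5, -⟩ | ⟨-, h5⟩
  · exfalso
    rw [h5] at h4
    have h6 : ((G.row a l + 1 : ℕ) : ℝ) ≤ (G.s.nn (G.κ a) : ℝ) := by exact_mod_cast h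
    push_cast at h6
    have h7 : (G.s.nn (G.κ a) : ℝ) < G.row a l + 1 / 2 := lt_of_mul_lt_mul_right h4 h0.le
    linarith
  · have hl' : 0 < l := by
      rcases hl.eq_or_lt with h6 | h6
      · rw [← h6] at h5; linarith
      · exact h6
    calc a = l * gg a l (G.s.nn (G.κ a) * G.un (G.κ a)) := h5.symm
      _ < _ := mul_lt_mul_of_pos_left h4 hl'

theorem row_top {a l : ℝ} (ha : 0 < a) (h : l * (G.s.nn (G.κ a) * G.un (G.κ a)) ≤ a) :
    G.row a l = G.s.nn (G.κ a) := by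
  have h0 := G.un_pos (G.κ a)
  have h5 : gg a l (G.s.nn (G.κ a) * G.un (G.κ a)) = G.s.nn (G.κ a) * G.un (G.κ a) := by
    rcases gg_dich (a := a) (l := l) (W := G.s.nn (G.κ a) * G.un (G.κ a)) ha with ⟨h5, -⟩ | ⟨h5, -⟩
    · exact h5
    · linarith
  unfold row
  rw [h5, mul_div_assoc, div_self h0.ne', mul_one]
  rw [Nat.floor_eq_iff (by positivity)]
  constructor <;> linarith

/-- Number of rows. -/
def nr (k : ℕ) : ℕ := if k = 0 then 0 else G.s.nn (G.s.kst + k - 1)

/-- The strip. -/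
def strip : Strip where
  n := G.nr
  H := fun k i i' => i ≤ G.nr k ∧ i' ≤ G.nr (k + 1) ∧ (k = 0 ∨
    ((i' = G.nr (k + 1) ∨ 2 * i < G.Λ * (2 * i' + 1) + 1) ∧
     (i = G.nr k ∨ G.Λ * (2 * i') < 2 * i + 1 + G.Λ)))
  mono := by
    rintro k i i' j j' ⟨h1, h2, h3⟩ ⟨h4, h5, h6⟩ hij
    by_contra hlt
    push Not at hlt
    rcases h3 with h3 | ⟨h3, -⟩
    · subst h3
      simp [nr] at h1
      omega
    · rcases h6 with h6 | ⟨-, h6⟩
      · subst h6
        simp [nr] at h1
        omega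
      · rcases h3 with h3 | h3
        · omega
        rcases h6 with h6 | h6
        · omega
        have h7 : G.Λ * (2 * i' + 2) ≤ G.Λ * (2 * j') := Nat.mul_le_mul_left _ (by omega)
        have h8 : G.Λ * (2 * i' + 2) = G.Λ * (2 * i' + 1) + G.Λ := by ring
        omega
  top := fun k => ⟨le_rfl, le_rfl, Or.inr ⟨Or.inl rfl, Or.inl rfl⟩⟩

theorem col_κ {a : ℝ} (h : G.col a ≠ 0) : G.s.kst + G.col a - 1 = G.κ a := by
  unfold col at *; omega

/-- The cell of a position. -/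
noncomputable def cell (a l : ℝ) (ha : 0 < a) (hl : 0 ≤ l) : G.strip.V :=
  ⟨(G.col a, if G.col a = 0 then 0 else G.row a l), by
    change (if G.col a = 0 then 0 else G.row a l) ≤ G.nr (G.col a)
    split_ifs with h
    · exact Nat.zero_le _
    · unfold nr
      rw [if_neg h, G.col_κ h]
      exact G.row_le ha hl⟩

theorem cell_fst (a l : ℝ) (ha : 0 < a) (hl : 0 ≤ l) : (G.cell a l ha hl).1.1 = G.col a := rfl

/-- `u` is above `v` in a neighbouring column, `v` is not at the top. -/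
def Abv (au lu av lv : ℝ) : Prop :=
  G.s.kst ≤ G.κ au ∧ G.s.kst ≤ G.κ av ∧ G.κ au ≤ G.κ av + 1 ∧ G.κ av ≤ G.κ au + 1 ∧
  ∃ x y : ℝ, lu * x ≤ au ∧ x ≤ G.s.nn (G.κ au) * G.un (G.κ au) ∧ av < lv * y ∧
    y ≤ G.s.nn (G.κ av) * G.un (G.κ av) ∧ G.un (min (G.κ au) (G.κ av)) / 2 ≤ x - y

theorem far_or_abv {au lu av lv : ℝ} (hau : 0 < au) (hlu : 0 ≤ lu) (hav : 0 < av) (hlv : 0 ≤ lv)
    (hne : G.cell au lu hau hlu ≠ G.cell av lv hav hlv)
    (hadj : ¬ G.strip.Γ.Adj (G.cell au lu hau hlu) (G.cell av lv hav hlv)) :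
    (G.κ av + 2 ≤ G.κ au ∧ G.col av + 2 ≤ G.col au) ∨
    (G.κ au + 2 ≤ G.κ av ∧ G.col au + 2 ≤ G.col av) ∨
    G.Abv au lu av lv ∨ G.Abv av lv au lu := by
  have hkst := G.s.hκ0
  have hkst' := G.s.hkst
  by_cases h1 : G.col av + 2 ≤ G.col au
  · left; refine ⟨?_, h1⟩; unfold col at h1; omega
  by_cases h2 : G.col au + 2 ≤ G.col av
  · right; left; refine ⟨?_, h2⟩; unfold col at h2; omega
  right; right
  -- column 0 is impossible
  have key : ∀ {a l a' l' : ℝ} (ha : 0 < a) (hl : 0 ≤ l) (ha' : 0 < a') (hl' : 0 ≤ l'),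
      G.col a + 1 = G.col a' → ¬ G.strip.H (G.col a) (if G.col a = 0 then 0 else G.row a l)
        (if G.col a' = 0 then 0 else G.row a' l') → G.Abv a l a' l' ∨ G.Abv a' l' a l := by
    intro a l a' l' ha hl ha' hl' hcol hH
    have hc' : G.col a' ≠ 0 := by omega
    have hc : G.col a ≠ 0 := by
      intro h0
      apply hH
      rw [if_pos h0, if_neg hc', h0]
      refine ⟨Nat.zero_le _, ?_, Or.inl rfl⟩
      have := G.row_le ha' hl'
      have h5 := G.col_κ hc'
      unfold nr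
      rw [if_neg (by omega)]
      rw [← hcol, h0] at h5
      rwa [h5]
    rw [if_neg hc, if_neg hc'] at hH
    have hk := G.col_κ hc
    have hk' := G.col_κ hc'
    have hκ : G.κ a' = G.κ a + 1 := by omega
    have hn : G.nr (G.col a) = G.s.nn (G.κ a) := by unfold nr; rw [if_neg hc, hk]
    have hn' : G.nr (G.col a + 1) = G.s.nn (G.κ a') := by
      rw [hcol]; unfold nr; rw [if_neg hc', hk']
    have hr := G.row_le ha hl
    have hr' := G.row_le ha' hl'
    obtain ⟨Λ', hΛ'⟩ := G.hΛe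
    set j := G.row a l with hj
    set j' := G.row a' l' with hj'
    set U := G.un (G.κ a) with hU
    have hUpos : 0 < U := G.un_pos _
    have hU' : G.un (G.κ a') = G.Λ * U := by rw [hκ, G.un_succ]
    have hmin1 : min (G.κ a) (G.κ a') = G.κ a := by omega
    have hmin2 : min (G.κ a') (G.κ a) = G.κ a := by omega
    have hH' : (j' ≠ G.s.nn (G.κ a') ∧ G.Λ * (2 * j' + 1) + 1 ≤ 2 * j) ∨
        (j ≠ G.s.nn (G.κ a) ∧ 2 * j + 1 + G.Λ ≤ G.Λ * (2 * j')) := by
      by_contra hcon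
      apply hH
      refine ⟨by rw [hn]; exact hr, by rw [hn']; exact hr', Or.inr ?_⟩
      rw [hn, hn']
      rw [not_or, not_and, not_and, not_le, not_le] at hcon
      refine ⟨?_, ?_⟩
      · by_contra h
        rw [not_or, not_lt] at h
        have := hcon.1 h.1
        omega
      · by_contra h
        rw [not_or, not_lt] at h
        have := hcon.2 h.1
        omega
    rcases hH' with ⟨h3, h4⟩ | ⟨h3, h4⟩
    · left
      refine ⟨by omega, by omega, by omega, by omega, ((j : ℝ) - 1 / 2) * U,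
        ((j' : ℝ) + 1 / 2) * G.un (G.κ a'), ?_, ?_, ?_, ?_, ?_⟩
      · exact G.row_lo' ha hl
      · apply mul_le_mul_of_nonneg_right _ hUpos.le
        have : (j : ℝ) ≤ G.s.nn (G.κ a) := by exact_mod_cast hr
        linarith
      · exact G.row_hi ha' hl' (by omega)
      · apply mul_le_mul_of_nonneg_right _ (G.un_pos _).le
        have : ((j' + 1 : ℕ) : ℝ) ≤ G.s.nn (G.κ a') := by exact_mod_cast (by omega)
        push_cast at this
        linarith
      · rw [hmin1, hU']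
        have h5 : G.Λ * (2 * j' + 1) + 2 ≤ 2 * j := by
          have : G.Λ * (2 * j' + 1) = 2 * (Λ' * (2 * j' + 1)) := by rw [hΛ']; ring
          omega
        have h6 : ((G.Λ * (2 * j' + 1) + 2 : ℕ) : ℝ) ≤ ((2 * j : ℕ) : ℝ) := by exact_mod_cast h5
        push_cast at h6
        have h7 := mul_le_mul_of_nonneg_right h6 hUpos.le
        nlinarith
    · right
      refine ⟨by omega, by omega, by omega, by omega, ((j' : ℝ) - 1 / 2) * G.un (G.κ a'),
        ((j : ℝ) + 1 / 2) * U, ?_, ?_, ?_, ?_, ?_⟩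
      · exact G.row_lo' ha' hl'
      · apply mul_le_mul_of_nonneg_right _ (G.un_pos _).le
        have : (j' : ℝ) ≤ G.s.nn (G.κ a') := by exact_mod_cast hr'
        linarith
      · exact G.row_hi ha hl (by omega)
      · apply mul_le_mul_of_nonneg_right _ hUpos.le
        have : ((j + 1 : ℕ) : ℝ) ≤ G.s.nn (G.κ a) := by exact_mod_cast (by omega)
        push_cast at this
        linarith
      · rw [hmin2, hU']
        have h5 : 2 * j + 2 + G.Λ ≤ G.Λ * (2 * j') := by
          have : G.Λ * (2 * j') = 2 * (G.Λ * j') := by ring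
          omega
        have h6 : ((2 * j + 2 + G.Λ : ℕ) : ℝ) ≤ ((G.Λ * (2 * j') : ℕ) : ℝ) := by exact_mod_cast h5
        push_cast at h6
        have h7 := mul_le_mul_of_nonneg_right h6 hUpos.le
        nlinarith
  rcases lt_trichotomy (G.col au) (G.col av) with h3 | h3 | h3
  · refine key hau hlu hav hlv (by omega) ?_
    intro h
    apply hadj
    right; left
    exact ⟨show G.col av = G.col au + 1 by omega, h⟩
  · -- same column
    have hc : G.col au ≠ 0 := by
      intro h0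
      apply hne
      apply Subtype.ext
      change (G.col au, if G.col au = 0 then 0 else G.row au lu) =
        (G.col av, if G.col av = 0 then 0 else G.row av lv)
      rw [← h3, if_pos h0, if_pos h0]
    have hc' : G.col av ≠ 0 := by omega
    have hk := G.col_κ hc
    have hk' := G.col_κ hc'
    have hκ : G.κ au = G.κ av := by omega
    have key2 : ∀ {a l a' l' : ℝ} (ha : 0 < a) (hl : 0 ≤ l) (ha' : 0 < a') (hl' : 0 ≤ l'),
        G.col a ≠ 0 → G.col a = G.col a' → G.row a' l' + 2 ≤ G.row a l → G.Abv a l a' l' := by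
      intro a l a' l' ha hl ha' hl' hc hcc hrr
      have hk := G.col_κ hc
      have hk' := G.col_κ (a := a') (by omega)
      have hκ : G.κ a' = G.κ a := by omega
      have hr := G.row_le ha hl
      have hr' := G.row_le ha' hl'
      rw [hκ] at hr'
      refine ⟨by omega, by omega, by omega, by omega, ((G.row a l : ℝ) - 1 / 2) * G.un (G.κ a),
        ((G.row a' l' : ℝ) + 1 / 2) * G.un (G.κ a'), G.row_lo' ha hl, ?_,
        G.row_hi ha' hl' (by rw [hκ]; omega), ?_, ?_⟩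
      · apply mul_le_mul_of_nonneg_right _ (G.un_pos _).le
        have : (G.row a l : ℝ) ≤ G.s.nn (G.κ a) := by exact_mod_cast hr
        linarith
      · apply mul_le_mul_of_nonneg_right _ (G.un_pos _).le
        have : ((G.row a' l' + 1 : ℕ) : ℝ) ≤ G.s.nn (G.κ a') := by
          exact_mod_cast (by rw [hκ]; omega)
        push_cast at this
        linarith
      · rw [hκ, min_self]
        have h5 : ((G.row a' l' + 2 : ℕ) : ℝ) ≤ (G.row a l : ℝ) := by exact_mod_cast hrr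
        push_cast at h5
        have h7 := mul_le_mul_of_nonneg_right h5 (G.un_pos (G.κ a)).le
        have := G.un_pos (G.κ a)
        nlinarith
    rcases lt_trichotomy (G.row au lu) (G.row av lv) with h4 | h4 | h4
    · by_cases h5 : G.row au lu + 1 = G.row av lv
      · exfalso; apply hadj; left
        refine ⟨h3, Or.inl ?_⟩
        change (if G.col au = 0 then 0 else G.row au lu) + 1 =
          (if G.col av = 0 then 0 else G.row av lv)
        rw [if_neg hc, if_neg hc', h5]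
      · right; exact key2 hav hlv hau hlu hc' h3.symm (by omega)
    · exfalso; apply hne
      apply Subtype.ext
      change (G.col au, if G.col au = 0 then 0 else G.row au lu) =
        (G.col av, if G.col av = 0 then 0 else G.row av lv)
      rw [if_neg hc, if_neg hc', h3, h4]
    · by_cases h5 : G.row av lv + 1 = G.row au lu
      · exfalso; apply hadj; left
        refine ⟨h3, Or.inr ?_⟩
        change (if G.col av = 0 then 0 else G.row av lv) + 1 =
          (if G.col au = 0 then 0 else G.row au lu)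
        rw [if_neg hc, if_neg hc', h5]
      · left; exact key2 hau hlu hav hlv hc h3 (by omega)
  · have h5 : ¬ G.strip.H (G.col av) (if G.col av = 0 then 0 else G.row av lv)
        (if G.col au = 0 then 0 else G.row au lu) := by
      intro h
      apply hadj
      right; right
      exact ⟨show G.col au = G.col av + 1 by omega, h⟩
    rcases key hav hlv hau hlu (by omega) h5 with h | h
    · exact Or.inr h
    · exact Or.inl h

end Geo

end QEP
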