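import Pool.Agent.Work.MP_e35540_an.CoreE

/-! MP_e35540_an: opposite pairs have a large surplus. -/

open Filter Topology

namespace QEP

namespace Geo

variable {ψ : ℕ → ℕ} {c : ℕ → ℝ} (G : Geo ψ c)

/-- Admissible cut-off functions. -/
structure Cut (W : ℕ → ℕ) : Prop where
  mono : Monotone W
  lo : ∀ κ, G.s.κ0 ≤ κ → G.s.ρ0 (G.s.nn κ) * G.Λ ^ κ ≤ W κ
  hi : ∀ κ, W κ ≤ G.s.ρ2 (G.s.nn κ) * G.Λ ^ κ
  zero : ∀ κ, κ < G.s.κ0 → W κ = 0

/-- The cut potential. -/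
noncomputable def Gg (W : ℕ → ℕ) (a l : ℝ) : ℝ := gg a l (W (G.κ a))

/-- The weight exponent. -/
noncomputable def om (a l : ℝ) : ℝ :=
  if l * G.C.p1 ≤ 1 then (G.C.q0 + 1) * a else 1 / (8 * (ψ 1 : ℝ)) * a

variable {G}

variable {W : ℕ → ℕ} (hW : G.Cut W)

include hW

theorem lo_un {κ : ℕ} (h : G.s.κ0 ≤ κ) : (G.s.nn κ : ℝ) * G.un κ ≤ W κ := by
  have h1 := hW.lo κ h
  have h2 := G.s.ρ0ge (G.s.nn κ)
  have h3 : G.s.nn κ * (G.η * G.Λ ^ κ) ≤ W κ := by
    refine le_trans ?_ h1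
    rw [← mul_assoc]
    apply Nat.mul_le_mul_right
    refine le_trans ?_ h2
    have hΛ : 1 ≤ G.Λ ^ 2 := Nat.one_le_pow _ _ (by have := G.hΛ; omega)
    calc G.s.nn κ * G.η = G.s.nn κ * G.η * 1 := by ring
      _ ≤ (G.s.nn κ + 2) * G.η * G.Λ ^ 2 := by gcongr; omega
  unfold un
  exact_mod_cast h3

theorem lo_p1 {κ : ℕ} (h : G.s.κ0 ≤ κ) : (G.C.p1 : ℝ) * (G.Λ : ℝ) ^ (κ + 1) ≤ W κ := by
  have h1 := hW.lo κ h
  have h2 := G.s.ρ0ge (G.s.nn κ)
  have h3 : G.C.p1 * G.Λ ^ (κ + 1) ≤ W κ := by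
    refine le_trans ?_ h1
    rw [pow_succ, mul_comm (G.Λ ^ κ), ← mul_assoc]
    apply Nat.mul_le_mul_right
    refine le_trans ?_ h2
    have hΛ : 1 ≤ G.Λ := by have := G.hΛ; omega
    calc G.C.p1 * G.Λ ≤ G.η * G.Λ := Nat.mul_le_mul_right _ G.hηp
      _ = 1 * G.η * (1 * G.Λ) := by ring
      _ ≤ (G.s.nn κ + 2) * G.η * (G.Λ * G.Λ) := by gcongr; omega
      _ = (G.s.nn κ + 2) * G.η * G.Λ ^ 2 := by ring
  exact_mod_cast h3

omit hW in
theorem Gg_le {a l : ℝ} (ha : 0 < a) (hl : 0 ≤ l) : G.Gg W a l ≤ W (G.κ a) := gg_le ha hl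

omit hW in
theorem Gg_nonneg {a l : ℝ} (ha : 0 < a) (hl : 0 ≤ l) : 0 ≤ G.Gg W a l :=
  gg_nonneg ha hl (by positivity)

/-- The standard level. -/
theorem std {a l : ℝ} (ha : 0 < a) (hl : 0 ≤ l) (h : G.s.κ0 ≤ G.κ a) :
    ∃ p : ℕ, 1 ≤ p ∧ G.E ≤ p ∧ G.Gg W a l ≤ p * a ∧ c p ≤ G.C.ε * (G.Λ : ℝ) ^ (G.κ a) := by
  refine ⟨max (G.s.ρ2 (G.s.nn (G.κ a))) G.E, ?_, le_max_right _ _, ?_, G.hlev _ h⟩
  · exact G.hE.trans (le_max_right _ _)
  · have h1 := Gg_le (G := G) (W := W) ha hl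
    have h2 := hW.hi (G.κ a)
    have h3 : (W (G.κ a) : ℝ) ≤ G.s.ρ2 (G.s.nn (G.κ a)) * (G.Λ : ℝ) ^ (G.κ a) := by
      exact_mod_cast h2
    have h4 := G.pow_le (a := a) (G.s.hκ0.trans h)
    have h5 : (G.s.ρ2 (G.s.nn (G.κ a)) : ℝ) * (G.Λ : ℝ) ^ (G.κ a) ≤
        (max (G.s.ρ2 (G.s.nn (G.κ a))) G.E : ℕ) * a := by
      apply mul_le_mul _ h4 (pow_nonneg G.Λpos.le _) (by positivity)
      exact_mod_cast le_max_left _ _
    linarith

omit hW in
theorem one_div_le_ε {p : ℕ} (h : G.E ≤ p) : (1 : ℝ) / p ≤ G.C.ε := by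
  rw [G.hεC]
  apply one_div_le_one_div_of_le
  · exact_mod_cast G.hE
  · exact_mod_cast h

/-- An uncut cell is a top cell. -/
theorem cell_top {a l : ℝ} (ha : 0 < a) (hl : 0 ≤ l) (h : l * W (G.κ a) ≤ a) :
    G.cell a l ha hl = G.strip.tp (G.col a) := by
  apply Subtype.ext
  change (G.col a, if G.col a = 0 then 0 else G.row a l) = (G.col a, G.nr (G.col a))
  by_cases h0 : G.col a = 0
  · rw [if_pos h0]; simp [nr, h0]
  · rw [if_neg h0]
    have hk := G.col_κ h0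
    have h1 : G.s.κ0 ≤ G.κ a := by have := G.s.hkst; omega
    have h2 : l * (G.s.nn (G.κ a) * G.un (G.κ a)) ≤ a :=
      (mul_le_mul_of_nonneg_left (lo_un hW h1) hl).trans h
    rw [G.row_top ha h2]
    simp [nr, h0, hk]

/-- Estimate D for cells. -/
theorem estD {au lu av lv : ℝ} (hau : 0 < au) (hlu : 0 ≤ lu) (hlu1 : lu ≤ 1)
    (hav : 0 < av) (hlv : 0 ≤ lv) (hlv1 : lv ≤ 1) (hκ : G.κ au + 2 ≤ G.κ av)
    (hk : G.s.kst ≤ G.κ av) :
    ∃ p : ℕ, 1 ≤ p ∧ G.C.A0 ≤ av ∧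
      G.om av lv ≤ sur ψ c G.C.p1 au lu (G.Gg W au lu) av lv (G.Gg W av lv) p := by
  have hΛ := G.Λpos
  have hΛ2 := G.Λ2
  have hkst := G.s.hkst
  have hκ0 := G.s.hκ0
  have hav' := G.pow_le (a := av) (by omega)
  have hau' := G.lt_pow au
  have hp1 := G.C.p1pos
  have hr : G.C.Λ * au ≤ av := by
    rw [G.hΛC]
    calc (G.Λ : ℝ) * au ≤ G.Λ * G.Λ ^ (G.κ au + 1) := by gcongr
      _ = (G.Λ : ℝ) ^ (G.κ au + 2) := by ring
      _ ≤ (G.Λ : ℝ) ^ (G.κ av) := pow_le_pow_right₀ (by linarith) hκ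
      _ ≤ av := hav'
  have hA : G.C.A0 ≤ av :=
    G.hA.trans ((pow_le_pow_right₀ (by linarith) (by omega)).trans hav')
  have hauv : au ≤ av := by
    have h1 : 1 * au ≤ G.C.Λ * au := by
      rw [G.hΛC]; gcongr; linarith
    linarith
  have hlev : G.Gg W au lu = 0 ∨ ∃ p : ℕ, 1 ≤ p ∧ G.Gg W au lu ≤ p * au ∧ au / p ≤ G.C.ε * av ∧
      c p ≤ G.C.ε * av := by
    by_cases h0 : G.s.κ0 ≤ G.κ au
    · right
      obtain ⟨p, hp, hEp, h1, h2⟩ := std hW hau hlu h0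
      refine ⟨p, hp, h1, ?_, ?_⟩
      · have h3 := mul_le_mul_of_nonneg_right (one_div_le_ε hEp) hau.le
        have h4 : G.C.ε * au ≤ G.C.ε * av := by
          apply mul_le_mul_of_nonneg_left hauv G.C.hε0.le
        calc au / p = 1 / (p : ℝ) * au := by ring
          _ ≤ _ := h3.trans h4
      · refine h2.trans (mul_le_mul_of_nonneg_left ?_ G.C.hε0.le)
        exact (pow_le_pow_right₀ (by linarith) (by omega)).trans hav'
    · left
      have h1 := Gg_le (G := G) (W := W) hau hlu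
      have h2 := Gg_nonneg (G := G) (W := W) hau hlu
      rw [hW.zero _ (by omega)] at h1
      push_cast at h1
      linarith
  have hcase : av ≤ lv * G.Gg W av lv ∨ (G.Gg W au lu ≤ G.Gg W av lv ∧ lv * G.C.p1 ≤ 1) := by
    rcases gg_dich (a := av) (l := lv) (W := (W (G.κ av) : ℝ)) hav with ⟨h1, h2⟩ | ⟨-, h2⟩
    · right
      constructor
      · have h3 : (W (G.κ au) : ℝ) ≤ W (G.κ av) := by exact_mod_cast hW.mono (by omega)
        have h4 := Gg_le (G := G) (W := W) hau hlu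
        change G.Gg W av lv = _ at h1
        rw [h1]
        linarith
      · have h3 := lo_p1 hW (κ := G.κ av) (by omega)
        have h4 := G.lt_pow av
        have h5 : (G.C.p1 : ℝ) * av ≤ W (G.κ av) := by
          refine le_trans ?_ h3
          gcongr
        have h6 : lv * (G.C.p1 * av) ≤ 1 * av := by
          rw [one_mul]
          exact (mul_le_mul_of_nonneg_left h5 hlv).trans h2
        rw [← mul_assoc] at h6
        exact le_of_mul_le_mul_right h6 hav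
    · left
      exact h2.symm.le
  obtain ⟨p, hp, h1, h2⟩ := G.C.pairD hau hlu hlu1 hav hlv hlv1 hr hA (mul_gg_le hau) hlev hcase
  refine ⟨p, hp, hA, ?_⟩
  unfold om
  split_ifs with h
  · exact h2 h
  · exact h1

/-- Estimate U for cells. -/
theorem estU {au lu av lv : ℝ} (hau : 0 < au) (hlu : 0 ≤ lu) (hlu1 : lu ≤ 1)
    (hav : 0 < av) (hlv : 0 ≤ lv) (hlv1 : lv ≤ 1) (hκ : G.κ av + 2 ≤ G.κ au)
    (hk : G.s.kst ≤ G.κ au)
    (hgood : G.cell au lu hau hlu = G.strip.tp (G.col au) →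
      G.cell av lv hav hlv = G.strip.tp (G.col av) →
      ∃ t, G.κ av < t ∧ t ≤ G.κ au ∧ Good ψ G.E G.Λ W t) :
    ∃ p : ℕ, 1 ≤ p ∧ G.C.A0 / (16 * G.C.p1) + G.C.q0 * av ≤
      sur ψ c G.C.p1 au lu (G.Gg W au lu) av lv (G.Gg W av lv) p := by
  have hΛ := G.Λpos
  have hΛ2 := G.Λ2
  have hkst := G.s.hkst
  have hκ0 := G.s.hκ0
  have hau' := G.pow_le (a := au) (by omega)
  have hav' := G.lt_pow av
  have hp1 := G.C.p1pos
  have hq0 := G.C.hq0
  have hr : G.C.Λ * av ≤ au := by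
    rw [G.hΛC]
    calc (G.Λ : ℝ) * av ≤ G.Λ * G.Λ ^ (G.κ av + 1) := by gcongr
      _ = (G.Λ : ℝ) ^ (G.κ av + 2) := by ring
      _ ≤ (G.Λ : ℝ) ^ (G.κ au) := pow_le_pow_right₀ (by linarith) hκ
      _ ≤ au := hau'
  have hA : G.C.A0 ≤ au :=
    G.hA.trans ((pow_le_pow_right₀ (by linarith) (by omega)).trans hau')
  -- the level from `x`
  have hx : ∀ x : ℕ, G.Gg W au lu ≤ x * (G.Λ : ℝ) ^ (G.κ au) →
      (RR ψ G.E x ≤ G.Λ ^ (G.κ au - G.κ av - 1)) →
      ∃ p : ℕ, 1 ≤ p ∧ G.Gg W au lu ≤ p * au ∧ 1 / p ≤ G.C.ε ∧ c p ≤ G.C.ε * au ∧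
      (av ≤ lv * G.Gg W av lv ∨ ψ p * av ≤ G.C.ε * au) := by
    intro x hx1 hx2
    have hx3 : G.Gg W au lu ≤ (min x (G.s.ρ2 (G.s.nn (G.κ au))) : ℕ) * (G.Λ : ℝ) ^ (G.κ au) := by
      rcases le_total x (G.s.ρ2 (G.s.nn (G.κ au))) with h | h
      · rw [min_eq_left h]; exact hx1
      · rw [min_eq_right h]
        refine (Gg_le (G := G) (W := W) hau hlu).trans ?_
        exact_mod_cast hW.hi (G.κ au)
    set x' := min x (G.s.ρ2 (G.s.nn (G.κ au))) with hx'
    have hx4 : RR ψ G.E x' ≤ G.Λ ^ (G.κ au - G.κ av - 1) :=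
      (RR_mono G.C.ψmono G.E (min_le_left _ _)).trans hx2
    refine ⟨max x' G.E, G.hE.trans (le_max_right _ _), ?_, one_div_le_ε (le_max_right _ _), ?_,
      Or.inr ?_⟩
    · refine hx3.trans ?_
      apply mul_le_mul _ hau' (pow_nonneg G.Λpos.le _) (by positivity)
      exact_mod_cast le_max_left _ _
    · have h1 : c (max x' G.E) ≤ c (max (G.s.ρ2 (G.s.nn (G.κ au))) G.E) :=
        G.cmono (max_le_max_right _ (min_le_right _ _))
      refine h1.trans ((G.hlev _ (by omega)).trans ?_)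
      exact mul_le_mul_of_nonneg_left hau' G.C.hε0.le
    · unfold RR at hx4
      have h1 : (G.E : ℝ) * ψ (max x' G.E) ≤ (G.Λ : ℝ) ^ (G.κ au - G.κ av - 1) := by
        exact_mod_cast hx4
      have hE : (0 : ℝ) < G.E := by exact_mod_cast G.hE
      rw [G.hεC, one_div, inv_mul_eq_div, le_div_iff₀ hE]
      calc (ψ (max x' G.E) : ℝ) * av * G.E = (G.E * ψ (max x' G.E)) * av := by ring
        _ ≤ (G.Λ : ℝ) ^ (G.κ au - G.κ av - 1) * G.Λ ^ (G.κ av + 1) := by gcongr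
        _ = (G.Λ : ℝ) ^ (G.κ au) := by rw [← pow_add]; congr 1; omega
        _ ≤ au := hau'
  have hlev : (∃ p : ℕ, 1 ≤ p ∧ G.Gg W au lu ≤ p * au ∧ 1 / p ≤ G.C.ε ∧ c p ≤ G.C.ε * au ∧
      (av ≤ lv * G.Gg W av lv ∨ ψ p * av ≤ G.C.ε * au)) ∨ G.Gg W au lu ≤ G.Gg W av lv := by
    rcases gg_dich (a := av) (l := lv) (W := (W (G.κ av) : ℝ)) hav with ⟨h1, h2⟩ | ⟨-, h2⟩
    · change G.Gg W av lv = _ at h1
      have hvt := cell_top hW hav hlv h2
      by_cases hut : G.cell au lu hau hlu = G.strip.tp (G.col au)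
      · obtain ⟨t, ht1, ht2, hg⟩ := hgood hut hvt
        rcases hg _ _ ht1 ht2 with h | ⟨x, hx1, hx2⟩
        · right
          rw [h1]
          refine (Gg_le (G := G) (W := W) hau hlu).trans ?_
          exact_mod_cast h
        · left
          refine hx x ((Gg_le (G := G) (W := W) hau hlu).trans ?_) hx2
          exact_mod_cast hx1
      · -- `u` is not a top cell
        have hcu : G.col au ≠ 0 := by unfold col; omega
        have hku := G.col_κ hcu
        have hrow : G.row au lu < G.s.nn (G.κ au) := by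
          rcases (G.row_le hau hlu).lt_or_eq with h | h
          · exact h
          · exfalso
            apply hut
            apply Subtype.ext
            change (G.col au, if G.col au = 0 then 0 else G.row au lu) =
              (G.col au, G.nr (G.col au))
            rw [if_neg hcu, h]
            simp [nr, hcu, hku]
        have h3 := G.row_hi hau hlu hrow
        have hun := G.un_pos (G.κ au)
        have h4 : ((G.row au lu : ℝ) + 1 / 2) * G.un (G.κ au) ≤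
            G.s.nn (G.κ au) * G.un (G.κ au) := by
          apply mul_le_mul_of_nonneg_right _ hun.le
          have : ((G.row au lu + 1 : ℕ) : ℝ) ≤ G.s.nn (G.κ au) := by exact_mod_cast hrow
          push_cast at this
          linarith
        have hG : G.Gg W au lu ≤ ((G.s.nn (G.κ au) * G.η : ℕ) : ℝ) * (G.Λ : ℝ) ^ (G.κ au) := by
          have h5 : lu * G.Gg W au lu ≤ au := mul_gg_le hau
          have h6 : lu * G.Gg W au lu < lu * (G.s.nn (G.κ au) * G.un (G.κ au)) := by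
            have := mul_le_mul_of_nonneg_left h4 hlu
            linarith
          have h7 := lt_of_mul_lt_mul_left h6 hlu
          refine h7.le.trans (le_of_eq ?_)
          unfold un
          push_cast
          ring
        by_cases hv0 : G.κ av < G.s.κ0
        · left
          exact hx _ hG (G.s.jump0 _ _ hv0 hk)
        · push Not at hv0
          by_cases hj : G.s.nn (G.κ av) + 2 ≤ G.s.nn (G.κ au)
          · left
            exact hx _ hG (G.s.jump _ _ hj)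
          · push Not at hj
            set m := G.s.nn (G.κ av) with hm
            by_cases hR : RR ψ G.E ((m + 1) * G.η) ≤ G.Λ ^ (G.κ au - G.κ av - 1)
            · left
              refine hx _ hG ((RR_mono G.C.ψmono G.E ?_).trans hR)
              exact Nat.mul_le_mul_right _ (by omega)
            · right
              push Not at hR
              rw [h1]
              refine hG.trans ?_
              have h8 := hW.lo _ hv0
              have h9 := G.s.ρ0ge' m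
              have h10 : G.s.nn (G.κ au) * G.η * G.Λ ^ (G.κ au) ≤ W (G.κ av) := by
                refine le_trans ?_ h8
                have e : G.Λ ^ (G.κ au) = G.Λ * G.Λ ^ (G.κ au - G.κ av - 1) * G.Λ ^ (G.κ av) := by
                  rw [← pow_succ', ← pow_add]; congr 1; omega
                rw [e, ← mul_assoc]
                apply Nat.mul_le_mul_right
                refine le_trans ?_ h9
                rw [← mul_assoc]
                apply Nat.mul_le_mul _ hR.le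
                gcongr
                omega
              exact_mod_cast h10
    · left
      obtain ⟨p, hp, hEp, h3, h4⟩ := std hW hau hlu (show G.s.κ0 ≤ G.κ au by omega)
      refine ⟨p, hp, h3, one_div_le_ε hEp, ?_, Or.inl h2.symm.le⟩
      exact h4.trans (mul_le_mul_of_nonneg_left hau' G.C.hε0.le)
  obtain ⟨p, hp, h1⟩ := G.C.pairU hau hlu hlu1 hav hlv hlv1 hr hA (mul_gg_le hau)
    (Gg_nonneg (G := G) (W := W) hav hlv) hlev
  refine ⟨p, hp, le_trans ?_ h1⟩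
  have e1 : 1 / (8 * (G.C.p1 : ℝ)) * au = au / (16 * G.C.p1) + au / (16 * G.C.p1) := by
    field_simp; norm_num
  rw [e1]
  have e2 : G.C.A0 / (16 * G.C.p1) ≤ au / (16 * G.C.p1) := by gcongr
  have e3 : G.C.q0 * av ≤ au / (16 * G.C.p1) := by
    rw [le_div_iff₀ (by positivity)]
    have h5 := G.hΛq
    rw [G.hΛC] at hr
    calc G.C.q0 * av * (16 * G.C.p1) = 16 * G.C.p1 * G.C.q0 * av := by ring
      _ ≤ G.Λ * av := by gcongr
      _ ≤ au := hr
  linarith

/-- Facts about neighbouring columns. -/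
theorem abv_gap {au lu av lv : ℝ} (hau : 0 < au) (hlu : 0 ≤ lu)
    (hav : 0 < av) (hlv : 0 ≤ lv) (h : G.Abv au lu av lv) :
    ∃ m : ℝ, au ≤ m ∧ av ≤ m ∧ G.C.A0 ≤ m ∧ av ≤ lv * G.Gg W av lv ∧
      G.C.K2 * m ≤ G.Gg W au lu - G.Gg W av lv := by
  obtain ⟨h1, h2, h3, h4, x, y, hx1, hx2, hy1, hy2, hxy⟩ := h
  have hΛ := G.Λpos
  have hΛ2 := G.Λ2
  have hkst := G.s.hkst
  have hκ0 := G.s.hκ0
  set k := min (G.κ au) (G.κ av) with hk
  have hGu : x ≤ G.Gg W au lu := by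
    apply le_gg hau hlu (hx2.trans (lo_un hW (by omega))) hx1
  have hy3 : y ≤ W (G.κ av) := hy2.trans (lo_un hW (by omega))
  rcases gg_dich (a := av) (l := lv) (W := (W (G.κ av) : ℝ)) hav with ⟨-, h5⟩ | ⟨-, h5⟩
  · exfalso
    have := mul_le_mul_of_nonneg_left hy3 hlv
    linarith
  · change lv * G.Gg W av lv = av at h5
    have hGv : G.Gg W av lv ≤ y := by
      rw [← h5] at hy1
      exact (lt_of_mul_lt_mul_left hy1 hlv).le
    refine ⟨(G.Λ : ℝ) ^ (k + 2), ?_, ?_, ?_, h5.symm.le, ?_⟩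
    · exact (G.lt_pow au).le.trans (pow_le_pow_right₀ (by linarith) (by omega))
    · exact (G.lt_pow av).le.trans (pow_le_pow_right₀ (by linarith) (by omega))
    · exact G.hA.trans (pow_le_pow_right₀ (by linarith) (by omega))
    · have h6 : G.C.K2 * (G.Λ : ℝ) ^ (k + 2) ≤ G.un k / 2 := by
        unfold un
        have h7 := mul_le_mul_of_nonneg_right G.hη (pow_nonneg hΛ.le k)
        have e : (G.Λ : ℝ) ^ (k + 2) = (G.Λ : ℝ) ^ 2 * (G.Λ : ℝ) ^ k := by ring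
        rw [e]
        linarith
      linarith

/-- All opposite pairs. -/
theorem opp {au lu av lv : ℝ} (hau : 0 < au) (hlu : 0 ≤ lu) (hlu1 : lu ≤ 1)
    (hav : 0 < av) (hlv : 0 ≤ lv) (hlv1 : lv ≤ 1)
    (hne : G.cell au lu hau hlu ≠ G.cell av lv hav hlv)
    (hadj : ¬ G.strip.Γ.Adj (G.cell au lu hau hlu) (G.cell av lv hav hlv))
    (hgood : G.col av < G.col au → G.cell au lu hau hlu = G.strip.tp (G.col au) →
      G.cell av lv hav hlv = G.strip.tp (G.col av) →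
      ∃ t, G.κ av < t ∧ t ≤ G.κ au ∧ Good ψ G.E G.Λ W t) :
    ∃ p : ℕ, 1 ≤ p ∧
      ((G.C.A0 ≤ av ∧
        G.om av lv ≤ sur ψ c G.C.p1 au lu (G.Gg W au lu) av lv (G.Gg W av lv) p) ∨
       G.C.A0 / (16 * G.C.p1) + G.C.q0 * av ≤
        sur ψ c G.C.p1 au lu (G.Gg W au lu) av lv (G.Gg W av lv) p) := by
  have hp1 := G.C.p1pos
  have hq0 := G.C.hq0
  have hfin : ∀ m : ℝ, av ≤ m → G.C.A0 ≤ m →
      G.C.A0 / (16 * G.C.p1) + G.C.q0 * av ≤ (G.C.q0 + 1) * m := by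
    intro m h1 h2
    have h3 : G.C.A0 / (16 * G.C.p1) ≤ G.C.A0 := by
      apply div_le_self G.C.hA0.le; linarith
    have h4 : G.C.q0 * av ≤ G.C.q0 * m := by gcongr
    linarith
  rcases G.far_or_abv hau hlu hav hlv hne hadj with ⟨h1, h2⟩ | ⟨h1, h2⟩ | h | h
  · have hk : G.s.kst ≤ G.κ au := by unfold col at h2; omega
    obtain ⟨p, hp, h3⟩ := estU hW hau hlu hlu1 hav hlv hlv1 h1 hk (hgood (by omega))
    exact ⟨p, hp, Or.inr h3⟩
  · have hk : G.s.kst ≤ G.κ av := by unfold col at h2; omega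
    obtain ⟨p, hp, h3⟩ := estD hW hau hlu hlu1 hav hlv hlv1 h1 hk
    exact ⟨p, hp, Or.inl h3⟩
  · obtain ⟨m, hm1, hm2, hm3, hm4, hm5⟩ := abv_gap hW hau hlu hav hlv h
    obtain ⟨p, hp, hEp, h3, h4⟩ := std hW hau hlu
      (show G.s.κ0 ≤ G.κ au by have := h.1; have := G.s.hkst; omega)
    have h5 : ∃ p : ℕ, 1 ≤ p ∧ G.Gg W au lu ≤ p * au ∧ 1 / p ≤ G.C.ε ∧ c p ≤ G.C.ε * au := by
      refine ⟨p, hp, h3, one_div_le_ε hEp, h4.trans ?_⟩
      apply mul_le_mul_of_nonneg_left _ G.C.hε0.le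
      exact G.pow_le (by have := h.1; have := G.s.hkst; omega)
    obtain ⟨q, hq, h6⟩ := G.C.pairN1 hau hlu hav hlv hlv1 hm1 (mul_gg_le hau) h5 hm4 hm5
    exact ⟨q, hq, Or.inr ((hfin m hm2 hm3).trans h6)⟩
  · obtain ⟨m, hm1, hm2, hm3, hm4, hm5⟩ := abv_gap hW hav hlv hau hlu h
    have h6 := G.C.pairN2 (au := av) (lu := lv) (Gu := G.Gg W av lv) (av := au) (lv := lu)
      (Gv := G.Gg W au lu) hav hlv hlv1 hau hlu hlu1 hm1 hm2 hm3 hm5
    exact ⟨1, le_rfl, Or.inr ((hfin m hm1 hm3).trans h6)⟩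

end Geo

end QEP
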