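import Pool.Agent.Work.MP_e35540_an.CoreC
import Pool.Agent.Work.MP_e35540_an.CoreF

/-! MP_e35540_an: the counting inequality. -/

open Filter Topology

namespace QEP

namespace Geo

variable {ψ : ℕ → ℕ} {c : ℕ → ℝ} (G : Geo ψ c)

theorem tp_inj {k k' : ℕ} (h : G.strip.tp k = G.strip.tp k') : k = k' := by
  have := congrArg (fun v : G.strip.V => v.1.1) h
  exact this

/-- A cut-off function adapted to `P`. -/
theorem exists_W (P : Set G.strip.V) (hP : P.Finite) (hTI : G.strip.TI P) :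
    ∃ W, G.Cut W ∧ ∀ {au lu av lv : ℝ} (hau : 0 < au) (hlu : 0 ≤ lu) (hav : 0 < av) (hlv : 0 ≤ lv),
      ((G.cell au lu hau hlu ∈ P ∧ G.cell av lv hav hlv ∉ P) ∨
        (G.cell au lu hau hlu ∉ P ∧ G.cell av lv hav hlv ∈ P)) →
      G.col av < G.col au → G.cell au lu hau hlu = G.strip.tp (G.col au) →
      G.cell av lv hav hlv = G.strip.tp (G.col av) →
      ∃ t, G.κ av < t ∧ t ≤ G.κ au ∧ Good ψ G.E G.Λ W t := by
  classical
  set Q : Set ℕ := {k | G.strip.tp k ∈ P} with hQ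
  have hQfin : Q.Finite := Set.Finite.preimage (fun x _ y _ h => G.tp_inj h) hP
  by_cases hne : Q.Nonempty
  · -- extreme columns
    have hneF : hQfin.toFinset.Nonempty := by
      rwa [Set.Finite.toFinset_nonempty]
    set k1 := hQfin.toFinset.min' hneF with hk1
    set k2 := hQfin.toFinset.max' hneF with hk2
    have hk1Q : k1 ∈ Q := by
      have := Finset.min'_mem _ hneF
      rwa [Set.Finite.mem_toFinset] at this
    have hk2Q : k2 ∈ Q := by
      have := Finset.max'_mem _ hneF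
      rwa [Set.Finite.mem_toFinset] at this
    have hlo : ∀ k ∈ Q, k1 ≤ k := fun k hk =>
      Finset.min'_le _ _ (by rwa [Set.Finite.mem_toFinset])
    have hhi : ∀ k ∈ Q, k ≤ k2 := fun k hk =>
      Finset.le_max' _ _ (by rwa [Set.Finite.mem_toFinset])
    have hmem : ∀ k, k1 ≤ k → k ≤ k2 → k ∈ Q := fun k h1 h2 => hTI k1 k k2 h1 h2 hk1Q hk2Q
    have h12 : k1 ≤ k2 := hlo _ hk2Q
    obtain ⟨W, hW1, hW2, hW3, hW4, hW5, hW6⟩ :=
      G.s.W (G.s.kst + (k1 - 1)) (G.s.kst + k2) (by omega) (by omega)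
    refine ⟨W, ⟨hW1, hW2, hW3, hW4⟩, ?_⟩
    intro au lu av lv hau hlu hav hlv hop hcol hu hv
    rw [hu, hv] at hop
    rcases hop with ⟨h1, h2⟩ | ⟨h1, h2⟩
    · change G.col au ∈ Q at h1
      change G.col av ∉ Q at h2
      have h3 := hlo _ h1
      have h4 := hhi _ h1
      have h5 : G.col av < k1 := by
        by_contra h
        push Not at h
        exact h2 (hmem _ h (by omega))
      refine ⟨G.s.kst + (k1 - 1), ?_, ?_, hW5⟩
      · unfold col at h5; omega
      · unfold col at h3 h5; omega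
    · change G.col au ∉ Q at h1
      change G.col av ∈ Q at h2
      have h3 := hlo _ h2
      have h4 := hhi _ h2
      have h5 : k2 < G.col au := by
        by_contra h
        push Not at h
        exact h1 (hmem _ (by omega) h)
      refine ⟨G.s.kst + k2, ?_, ?_, hW6⟩
      · unfold col at h4; omega
      · unfold col at h5; omega
  · obtain ⟨W, hW1, hW2, hW3, hW4, hW5, hW6⟩ := G.s.W G.s.kst G.s.kst le_rfl le_rfl
    refine ⟨W, ⟨hW1, hW2, hW3, hW4⟩, ?_⟩
    intro au lu av lv hau hlu hav hlv hop hcol hu hv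
    exfalso
    apply hne
    rw [hu, hv] at hop
    rcases hop with ⟨h1, h2⟩ | ⟨h1, h2⟩
    · exact ⟨_, h1⟩
    · exact ⟨_, h2⟩

/-- The weights. -/
noncomputable def wt (a l : ℝ) : ℝ :=
  Real.exp (-(G.C.A0 / (16 * G.C.p1))) * (2 * Real.exp (-(G.C.q0 * a)) +
    if l * G.C.p1 ≤ 1 then 0 else Real.exp (-(a / (16 * (ψ 1 : ℝ)))))

theorem wt_nonneg (a l : ℝ) : 0 ≤ G.wt a l := by
  unfold wt
  split_ifs <;> positivity

theorem exp_le_wt {a l σ : ℝ} (ha : 0 < a)
    (h : (G.C.A0 ≤ a ∧ G.om a l ≤ σ) ∨ G.C.A0 / (16 * G.C.p1) + G.C.q0 * a ≤ σ) :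
    Real.exp (-σ) ≤ G.wt a l := by
  have hp1 := G.C.p1pos
  have hs := G.C.s1
  have hq0 := G.C.hq0
  have hA0 := G.C.hA0
  rcases h with ⟨h1, h2⟩ | h
  · unfold om at h2
    unfold wt
    split_ifs at h2 ⊢ with hl
    · calc Real.exp (-σ) ≤ Real.exp (-(G.C.A0 / (16 * G.C.p1)) + -(G.C.q0 * a)) := by
            apply Real.exp_le_exp.2
            have h3 : G.C.A0 / (16 * G.C.p1) ≤ G.C.A0 := by
              apply div_le_self hA0.le; linarith
            linarith
        _ = Real.exp (-(G.C.A0 / (16 * G.C.p1))) * Real.exp (-(G.C.q0 * a)) := Real.exp_add _ _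
        _ ≤ _ := by
            apply mul_le_mul_of_nonneg_left _ (Real.exp_pos _).le
            have := Real.exp_pos (-(G.C.q0 * a))
            linarith
    · calc Real.exp (-σ) ≤
            Real.exp (-(G.C.A0 / (16 * G.C.p1)) + -(a / (16 * (ψ 1 : ℝ)))) := by
            apply Real.exp_le_exp.2
            have h3 : G.C.A0 / (16 * G.C.p1) ≤ a / (16 * (ψ 1 : ℝ)) := by
              have h4 : (ψ 1 : ℝ) ≤ G.C.p1 := by have := G.C.hp1; linarith
              gcongr
            have h5 : 1 / (8 * (ψ 1 : ℝ)) * a = a / (16 * (ψ 1 : ℝ)) + a / (16 * (ψ 1 : ℝ)) := by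
              field_simp; norm_num
            linarith
        _ = Real.exp (-(G.C.A0 / (16 * G.C.p1))) * Real.exp (-(a / (16 * (ψ 1 : ℝ)))) :=
            Real.exp_add _ _
        _ ≤ _ := by
            apply mul_le_mul_of_nonneg_left _ (Real.exp_pos _).le
            have := Real.exp_pos (-(G.C.q0 * a))
            linarith
  · unfold wt
    calc Real.exp (-σ) ≤ Real.exp (-(G.C.A0 / (16 * G.C.p1)) + -(G.C.q0 * a)) := by
            apply Real.exp_le_exp.2
            linarith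
        _ = Real.exp (-(G.C.A0 / (16 * G.C.p1))) * Real.exp (-(G.C.q0 * a)) := Real.exp_add _ _
        _ ≤ _ := by
            apply mul_le_mul_of_nonneg_left _ (Real.exp_pos _).le
            have := Real.exp_pos (-(G.C.q0 * a))
            split_ifs
            · linarith
            · have := Real.exp_pos (-(a / (16 * (ψ 1 : ℝ))))
              linarith

/-- The bound of an opposite entry. -/
theorem entry {W : ℕ → ℕ} (hW : G.Cut W) {au lu av lv b : ℝ}
    (hau : 0 < au) (hlu : 0 ≤ lu) (hlu1 : lu ≤ 1)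
    (hav : 0 < av) (hlv : 0 ≤ lv) (hlv1 : lv ≤ 1)
    (hne : G.cell au lu hau hlu ≠ G.cell av lv hav hlv)
    (hadj : ¬ G.strip.Γ.Adj (G.cell au lu hau hlu) (G.cell av lv hav hlv))
    (hgood : G.col av < G.col au → G.cell au lu hau hlu = G.strip.tp (G.col au) →
      G.cell av lv hav hlv = G.strip.tp (G.col av) →
      ∃ t, G.κ av < t ∧ t ≤ G.κ au ∧ Good ψ G.E G.Λ W t)
    (hb : ∀ p, 1 ≤ p → b ≤ Real.exp (c p + hh av lv (ψ p) - hh au lu p)) :
    b * Real.exp (pot G.C.p1 au lu (G.Gg W au lu) - pot G.C.p1 av lv (G.Gg W av lv)) ≤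
      G.wt av lv := by
  obtain ⟨p, hp, h⟩ := opp hW hau hlu hlu1 hav hlv hlv1 hne hadj hgood
  refine le_trans ?_ (G.exp_le_wt hav h)
  calc _ ≤ Real.exp (c p + hh av lv (ψ p) - hh au lu p) *
        Real.exp (pot G.C.p1 au lu (G.Gg W au lu) - pot G.C.p1 av lv (G.Gg W av lv)) :=
        mul_le_mul_of_nonneg_right (hb p hp) (Real.exp_pos _).le
    _ = _ := by
      rw [← Real.exp_add]
      congr 1
      unfold sur
      ring

/-- The cell of a member of a family. -/
noncomputable def cl (A : Fam) (i : ℕ) : G.strip.V := G.cell (A.a i) (A.l i) (A.apos i) (A.l0 i)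

end Geo

/-- The counting inequality. -/
theorem count (A B : Fam) (L : Link A B) (G : Geo L.ψ L.c)
    (hAs : Summable fun i => G.wt (A.a i) (A.l i)) (hA : ∑' i, G.wt (A.a i) (A.l i) ≤ 1 / 2)
    (hBs : Summable fun i => G.wt (B.a i) (B.l i)) (hB : ∑' i, G.wt (B.a i) (B.l i) ≤ 1 / 2)
    (P : Set G.strip.V) (hP : P.Finite) (hTI : G.strip.TI P) (F F' : Finset ℕ)
    (hF : ∀ i, i ∈ F → G.cl A i ∈ Inn G.strip.Γ P) (hF' : ∀ j, G.cl B j ∈ P → j ∈ F') :
    F.card ≤ F'.card := by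
  obtain ⟨W, hW, hgood⟩ := G.exists_W P hP hTI
  refine rank_lemma L.S L.T F F'
    (fun i => pot G.C.p1 (A.a i) (A.l i) (G.Gg W (A.a i) (A.l i)))
    (fun j => pot G.C.p1 (B.a j) (B.l j) (G.Gg W (B.a j) (B.l j)))
    (fun j => G.wt (B.a j) (B.l j)) (fun i => G.wt (A.a i) (A.l i))
    (fun i _ i' _ => L.hST i i') (fun j => G.wt_nonneg _ _) hBs hB (fun j => G.wt_nonneg _ _) hAs hA
    ?_ ?_
  · intro i hi j hj
    have h1 := hF i hi
    have h2 : G.cl B j ∉ P := fun h => hj (hF' j h)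
    have h3 : G.cl A i ≠ G.cl B j := fun h => h2 (h ▸ h1.1)
    have h4 : ¬ G.strip.Γ.Adj (G.cl A i) (G.cl B j) := fun h => h2 (h1.2 _ h)
    exact G.entry hW (A.apos i) (A.l0 i) (A.l1 i) (B.apos j) (B.l0 j) (B.l1 j) h3 h4
      (hgood _ _ _ _ (Or.inl ⟨h1.1, h2⟩)) (fun p hp => L.hS p hp i j)
  · intro i hi j hj
    have h1 := hF i hi
    have h2 : G.cl B j ∉ P := fun h => hj (hF' j h)
    have h3 : G.cl B j ≠ G.cl A i := fun h => h2 (h ▸ h1.1)
    have h4 : ¬ G.strip.Γ.Adj (G.cl B j) (G.cl A i) := fun h => h2 (h1.2 _ h.symm)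
    exact G.entry hW (B.apos j) (B.l0 j) (B.l1 j) (A.apos i) (A.l0 i) (A.l1 i) h3 h4
      (hgood _ _ _ _ (Or.inr ⟨h2, h1.1⟩)) (fun p hp => L.hT p hp j i)

/-- The symmetric link. -/
def Link.symm {A B : Fam} (L : Link A B) : Link B A where
  ψ := L.ψ
  c := L.c
  T := L.S
  S := L.T
  hψ := L.hψ
  ψmono := L.ψmono
  c0 := L.c0
  cmono := L.cmono
  hT := L.hS
  hS := L.hT
  hST := L.hTS
  hTS := L.hST

end QEP
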