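import Pool.Agent.Work.MP_e35540_an.CoreG

/-! MP_e35540_an: choice of the constants. -/

open Filter Topology

namespace QEP

theorem Fam.sum1 (A : Fam) : ∃ q : ℕ, ∀ q' : ℕ, q ≤ q' →
    Summable fun i => Real.exp (-((q' : ℝ) * A.a i)) := by
  obtain ⟨q, hq, hs⟩ := A.nuc 1 le_rfl
  refine ⟨q, fun q' hq' => ?_⟩
  refine Summable.of_nonneg_of_le (fun i => (Real.exp_pos _).le) (fun i => ?_) hs
  apply Real.exp_le_exp.2
  rw [hh_one (A.l1 i)]
  have h1 := hh_le (A.apos i) (A.l0 i) q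
  have h2 : (q : ℝ) * A.a i ≤ q' * A.a i :=
    mul_le_mul_of_nonneg_right (by exact_mod_cast hq') (A.apos i).le
  linarith

theorem Fam.sum2 (A : Fam) (p1 s : ℕ) (hp : 1 ≤ p1) (hs : 1 ≤ s) :
    Summable fun i => if A.l i * p1 ≤ 1 then 0 else Real.exp (-(A.a i / (16 * (s : ℝ)))) := by
  set p := max p1 (16 * s) with hpdef
  obtain ⟨q, hq, hsum⟩ := A.nuc p (le_trans hp (le_max_left _ _))
  refine Summable.of_nonneg_of_le (fun i => ?_) (fun i => ?_) hsum
  · split_ifs <;> positivity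
  · split_ifs with h
    · exact (Real.exp_pos _).le
    · push Not at h
      apply Real.exp_le_exp.2
      have hl := A.l0 i
      have hp1 : (p1 : ℝ) ≤ p := by exact_mod_cast le_max_left _ _
      have hpq : (p : ℝ) ≤ q := by exact_mod_cast hq
      have h1 : 1 < A.l i * p := lt_of_lt_of_le h (mul_le_mul_of_nonneg_left hp1 hl)
      have h2 : 1 < A.l i * q := lt_of_lt_of_le h1 (mul_le_mul_of_nonneg_left hpq hl)
      unfold hh mn
      rw [if_neg (by linarith), if_neg (by linarith)]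
      have h3 : (1 : ℝ) / p ≤ 1 / (16 * s) := by
        apply one_div_le_one_div_of_le
        · have : (1 : ℝ) ≤ s := by exact_mod_cast hs
          positivity
        · exact_mod_cast le_max_right _ _
      have h4 := mul_le_mul_of_nonneg_right h3 (A.apos i).le
      have h5 : 0 ≤ 1 / (q : ℝ) * A.a i := mul_nonneg (by positivity) (A.apos i).le
      have h6 : A.a i / (16 * (s : ℝ)) = 1 / (16 * (s : ℝ)) * A.a i := by ring
      rw [h6]
      linarith

theorem exists_geo (A B : Fam) (L : Link A B) : ∃ G : Geo L.ψ L.c,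
    ((Summable fun i => G.wt (A.a i) (A.l i)) ∧ ∑' i, G.wt (A.a i) (A.l i) ≤ 1 / 2) ∧
    ((Summable fun i => G.wt (B.a i) (B.l i)) ∧ ∑' i, G.wt (B.a i) (B.l i) ≤ 1 / 2) := by
  obtain ⟨qa, hqa⟩ := A.sum1
  obtain ⟨qb, hqb⟩ := B.sum1
  set q0 := max qa qb with hq0
  set s := L.ψ 1 with hs
  have hs1 : 1 ≤ s := L.hψ 1
  obtain ⟨p1, hp1⟩ : ∃ p1 : ℕ, p1 = 2 * s + 2 * q0 + 10 := ⟨_, rfl⟩
  have hA1 := hqa q0 (le_max_left _ _)
  have hB1 := hqb q0 (le_max_right _ _)
  have hA2 := A.sum2 p1 s (by omega) hs1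
  have hB2 := B.sum2 p1 s (by omega) hs1
  set fA : ℕ → ℝ := fun i => 2 * Real.exp (-((q0 : ℝ) * A.a i)) +
    if A.l i * p1 ≤ 1 then 0 else Real.exp (-(A.a i / (16 * (s : ℝ)))) with hfA
  set fB : ℕ → ℝ := fun i => 2 * Real.exp (-((q0 : ℝ) * B.a i)) +
    if B.l i * p1 ≤ 1 then 0 else Real.exp (-(B.a i / (16 * (s : ℝ)))) with hfB
  have hfAs : Summable fA := (hA1.mul_left 2).add hA2
  have hfBs : Summable fB := (hB1.mul_left 2).add hB2
  have hp1pos : (0 : ℝ) < p1 := by exact_mod_cast (by omega : 0 < p1)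
  -- the choice of A0
  have hlim : Tendsto (fun x : ℝ => Real.exp (-(x / (16 * (p1 : ℝ)))) *
      (|∑' i, fA i| + |∑' i, fB i|)) atTop (𝓝 (0 * (|∑' i, fA i| + |∑' i, fB i|))) := by
    apply Tendsto.mul_const
    have h1 : Tendsto (fun x : ℝ => x / (16 * (p1 : ℝ))) atTop atTop :=
      tendsto_id.atTop_div_const (by positivity)
    exact Real.tendsto_exp_neg_atTop_nhds_zero.comp h1
  rw [zero_mul] at hlim
  have h1 := hlim.eventually_lt_const (show (0 : ℝ) < 1 / 2 by norm_num)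
  obtain ⟨A0, hA0a, hA0b, hA0c⟩ := (h1.and ((eventually_ge_atTop (64 * p1 * L.c 1)).and
    ((eventually_ge_atTop (64 * p1 * L.c (2 * p1))).and (eventually_gt_atTop 0)))).exists
  obtain ⟨hA0c, hA0d⟩ := hA0c
  obtain ⟨Λ, hΛ⟩ : ∃ Λ : ℕ, Λ = 64 * p1 * (L.ψ (2 * p1) + q0) := ⟨_, rfl⟩
  obtain ⟨k2, hk2⟩ : ∃ k2 : ℕ, k2 = 2 * q0 + 2 * s + p1 + 6 := ⟨_, rfl⟩
  obtain ⟨E, hE⟩ : ∃ E : ℕ, E = 64 * p1 := ⟨_, rfl⟩
  obtain ⟨η, hη⟩ : ∃ η : ℕ, η = 2 * k2 * Λ ^ 2 + p1 := ⟨_, rfl⟩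
  have hψ1 : 1 ≤ L.ψ (2 * p1) := (by omega : 1 ≤ 2 * p1).trans (L.hψ _)
  have hΛ1 : 64 * p1 * 1 ≤ Λ := by rw [hΛ]; exact Nat.mul_le_mul_left _ (by omega)
  let C : Cst L.ψ L.c :=
    { p1 := p1, q0 := q0, ε := 1 / E, Λ := Λ, A0 := A0, K2 := k2
      hψ := L.hψ, ψmono := L.ψmono, hc := L.c0, hq0 := by positivity
      hp1 := by rw [hp1]; push_cast; linarith
      hε0 := by rw [hE]; push_cast; positivity
      hε := by rw [hE]; push_cast; exact le_rfl
      hΛ := by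
        rw [hΛ]; push_cast
        have h4 : (0 : ℝ) ≤ p1 * q0 := by positivity
        rw [mul_add]
        linarith
      hA0 := hA0d
      hA1 := by rw [le_div_iff₀ (by positivity)]; linarith
      hA2 := by rw [le_div_iff₀ (by positivity)]; linarith
      hK2 := by rw [hk2]; push_cast; linarith }
  obtain ⟨sc, hsc⟩ := exists_scale (ψ := L.ψ) (E := E) (Λ := Λ) (η := η) L.ψmono (by omega)
    (fun x => ⌈L.c (max x E) * E⌉₊ + ⌈A0⌉₊)
  have hpow : ∀ κ : ℕ, (κ : ℝ) ≤ (Λ : ℝ) ^ κ := by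
    intro κ
    exact_mod_cast le_pow_self (by omega : 2 ≤ Λ) κ
  have hEpos : (0 : ℝ) < E := by exact_mod_cast (by omega : 0 < E)
  let G : Geo L.ψ L.c :=
    { C := C, cmono := L.cmono, E := E, Λ := Λ, η := η, s := sc
      hE := by omega
      hΛ := by omega
      hΛe := by
        refine ⟨32 * p1 * (L.ψ (2 * p1) + q0), ?_⟩
        rw [hΛ]; ring
      hΛC := rfl
      hΛq := by
        change 16 * (p1 : ℝ) * q0 ≤ (Λ : ℝ)
        rw [hΛ]; push_cast
        have h4 : (0 : ℝ) ≤ p1 * q0 := by positivity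
        have h5 : (0 : ℝ) ≤ p1 * L.ψ (2 * p1) := by positivity
        rw [mul_add]
        linarith
      hεC := rfl
      hη := by
        change 2 * (k2 : ℝ) * (Λ : ℝ) ^ 2 ≤ (η : ℝ)
        rw [hη]; push_cast
        linarith
      hηp := by
        change p1 ≤ η
        omega
      hlev := by
        intro κ hκ
        have h2 := hsc κ hκ
        have h3 : L.c (max (sc.ρ2 (sc.nn κ)) E) * E ≤ κ := by
          refine (Nat.le_ceil _).trans ?_
          exact_mod_cast (Nat.le_add_right _ _).trans h2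
        have h4 := hpow κ
        change L.c (max (sc.ρ2 (sc.nn κ)) E) ≤ 1 / (E : ℝ) * (Λ : ℝ) ^ κ
        rw [one_div, inv_mul_eq_div, le_div_iff₀ hEpos]
        linarith
      hA := by
        have h2 := hsc sc.κ0 le_rfl
        have h3 : A0 ≤ sc.κ0 := by
          refine (Nat.le_ceil _).trans ?_
          exact_mod_cast (Nat.le_add_left _ _).trans h2
        exact h3.trans (hpow _) }
  have eA : (fun i => G.wt (A.a i) (A.l i)) =
      fun i => Real.exp (-(A0 / (16 * (p1 : ℝ)))) * fA i := rfl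
  have eB : (fun i => G.wt (B.a i) (B.l i)) =
      fun i => Real.exp (-(A0 / (16 * (p1 : ℝ)))) * fB i := rfl
  refine ⟨G, ⟨?_, ?_⟩, ⟨?_, ?_⟩⟩
  · rw [eA]; exact hfAs.mul_left _
  · rw [eA, tsum_mul_left]
    refine le_trans ?_ hA0a.le
    apply mul_le_mul_of_nonneg_left _ (Real.exp_pos _).le
    have h2 := le_abs_self (∑' i, fA i)
    have h3 := abs_nonneg (∑' i, fB i)
    linarith
  · rw [eB]; exact hfBs.mul_left _
  · rw [eB, tsum_mul_left]
    refine le_trans ?_ hA0a.le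
    apply mul_le_mul_of_nonneg_left _ (Real.exp_pos _).le
    have h2 := le_abs_self (∑' i, fB i)
    have h3 := abs_nonneg (∑' i, fA i)
    linarith

/-- Finitely many members are bounded. -/
theorem Fam.finite (A : Fam) (R : ℝ) : {i | A.a i ≤ R}.Finite := by
  obtain ⟨q, hq⟩ := A.sum1
  have hs := hq q le_rfl
  have h1 := hs.tendsto_cofinite_zero.eventually_lt_const (Real.exp_pos (-((q : ℝ) * R)))
  rw [Filter.eventually_cofinite] at h1
  refine h1.subset ?_
  intro i hi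
  rw [Set.mem_ofPred_eq] at hi ⊢
  push Not
  apply Real.exp_le_exp.2
  have : (q : ℝ) * A.a i ≤ q * R := mul_le_mul_of_nonneg_left hi (by positivity)
  linarith

end QEP
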