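import Pool.Agent.Work.MP_e35540_an.CoreH

/-! MP_e35540_an: Hall and Schröder-Bernstein. -/

open Filter Topology

namespace QEP

theorem sum_count {V : Type} (f : ℕ → V) (hf : ∀ z, {i | f i = z}.Finite) (P : Set V)
    (hP : P.Finite) : ∃ F : Finset ℕ, (∀ i, i ∈ F ↔ f i ∈ P) ∧
      ∑ᶠ z ∈ P, ({i | f i = z}.ncard) = F.card := by
  classical
  have hfin : {i | f i ∈ P}.Finite := by
    have : {i | f i ∈ P} = ⋃ z ∈ P, {i | f i = z} := by
      ext i; simp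
    rw [this]
    exact hP.biUnion (fun z _ => hf z)
  refine ⟨hfin.toFinset, fun i => by simp, ?_⟩
  rw [finsum_mem_eq_finite_toFinset_sum _ hP]
  rw [Finset.card_eq_sum_card_fiberwise (s := hfin.toFinset) (f := f) (t := hP.toFinset)
    (fun i hi => by simpa using hi)]
  apply Finset.sum_congr rfl
  intro z hz
  rw [Set.ncard_eq_toFinset_card _ (hf z)]
  congr 1
  ext i
  simp only [Set.Finite.mem_toFinset, Set.mem_ofPred_eq, Finset.mem_filter]
  constructor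
  · intro h
    exact ⟨by rw [h]; simpa using hz, h⟩
  · intro h; exact h.2

theorem Strip.finite_le (s : Strip) (K : ℕ) : {w : s.V | w.1.1 ≤ K}.Finite := by
  have h : {v : ℕ × ℕ | v.1 ≤ K ∧ v.2 ≤ s.n v.1}.Finite := by
    have h1 : ((Set.Iic K).image (fun k => (k, s.n k))).Finite := (Set.finite_Iic K).image _
    refine ((Set.finite_Iic K).biUnion
      (fun k _ => (Set.finite_Iic (s.n k)).image (fun r => (k, r)))).subset ?_
    rintro ⟨k, r⟩ ⟨h2, h3⟩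
    simp only [Set.mem_iUnion]
    exact ⟨k, h2, r, h3, rfl⟩
  refine Set.Finite.subset (h.preimage (f := Subtype.val) Subtype.val_injective.injOn) ?_
  intro w hw
  exact ⟨hw, w.2⟩

theorem Strip.Nb_finite (s : Strip) {A : Set s.V} (hA : A.Finite) : (Nb s.Γ A).Finite := by
  obtain ⟨K, hK⟩ : ∃ K, ∀ w ∈ A, w.1.1 ≤ K := by
    obtain ⟨K, hK⟩ := (hA.image (fun w => w.1.1)).bddAbove
    exact ⟨K, fun w hw => hK ⟨w, hw, rfl⟩⟩
  refine (s.finite_le (K + 1)).subset ?_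
  rintro w (h | ⟨y, hy, h⟩)
  · have := hK w h
    change w.1.1 ≤ K + 1
    omega
  · have := hK y hy
    change w.1.1 ≤ K + 1
    rcases h with ⟨h, _⟩ | ⟨h, _⟩ | ⟨h, _⟩
    · omega
    · omega
    · omega

theorem Geo.fib_finite {ψ : ℕ → ℕ} {c : ℕ → ℝ} (G : Geo ψ c) (A : Fam) (z : G.strip.V) :
    {i | G.cl A i = z}.Finite := by
  refine (A.finite ((G.Λ : ℝ) ^ (z.1.1 + G.s.kst + 1))).subset ?_
  intro i hi
  rw [Set.mem_ofPred_eq] at hi ⊢
  have h1 : z.1.1 = G.col (A.a i) := by rw [← hi]; rfl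
  have h2 : G.κ (A.a i) ≤ z.1.1 + G.s.kst := by rw [h1]; unfold Geo.col; omega
  have h3 := G.lt_pow (A.a i)
  have h4 := G.Λ2
  exact h3.le.trans (pow_le_pow_right₀ (by linarith) (by omega))

/-- Distance at most two. -/
def Near {V : Type} (Γ : SimpleGraph V) (z w : V) : Prop :=
  ∃ y, (z = y ∨ Γ.Adj z y) ∧ (y = w ∨ Γ.Adj y w)

theorem Near.symm {V : Type} {Γ : SimpleGraph V} {z w : V} (h : Near Γ z w) : Near Γ w z := by
  obtain ⟨y, h1, h2⟩ := h
  exact ⟨y, h2.imp Eq.symm (fun h => h.symm), h1.imp Eq.symm (fun h => h.symm)⟩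

theorem mem_NbNb {V : Type} {Γ : SimpleGraph V} {A : Set V} {w : V} :
    w ∈ Nb Γ (Nb Γ A) ↔ ∃ z ∈ A, Near Γ z w := by
  constructor
  · rintro (h | ⟨y, h, hy⟩)
    · rcases h with h | ⟨x, h, hx⟩
      · exact ⟨w, h, w, Or.inl rfl, Or.inl rfl⟩
      · exact ⟨x, h, w, Or.inr hx.symm, Or.inl rfl⟩
    · rcases h with h | ⟨x, h, hx⟩
      · exact ⟨y, h, y, Or.inl rfl, Or.inr hy.symm⟩
      · exact ⟨x, h, y, Or.inr hx.symm, Or.inr hy.symm⟩
  · rintro ⟨z, hz, y, h1, h2⟩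
    have h3 : y ∈ Nb Γ A := by
      rcases h1 with h1 | h1
      · subst h1; exact Or.inl hz
      · exact Or.inr ⟨z, hz, h1.symm⟩
    rcases h2 with h2 | h2
    · subst h2; exact Or.inl h3
    · exact Or.inr ⟨y, h3, h2.symm⟩

/-- One direction of Hall. -/
theorem inj_of_strip {s : Strip} (f g : ℕ → s.V) (hf : ∀ z, {i | f i = z}.Finite)
    (hg : ∀ z, {i | g i = z}.Finite)
    (h : ∀ A : Set s.V, A.Finite → ∑ᶠ z ∈ A, ({i | f i = z}.ncard) ≤
      ∑ᶠ z ∈ Nb s.Γ (Nb s.Γ A), ({i | g i = z}.ncard)) :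
    ∃ φ : ℕ → ℕ, Function.Injective φ ∧ ∀ i, Near s.Γ (f i) (g (φ i)) := by
  classical
  have hfin : ∀ i, {j | Near s.Γ (f i) (g j)}.Finite := by
    intro i
    have h1 : (Nb s.Γ (Nb s.Γ {f i})).Finite :=
      s.Nb_finite (s.Nb_finite (Set.finite_singleton _))
    have : {j | Near s.Γ (f i) (g j)} ⊆ ⋃ z ∈ Nb s.Γ (Nb s.Γ {f i}), {j | g j = z} := by
      intro j hj
      simp only [Set.mem_iUnion]
      exact ⟨g j, mem_NbNb.2 ⟨f i, rfl, hj⟩, rfl⟩
    exact (h1.biUnion (fun z _ => hg z)).subset this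
  have key := (Finset.all_card_le_biUnion_card_iff_exists_injective
    (fun i => (hfin i).toFinset)).1 ?_
  · obtain ⟨φ, h1, h2⟩ := key
    exact ⟨φ, h1, fun i => by simpa using h2 i⟩
  · intro S
    set A : Set s.V := f '' S with hA
    have hAf : A.Finite := S.finite_toSet.image f
    have h1 := h A hAf
    obtain ⟨F, hF1, hF2⟩ := sum_count f hf A hAf
    obtain ⟨F', hF1', hF2'⟩ := sum_count g hg _ (s.Nb_finite (s.Nb_finite hAf))
    rw [hF2, hF2'] at h1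
    have h2 : S ⊆ F := fun i hi => (hF1 i).2 ⟨i, hi, rfl⟩
    refine (Finset.card_le_card h2).trans (h1.trans (Finset.card_le_card ?_))
    intro j hj
    obtain ⟨z, ⟨i, hi, rfl⟩, hz⟩ := mem_NbNb.1 ((hF1' j).1 hj)
    rw [Finset.mem_biUnion]
    exact ⟨i, hi, by simpa using hz⟩

/-- The hypothesis of `StripHall`. -/
theorem strip_hyp (A B : Fam) (L : Link A B) (G : Geo L.ψ L.c)
    (hAs : Summable fun i => G.wt (A.a i) (A.l i)) (hA : ∑' i, G.wt (A.a i) (A.l i) ≤ 1 / 2)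
    (hBs : Summable fun i => G.wt (B.a i) (B.l i)) (hB : ∑' i, G.wt (B.a i) (B.l i) ≤ 1 / 2)
    (P : Set G.strip.V) (hP : P.Finite) (hTI : G.strip.TI P) :
    ∑ᶠ z ∈ Inn G.strip.Γ P, ({i | G.cl A i = z}.ncard) ≤
      ∑ᶠ z ∈ P, ({j | G.cl B j = z}.ncard) := by
  obtain ⟨F, hF1, hF2⟩ := sum_count (G.cl A) (G.fib_finite A) (Inn G.strip.Γ P)
    (hP.subset (fun z hz => hz.1))
  obtain ⟨F', hF1', hF2'⟩ := sum_count (G.cl B) (G.fib_finite B) P hP
  rw [hF2, hF2']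
  exact count A B L G hAs hA hBs hB P hP hTI F F' (fun i hi => (hF1 i).1 hi)
    (fun j hj => (hF1' j).2 hj)

/-- The matching. -/
theorem matching (hSH : StripHall) (A B : Fam) (L : Link A B) (G : Geo L.ψ L.c)
    (hAs : Summable fun i => G.wt (A.a i) (A.l i)) (hA : ∑' i, G.wt (A.a i) (A.l i) ≤ 1 / 2)
    (hBs : Summable fun i => G.wt (B.a i) (B.l i)) (hB : ∑' i, G.wt (B.a i) (B.l i) ≤ 1 / 2) :
    ∃ π : Equiv.Perm ℕ, ∀ i, Near G.strip.Γ (G.cl A i) (G.cl B (π i)) := by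
  have h1 := strip_hyp A B L G hAs hA hBs hB
  have h2 := strip_hyp B A L.symm G hBs hB hAs hA
  obtain ⟨f, hf1, hf2⟩ := inj_of_strip (G.cl A) (G.cl B) (G.fib_finite A) (G.fib_finite B)
    (hSH G.strip _ _ h1 h2)
  obtain ⟨g, hg1, hg2⟩ := inj_of_strip (G.cl B) (G.cl A) (G.fib_finite B) (G.fib_finite A)
    (hSH G.strip _ _ h2 h1)
  obtain ⟨h, hb, hR⟩ := Function.Embedding.schroeder_bernstein_of_rel hf1 hg1
    (fun i j => Near G.strip.Γ (G.cl A i) (G.cl B j)) hf2 (fun j => (hg2 j).symm)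
  exact ⟨Equiv.ofBijective h hb, hR⟩

end QEP
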