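import Pool.Agent.Work.MP_e35540_an.CoreI

/-! MP_e35540_an: near cells have comparable exponents. -/

open Filter Topology

namespace QEP

/-- The sandwich estimate. -/
theorem sandwich {a l a' l' R K : ℝ} (ha : 0 < a) (hl : 0 < l) (ha' : 0 < a') (_hl' : 0 < l')
    (h1 : a ≤ R * a') (h2 : a' ≤ R * a) (hR : 0 ≤ R) (hK : 0 ≤ K)
    (h3 : |a / l - a' / l'| ≤ K * a') {p q : ℕ} (hp : 1 ≤ p) (hq : R * p + K + 1 ≤ q) :
    hh a l p ≤ hh a' l' q + (a / l - a' / l') := by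
  have hp' : (1 : ℝ) ≤ p := by exact_mod_cast hp
  have hq1 : (1 : ℝ) ≤ q := by nlinarith
  have hq0 : (0 : ℝ) < q := by linarith
  have hp0 : (0 : ℝ) < p := by linarith
  by_cases hc : l' * q ≤ 1
  · have e1 : hh a' l' q = (q - 1 / q) * a' := hh_eq hc
    have e2 := hh_le ha hl.le p
    have e3 := (abs_le.1 h3).1
    have e4 : (1 : ℝ) / q ≤ 1 := by rw [div_le_one hq0]; exact hq1
    have e5 : (p : ℝ) * a ≤ p * (R * a') := by gcongr
    have e6 : (R * p + K + 1) * a' ≤ q * a' := by gcongr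
    have e7 : 1 / (q : ℝ) * a' ≤ 1 * a' := by gcongr
    rw [e1]
    nlinarith
  · have e1 : hh a' l' q = a' / l' - a' / q := by
      unfold hh mn
      rw [if_neg hc]
      ring
    have e2 : hh a l p ≤ a / l - a / p := by
      unfold hh
      have h4 : mn l p ≤ 1 / l := by
        have := mul_mn_le (l := l) (x := (p : ℝ))
        rw [le_div_iff₀ hl]; linarith
      have h5 := mul_le_mul_of_nonneg_right h4 ha.le
      have h6 : 1 / l * a = a / l := by ring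
      have h7 : 1 / (p : ℝ) * a = a / p := by ring
      rw [sub_mul, h7]
      linarith
    have e3 : a' / q ≤ a / p := by
      rw [div_le_div_iff₀ hq0 hp0]
      have h4 : a' * p ≤ R * a * p := by gcongr
      have h5 : (R * p) * a ≤ q * a := by
        apply mul_le_mul_of_nonneg_right _ ha.le
        linarith
      nlinarith
    rw [e1]
    linarith

/-- The sandwich estimate for high positions. -/
theorem sandwich0 {a l a' l' R : ℝ} (ha : 0 < a) (hl : 0 ≤ l) (ha' : 0 < a')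
    (h1 : a ≤ R * a') {p q : ℕ} (hp : 1 ≤ p) (hR : 0 ≤ R) (hq : R * p + 1 ≤ q)
    (h : l' * q ≤ 1) : hh a l p ≤ hh a' l' q := by
  have hp' : (1 : ℝ) ≤ p := by exact_mod_cast hp
  have hq1 : (1 : ℝ) ≤ q := by nlinarith
  have hq0 : (0 : ℝ) < q := by linarith
  have e1 : hh a' l' q = (q - 1 / q) * a' := hh_eq h
  have e2 := hh_le ha hl p
  have e4 : (1 : ℝ) / q ≤ 1 := by rw [div_le_one hq0]; exact hq1
  have e5 : (p : ℝ) * a ≤ p * (R * a') := by gcongr
  have e6 : (R * p + 1) * a' ≤ q * a' := by gcongr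
  have e7 : 1 / (q : ℝ) * a' ≤ 1 * a' := by gcongr
  rw [e1]
  nlinarith

namespace Geo

variable {ψ : ℕ → ℕ} {c : ℕ → ℝ} (G : Geo ψ c)

/-- The height of a cell. -/
noncomputable def ht (z : G.strip.V) : ℝ := z.1.2 * G.un (G.s.kst + z.1.1 - 1)

theorem un_mono {k k' : ℕ} (h : k ≤ k') : G.un k ≤ G.un k' := by
  unfold un
  have := G.Λ2
  have := G.ηpos
  gcongr
  linarith

theorem nnun_mono {k k' : ℕ} (h : k ≤ k') : G.s.nn k * G.un k ≤ G.s.nn k' * G.un k' := by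
  have h1 := G.un_mono h
  have h2 : (G.s.nn k : ℝ) ≤ G.s.nn k' := by exact_mod_cast G.s.hnn h
  have h3 := G.un_pos k
  gcongr

theorem nr_eq {k : ℕ} (h : 1 ≤ k) : G.nr k = G.s.nn (G.s.kst + k - 1) := by
  unfold nr; rw [if_neg (by omega)]

/-- The step between neighbouring columns. -/
theorem stepH {z y : G.strip.V} (hz : 1 ≤ z.1.1) {m M : ℕ}
    (h1 : m ≤ G.s.kst + z.1.1 - 1) (h4 : G.s.kst + y.1.1 - 1 ≤ M)
    (hc : y.1.1 = z.1.1 + 1) (hH : G.strip.H z.1.1 z.1.2 y.1.2) :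
    |G.ht z - G.ht y| ≤ G.un M ∨
      (G.s.nn m * G.un m ≤ G.ht z ∧ G.s.nn m * G.un m ≤ G.ht y) := by
  obtain ⟨h5, h6, h7⟩ := hH
  rcases h7 with h7 | ⟨h7, h8⟩
  · omega
  have hκ : G.s.kst + y.1.1 - 1 = G.s.kst + z.1.1 - 1 + 1 := by omega
  set k := G.s.kst + z.1.1 - 1 with hk
  have hn : G.nr z.1.1 = G.s.nn k := G.nr_eq hz
  have hn' : G.nr (z.1.1 + 1) = G.s.nn (k + 1) := by rw [G.nr_eq (by omega), ← hc, hκ]
  rw [hn] at h5 h8
  rw [hn'] at h6 h7
  have hU := G.un_pos k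
  have hU' := G.un_succ k
  have hΛ2 := G.Λ2
  have hUM : G.un (k + 1) ≤ G.un M := G.un_mono (by omega)
  have ez : G.ht z = z.1.2 * G.un k := rfl
  have ey : G.ht y = y.1.2 * G.un (k + 1) := by unfold ht; rw [hκ]
  have hUU : G.un k ≤ G.un (k + 1) := G.un_mono (by omega)
  -- first inequality
  have a1 : G.ht z ≤ G.ht y + G.un (k + 1) := by
    rcases h7 with h7 | h7
    · have h9 : G.ht z ≤ G.s.nn k * G.un k := by
        rw [ez]
        apply mul_le_mul_of_nonneg_right _ hU.le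
        exact_mod_cast h5
      have h10 := G.nnun_mono (show k ≤ k + 1 by omega)
      rw [ey, h7]
      linarith
    · have h9 : ((2 * z.1.2 : ℕ) : ℝ) ≤ ((G.Λ * (2 * y.1.2 + 1) + 1 : ℕ) : ℝ) := by
        exact_mod_cast h7.le
      push_cast at h9
      have h10 := mul_le_mul_of_nonneg_right h9 hU.le
      rw [ez, ey, hU']
      rw [hU'] at hUU
      nlinarith
  rcases h8 with h8 | h8
  · by_cases h9 : G.ht y ≤ G.ht z + G.un (k + 1)
    · left
      rw [abs_le]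
      constructor <;> linarith
    · right
      push Not at h9
      have h10 : G.s.nn m * G.un m ≤ G.ht z := by
        rw [ez, h8]
        exact G.nnun_mono h1
      exact ⟨h10, by linarith⟩
  · left
    have h9 : ((G.Λ * (2 * y.1.2) : ℕ) : ℝ) ≤ ((2 * z.1.2 + 1 + G.Λ : ℕ) : ℝ) := by
      exact_mod_cast h8.le
    push_cast at h9
    have h10 := mul_le_mul_of_nonneg_right h9 hU.le
    have a2 : G.ht y ≤ G.ht z + G.un (k + 1) := by
      rw [ez, ey, hU']
      rw [hU'] at hUU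
      nlinarith
    rw [abs_le]
    constructor <;> linarith

/-- One step. -/
theorem step {z y : G.strip.V} (h : z = y ∨ G.strip.Γ.Adj z y) :
    z.1.1 ≤ y.1.1 + 1 ∧ y.1.1 ≤ z.1.1 + 1 ∧ ∀ m M, 1 ≤ z.1.1 → 1 ≤ y.1.1 →
    m ≤ G.s.kst + z.1.1 - 1 → m ≤ G.s.kst + y.1.1 - 1 →
    G.s.kst + z.1.1 - 1 ≤ M → G.s.kst + y.1.1 - 1 ≤ M →
    (|G.ht z - G.ht y| ≤ G.un M ∨
      (G.s.nn m * G.un m ≤ G.ht z ∧ G.s.nn m * G.un m ≤ G.ht y)) := by
  rcases h with h | h
  · subst h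
    refine ⟨by omega, by omega, fun m M _ _ _ _ _ _ => Or.inl ?_⟩
    rw [sub_self, abs_zero]
    exact (G.un_pos M).le
  · rcases h with ⟨h1, h2⟩ | ⟨h1, h2⟩ | ⟨h1, h2⟩
    · refine ⟨by omega, by omega, fun m M _ _ _ _ h3 _ => Or.inl ?_⟩
      have h4 := G.un_mono h3
      have h5 := G.un_pos (G.s.kst + z.1.1 - 1)
      unfold ht
      rw [← h1, ← sub_mul, abs_mul, abs_of_pos h5]
      have h6 : |(z.1.2 : ℝ) - y.1.2| = 1 := by
        rcases h2 with h2 | h2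
        · rw [← h2]; push_cast; rw [abs_sub_comm]; simp
        · rw [← h2]; push_cast; simp
      rw [h6, one_mul]
      exact h4
    · refine ⟨by omega, by omega, fun m M a1 a2 a3 a4 a5 a6 => ?_⟩
      exact G.stepH a1 a3 a6 h1 h2
    · refine ⟨by omega, by omega, fun m M a1 a2 a3 a4 a5 a6 => ?_⟩
      rw [abs_sub_comm]
      exact (G.stepH a2 a4 a5 h1 h2).imp id And.symm

/-- Two steps. -/
theorem near {z w : G.strip.V} (h : Near G.strip.Γ z w) (hz : 3 ≤ z.1.1) :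
    z.1.1 ≤ w.1.1 + 2 ∧ w.1.1 ≤ z.1.1 + 2 ∧
    (|G.ht z - G.ht w| ≤ 2 * G.un (G.s.kst + z.1.1 - 1 + 2) ∨
      (G.s.nn (G.s.kst + z.1.1 - 1 - 2) * G.un (G.s.kst + z.1.1 - 1 - 2) -
        G.un (G.s.kst + z.1.1 - 1 + 2) ≤ G.ht z ∧
       G.s.nn (G.s.kst + z.1.1 - 1 - 2) * G.un (G.s.kst + z.1.1 - 1 - 2) -
        G.un (G.s.kst + z.1.1 - 1 + 2) ≤ G.ht w)) := by
  obtain ⟨y, h1, h2⟩ := h
  obtain ⟨a1, a2, a3⟩ := G.step h1
  obtain ⟨b1, b2, b3⟩ := G.step h2
  refine ⟨by omega, by omega, ?_⟩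
  set m := G.s.kst + z.1.1 - 1 - 2 with hm
  set M := G.s.kst + z.1.1 - 1 + 2 with hM
  have c1 := a3 m M (by omega) (by omega) (by omega) (by omega) (by omega) (by omega)
  have c2 := b3 m M (by omega) (by omega) (by omega) (by omega) (by omega) (by omega)
  have hU := G.un_pos M
  rcases c1 with c1 | ⟨c1, c1'⟩
  · rcases c2 with c2 | ⟨c2, c2'⟩
    · left
      have := abs_le.1 c1
      have := abs_le.1 c2
      rw [abs_le]
      constructor <;> linarith
    · right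
      have := abs_le.1 c1
      constructor <;> linarith
  · right
    rcases c2 with c2 | ⟨c2, c2'⟩
    · have := abs_le.1 c2
      constructor <;> linarith
    · constructor <;> linarith

theorem ht_cell {a l : ℝ} (ha : 0 < a) (hl : 0 ≤ l) (h : G.col a ≠ 0) :
    G.ht (G.cell a l ha hl) = G.row a l * G.un (G.κ a) := by
  unfold ht
  change ((if G.col a = 0 then 0 else G.row a l : ℕ) : ℝ) * G.un (G.s.kst + G.col a - 1) = _
  rw [if_neg h, G.col_κ h]

/-- Near positions. -/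
theorem near_pos (N : ℕ) : ∃ κ1 : ℕ, ∀ {a l a' l' : ℝ} (ha : 0 < a) (hl : 0 ≤ l) (ha' : 0 < a')
    (hl' : 0 ≤ l'), Near G.strip.Γ (G.cell a l ha hl) (G.cell a' l' ha' hl') → κ1 ≤ G.κ a →
    a ≤ (G.Λ : ℝ) ^ 3 * a' ∧ a' ≤ (G.Λ : ℝ) ^ 3 * a ∧
    ((0 < l ∧ 0 < l' ∧ |a / l - a' / l'| ≤ 3 * G.η * (G.Λ : ℝ) ^ 4 * a ∧
        |a / l - a' / l'| ≤ 3 * G.η * (G.Λ : ℝ) ^ 4 * a') ∨ (l * N ≤ 1 ∧ l' * N ≤ 1)) := by
  obtain ⟨κ2, hκ2⟩ := G.s.nnlim (3 * G.Λ ^ 4 + G.Λ ^ 5 * N)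
  refine ⟨max (κ2 + 2) (G.s.kst + 2), ?_⟩
  intro a l a' l' ha hl ha' hl' hnear hκ1
  have hk1 : κ2 + 2 ≤ G.κ a := (le_max_left _ _).trans hκ1
  have hk2 : G.s.kst + 2 ≤ G.κ a := (le_max_right _ _).trans hκ1
  have hkst := G.s.hkst
  have hκ0 := G.s.hκ0
  have hcol : 3 ≤ (G.cell a l ha hl).1.1 := by
    change 3 ≤ G.col a
    unfold col; omega
  obtain ⟨h1, h2, h3⟩ := G.near hnear hcol
  change G.col a ≤ G.col a' + 2 at h1
  change G.col a' ≤ G.col a + 2 at h2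
  have hca : G.col a ≠ 0 := by
    change 3 ≤ G.col a at hcol
    omega
  have hca' : G.col a' ≠ 0 := by
    change 3 ≤ G.col a at hcol
    omega
  have hka := G.col_κ hca
  have hka' := G.col_κ hca'
  change |G.ht (G.cell a l ha hl) - G.ht (G.cell a' l' ha' hl')| ≤
    2 * G.un (G.s.kst + G.col a - 1 + 2) ∨
      (G.s.nn (G.s.kst + G.col a - 1 - 2) * G.un (G.s.kst + G.col a - 1 - 2) -
        G.un (G.s.kst + G.col a - 1 + 2) ≤ G.ht (G.cell a l ha hl) ∧
       G.s.nn (G.s.kst + G.col a - 1 - 2) * G.un (G.s.kst + G.col a - 1 - 2) -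
        G.un (G.s.kst + G.col a - 1 + 2) ≤ G.ht (G.cell a' l' ha' hl')) at h3
  rw [hka, G.ht_cell ha hl hca, G.ht_cell ha' hl' hca'] at h3
  have hd1 : G.κ a ≤ G.κ a' + 2 := by omega
  have hd2 : G.κ a' ≤ G.κ a + 2 := by omega
  have hΛ2 := G.Λ2
  have hΛ := G.Λpos
  have hη := G.ηpos
  have hlo := G.pow_le (a := a) (by omega)
  have hlo' := G.pow_le (a := a') (by omega)
  have hhi := G.lt_pow a
  have hhi' := G.lt_pow a'
  have hΛ1 : (1 : ℝ) ≤ G.Λ := by linarith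
  obtain ⟨m, hm⟩ : ∃ m, G.κ a = m + 2 := ⟨G.κ a - 2, by omega⟩
  have hlom : (G.Λ : ℝ) ^ m ≤ a := (pow_le_pow_right₀ hΛ1 (by omega)).trans hlo
  have hlom' : (G.Λ : ℝ) ^ m ≤ a' := (pow_le_pow_right₀ hΛ1 (by omega)).trans hlo'
  have hUM : G.un (G.κ a + 2) = G.η * (G.Λ : ℝ) ^ 4 * (G.Λ : ℝ) ^ m := by
    unfold un; rw [hm]; ring
  have hUm : G.un (G.κ a - 2) = G.η * (G.Λ : ℝ) ^ m := by
    unfold un; rw [hm]; rfl
  have hnm : G.κ a - 2 = m := by omega
  have hU1 : G.un (G.κ a) ≤ G.un (G.κ a + 2) := G.un_mono (by omega)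
  have hU2 : G.un (G.κ a') ≤ G.un (G.κ a + 2) := G.un_mono (by omega)
  refine ⟨?_, ?_, ?_⟩
  · calc a ≤ (G.Λ : ℝ) ^ (G.κ a + 1) := hhi.le
      _ ≤ (G.Λ : ℝ) ^ (3 + G.κ a') := pow_le_pow_right₀ hΛ1 (by omega)
      _ = (G.Λ : ℝ) ^ 3 * (G.Λ : ℝ) ^ (G.κ a') := pow_add _ _ _
      _ ≤ _ := by gcongr
  · calc a' ≤ (G.Λ : ℝ) ^ (G.κ a' + 1) := hhi'.le
      _ ≤ (G.Λ : ℝ) ^ (3 + G.κ a) := pow_le_pow_right₀ hΛ1 (by omega)
      _ = (G.Λ : ℝ) ^ 3 * (G.Λ : ℝ) ^ (G.κ a) := pow_add _ _ _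
      _ ≤ _ := by gcongr
  · have hr := G.row_le ha hl
    have hr' := G.row_le ha' hl'
    have hrl := G.row_lo' ha hl
    have hrl' := G.row_lo' ha' hl'
    -- the high case
    have high : G.s.nn m * G.un m - 2 * G.un (G.κ a + 2) ≤ G.row a l * G.un (G.κ a) →
        G.s.nn m * G.un m - 2 * G.un (G.κ a + 2) ≤ G.row a' l' * G.un (G.κ a') →
        (l * N ≤ 1 ∧ l' * N ≤ 1) := by
      have hnn : 3 * (G.Λ : ℝ) ^ 4 + (G.Λ : ℝ) ^ 5 * N ≤ G.s.nn m := by
        have : 3 * G.Λ ^ 4 + G.Λ ^ 5 * N ≤ G.s.nn m := hκ2.trans (G.s.hnn (by omega))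
        exact_mod_cast this
      have hη1 : (1 : ℝ) ≤ G.η := by
        have : 1 ≤ G.η := G.C.p1nat.trans G.hηp
        exact_mod_cast this
      have hUm' : G.un m = G.η * (G.Λ : ℝ) ^ m := rfl
      have hgen : ∀ {b lb : ℝ} (hb : 0 < b) (hlb : 0 ≤ lb),
          lb * ((G.row b lb - 1 / 2) * G.un (G.κ b)) ≤ b → G.un (G.κ b) ≤ G.un (G.κ a + 2) →
          b ≤ (G.Λ : ℝ) ^ 5 * (G.Λ : ℝ) ^ m →
          G.s.nn m * G.un m - 2 * G.un (G.κ a + 2) ≤ G.row b lb * G.un (G.κ b) →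
          lb * N ≤ 1 := by
        intro b lb hb hlb e1 e2 e3 e4
        have e5 : (G.Λ : ℝ) ^ 5 * N * (G.Λ : ℝ) ^ m ≤ (G.row b lb - 1 / 2) * G.un (G.κ b) := by
          have f1 : (3 * (G.Λ : ℝ) ^ 4 + (G.Λ : ℝ) ^ 5 * N) * G.un m ≤ G.s.nn m * G.un m :=
            mul_le_mul_of_nonneg_right hnn (G.un_pos m).le
          have f2 : G.un (G.κ a + 2) = (G.Λ : ℝ) ^ 4 * G.un m := by rw [hUM, hUm']; ring
          have f3 : (G.Λ : ℝ) ^ 5 * N * (G.Λ : ℝ) ^ m ≤ (G.Λ : ℝ) ^ 5 * N * G.un m := by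
            rw [hUm']
            have : 1 * (G.Λ : ℝ) ^ m ≤ G.η * (G.Λ : ℝ) ^ m := by gcongr
            rw [one_mul] at this
            gcongr
          nlinarith
        have e6 := (mul_le_mul_of_nonneg_left e5 hlb).trans (e1.trans e3)
        have e7 : (lb * N) * ((G.Λ : ℝ) ^ 5 * (G.Λ : ℝ) ^ m) ≤
            1 * ((G.Λ : ℝ) ^ 5 * (G.Λ : ℝ) ^ m) := by nlinarith
        exact le_of_mul_le_mul_right e7 (by positivity)
      intro g1 g2
      refine ⟨hgen ha hl hrl hU1 ?_ g1, hgen ha' hl' hrl' hU2 ?_ g2⟩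
      · rw [← pow_add]
        exact hhi.le.trans (pow_le_pow_right₀ hΛ1 (by omega))
      · rw [← pow_add]
        exact hhi'.le.trans (pow_le_pow_right₀ hΛ1 (by omega))
    rw [hnm] at h3
    rcases h3 with h3 | ⟨h3, h3'⟩
    · by_cases ht : G.row a l < G.s.nn (G.κ a) ∧ G.row a' l' < G.s.nn (G.κ a')
      · left
        have hx := G.row_hi ha hl ht.1
        have hx' := G.row_hi ha' hl' ht.2
        have hlpos : 0 < l := by
          rcases hl.eq_or_lt with h | h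
          · rw [← h] at hx; linarith
          · exact h
        have hlpos' : 0 < l' := by
          rcases hl'.eq_or_lt with h | h
          · rw [← h] at hx'; linarith
          · exact h
        have g1 : a / l ≤ (G.row a l + 1 / 2) * G.un (G.κ a) := by
          rw [div_le_iff₀ hlpos]; linarith
        have g2 : (G.row a l - 1 / 2) * G.un (G.κ a) ≤ a / l := by
          rw [le_div_iff₀ hlpos]; linarith
        have g1' : a' / l' ≤ (G.row a' l' + 1 / 2) * G.un (G.κ a') := by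
          rw [div_le_iff₀ hlpos']; linarith
        have g2' : (G.row a' l' - 1 / 2) * G.un (G.κ a') ≤ a' / l' := by
          rw [le_div_iff₀ hlpos']; linarith
        have g3 : |a / l - a' / l'| ≤ 3 * G.un (G.κ a + 2) := by
          have := abs_le.1 h3
          rw [abs_le]
          constructor <;> nlinarith
        have g4 : 3 * G.un (G.κ a + 2) = 3 * G.η * (G.Λ : ℝ) ^ 4 * (G.Λ : ℝ) ^ m := by
          rw [hUM]; ring
        rw [g4] at g3
        refine ⟨hlpos, hlpos', g3.trans ?_, g3.trans ?_⟩ <;> gcongr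
      · right
        have hd := abs_le.1 h3
        rw [not_and_or, not_lt, not_lt] at ht
        rcases ht with ht | ht
        · have e : G.row a l = G.s.nn (G.κ a) := le_antisymm hr ht
          have f : G.s.nn m * G.un m ≤ G.row a l * G.un (G.κ a) := by
            rw [e]; exact G.nnun_mono (by omega)
          have := G.un_pos (G.κ a + 2)
          exact high (by linarith) (by linarith)
        · have e : G.row a' l' = G.s.nn (G.κ a') := le_antisymm hr' ht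
          have f : G.s.nn m * G.un m ≤ G.row a' l' * G.un (G.κ a') := by
            rw [e]; exact G.nnun_mono (by omega)
          have := G.un_pos (G.κ a + 2)
          exact high (by linarith) (by linarith)
    · right
      have := G.un_pos (G.κ a + 2)
      exact high (by linarith) (by linarith)

end Geo

end QEP
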