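import Pool.Agent.Work.MP_e35540_an.Defs0

/-!
MP_e35540_an: every nuclear power space of the second kind has the quasiequivalence property.
The statements of the parts of the proof.
-/

open Filter Topology

namespace QEP

/-- THE GOAL. -/
def Main : Prop := ∀ (l a : ℕ → ℝ) (ha : ∀ i, 0 < a i), (∀ i, 0 ≤ l i) → (∀ i, l i ≤ 1) →
  IsNuclearSpace (FSpace l a ha) → HasQEP (FSpace l a ha)

/-! ## The combinatorial core -/

/-- `min (1/l) x` with `1/0 = ∞`. -/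
noncomputable def mn (l x : ℝ) : ℝ := if l * x ≤ 1 then x else 1 / l

/-- The exponent `h(p) = (min(1/l, p) - 1/p) a`, `p ≥ 1`. -/
noncomputable def hh (a l : ℝ) (p : ℕ) : ℝ := (mn l p - 1 / p) * a

/-- A family of positions `(a i, l i)` with the nuclearity condition. -/
structure Fam where
  a : ℕ → ℝ
  l : ℕ → ℝ
  apos : ∀ i, 0 < a i
  l0 : ∀ i, 0 ≤ l i
  l1 : ∀ i, l i ≤ 1
  nuc : ∀ p, 1 ≤ p → ∃ q, p ≤ q ∧ Summable fun i => Real.exp (hh (a i) (l i) p - hh (a i) (l i) q)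

/-- The exponents of a family. -/
noncomputable def Fam.h (A : Fam) (i p : ℕ) : ℝ := hh (A.a i) (A.l i) p

/-- Two mutually inverse matrices with the natural bounds. -/
structure Link (A B : Fam) where
  ψ : ℕ → ℕ
  c : ℕ → ℝ
  T : ℕ → ℕ → ℂ
  S : ℕ → ℕ → ℂ
  hψ : ∀ p, p ≤ ψ p
  ψmono : Monotone ψ
  c0 : ∀ p, 0 ≤ c p
  cmono : Monotone c
  hT : ∀ p, 1 ≤ p → ∀ j i, ‖T j i‖ ≤ Real.exp (c p + A.h i (ψ p) - B.h j p)
  hS : ∀ p, 1 ≤ p → ∀ i j, ‖S i j‖ ≤ Real.exp (c p + B.h j (ψ p) - A.h i p)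
  hST : ∀ i i', HasSum (fun j => S i j * T j i') (if i = i' then 1 else 0)
  hTS : ∀ j j', HasSum (fun i => T j i * S i j') (if j = j' then 1 else 0)

/-- PART CORE. -/
def Core : Prop := ∀ (A B : Fam) (_ : Link A B), ∃ (π : Equiv.Perm ℕ) (τ : ℕ → ℝ),
  ∀ p, 1 ≤ p → ∃ q, 1 ≤ q ∧ ∃ C : ℝ, ∀ i,
    A.h i p ≤ B.h (π i) q + τ i + C ∧ B.h (π i) p + τ i ≤ A.h i q + C

/-! ## Graph part (PART G) -/

/-- Closed neighbourhood. -/
def Nb {V : Type} (Γ : SimpleGraph V) (A : Set V) : Set V := {z | z ∈ A ∨ ∃ y ∈ A, Γ.Adj z y}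

/-- Interior. -/
def Inn {V : Type} (Γ : SimpleGraph V) (P : Set V) : Set V := {z | z ∈ P ∧ ∀ y, Γ.Adj z y → y ∈ P}

/-- A strip: column `k` has the cells `(k, 0), …, (k, n k)`; `H k i i'` says that `(k, i)` and
`(k+1, i')` are adjacent. -/
structure Strip where
  n : ℕ → ℕ
  H : ℕ → ℕ → ℕ → Prop
  mono : ∀ k i i' j j', H k i i' → H k j j' → j < i → j' ≤ i'
  top : ∀ k, H k (n k) (n (k + 1))

/-- The cells of a strip. -/
abbrev Strip.V (s : Strip) : Type := {v : ℕ × ℕ // v.2 ≤ s.n v.1}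

/-- The adjacency graph of the cells. -/
def Strip.Γ (s : Strip) : SimpleGraph s.V where
  Adj v w := (v.1.1 = w.1.1 ∧ (v.1.2 + 1 = w.1.2 ∨ w.1.2 + 1 = v.1.2)) ∨
    (w.1.1 = v.1.1 + 1 ∧ s.H v.1.1 v.1.2 w.1.2) ∨ (v.1.1 = w.1.1 + 1 ∧ s.H w.1.1 w.1.2 v.1.2)
  symm := ⟨by
    intro v w h
    rcases h with ⟨h1, h2⟩ | h | h
    · exact Or.inl ⟨h1.symm, h2.symm⟩
    · exact Or.inr (Or.inr h)
    · exact Or.inr (Or.inl h)⟩
  loopless := ⟨by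
    intro v h
    rcases h with ⟨_, h2⟩ | ⟨h1, _⟩ | ⟨h1, _⟩
    · omega
    · omega
    · omega⟩

/-- The top cell of column `k`. -/
def Strip.tp (s : Strip) (k : ℕ) : s.V := ⟨(k, s.n k), le_rfl⟩

/-- The top cells of `P` form an interval of columns. -/
def Strip.TI (s : Strip) (P : Set s.V) : Prop :=
  ∀ k₁ k₂ k₃, k₁ ≤ k₂ → k₂ ≤ k₃ → s.tp k₁ ∈ P → s.tp k₃ ∈ P → s.tp k₂ ∈ P

/-- PART G. -/
def StripHall : Prop := ∀ (s : Strip) (x y : s.V → ℕ),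
  (∀ P : Set s.V, P.Finite → s.TI P → ∑ᶠ z ∈ Inn s.Γ P, x z ≤ ∑ᶠ z ∈ P, y z) →
  (∀ P : Set s.V, P.Finite → s.TI P → ∑ᶠ z ∈ Inn s.Γ P, y z ≤ ∑ᶠ z ∈ P, x z) →
  ∀ A : Set s.V, A.Finite → ∑ᶠ z ∈ A, x z ≤ ∑ᶠ z ∈ Nb s.Γ (Nb s.Γ A), y z

/-! ## Functional analysis part -/

/-- PART F1 (Banach): the partial sum operators of a basis are equicontinuous.  Here `c v` are the
coefficients of `v`. -/
def PartF1 : Prop := ∀ (K : KMat) (y : ℕ → K.Space), IsBasis y →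
  ∃ c : ℕ → (K.Space →ₗ[ℂ] ℂ),
    (∀ v, Tendsto (fun N => ∑ n ∈ Finset.range N, c n v • y n) atTop (𝓝 v)) ∧
    (∀ n m, c n (y m) = if n = m then 1 else 0) ∧
    ∀ p, ∃ q, ∃ C : ℝ, ∀ v n, ‖c n v‖ * K.sn p (y n) ≤ C * K.sn q v

/-- PART F3: Grothendieck-Pietsch criterion, necessity. -/
def PartF3 : Prop := ∀ K : KMat, IsNuclearSpace K.Space →
  ∀ p, ∃ q, p ≤ q ∧ Summable fun i => K.b i p / K.b i q

/-- PART F2 (Dynin-Mityagin for a system with the bounds of F1). -/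
def PartF2 : Prop := ∀ (K : KMat), (∀ p, ∃ q, p ≤ q ∧ Summable fun i => K.b i p / K.b i q) →
  ∀ (y : ℕ → K.Space) (c : ℕ → (K.Space →ₗ[ℂ] ℂ)),
    (∀ n m, c n (y m) = if n = m then 1 else 0) →
    (∀ p, ∃ q, ∃ C : ℝ, ∀ v n, ‖c n v‖ * K.sn p (y n) ≤ C * K.sn q v) →
    ∀ p, ∃ q, p ≤ q ∧ Summable fun n => K.sn p (y n) / K.sn q (y n)

/-- PART F5: a basis whose norms are comparable to the weights is quasiequivalent to the unit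
vectors; `c` are its coefficient functionals. -/
def PartF5 : Prop := ∀ (K : KMat) (y : ℕ → K.Space) (c : ℕ → (K.Space →ₗ[ℂ] ℂ)),
  (∀ v, Tendsto (fun N => ∑ n ∈ Finset.range N, c n v • y n) atTop (𝓝 v)) →
  (∀ n m, c n (y m) = if n = m then 1 else 0) →
  (∀ p, ∃ q, ∃ C : ℝ, ∀ v, Summable (fun n => ‖c n v‖ * K.sn p (y n)) ∧
    ∑' n, ‖c n v‖ * K.sn p (y n) ≤ C * K.sn q v) →
  ∀ (π : Equiv.Perm ℕ) (t : ℕ → ℝ), (∀ n, 0 < t n) →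
  (∀ p, ∃ q, ∃ C : ℝ, ∀ i, t i * K.sn p (y (π i)) ≤ C * K.b i q) →
  (∀ p, ∃ q, ∃ C : ℝ, ∀ i, K.b i p ≤ C * (t i * K.sn q (y (π i)))) →
  ∃ Φ : K.Space ≃L[ℂ] K.Space, ∀ i v, (∀ j, v.co j = if j = i then 1 else 0) →
    Φ v = ((t i : ℝ) : ℂ) • y (π i)

end QEP
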