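import Mathlib

/-!
MP_e35540_an: every nuclear power space of the second kind has the quasiequivalence property.
The definitions used in the statement.
-/

open Filter Topology

namespace QEP

/-! ## Functional analytic definitions -/

/-- A Köthe matrix `b i p`, positive and nondecreasing in `p`. -/
structure KMat where
  b : ℕ → ℕ → ℝ
  pos : ∀ i p, 0 < b i p
  mono : ∀ i p, b i p ≤ b i (p + 1)

namespace KMat

variable (K : KMat)

/-- The sequences `x` with `∑ |x i| b i p < ∞` for all `p`. -/
def sub : Submodule ℂ (ℕ → ℂ) where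
  carrier := {x | ∀ p, Summable fun i => ‖x i‖ * K.b i p}
  add_mem' := by
    intro x y hx hy p
    refine Summable.of_nonneg_of_le (fun i => mul_nonneg (norm_nonneg _) (K.pos i p).le)
      (fun i => ?_) ((hx p).add (hy p))
    have := norm_add_le (x i) (y i)
    have h2 := (K.pos i p).le
    calc ‖(x + y) i‖ * K.b i p ≤ (‖x i‖ + ‖y i‖) * K.b i p :=
          mul_le_mul_of_nonneg_right this h2
      _ = _ := by ring
  zero_mem' := by intro p; simp
  smul_mem' := by
    intro c x hx p
    have := (hx p).mul_left ‖c‖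
    refine this.congr (fun i => ?_)
    simp [mul_assoc]

/-- The Köthe space of the matrix `K`. -/
def Space : Type := K.sub

/-- The vector space structure of the subspace `K.sub` of `ℕ → ℂ`. -/
noncomputable instance : AddCommGroup K.Space := Submodule.addCommGroup K.sub
noncomputable instance : Module ℂ K.Space := Submodule.module K.sub

variable {K} in
/-- The coordinates of a vector. -/
def Space.co (x : K.Space) (i : ℕ) : ℂ := x.1 i

theorem Space.summable (x : K.Space) (p : ℕ) : Summable fun i => ‖x.co i‖ * K.b i p := x.2 p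

@[ext] theorem Space.ext {x y : K.Space} (h : ∀ i, x.co i = y.co i) : x = y :=
  Subtype.ext (funext h)

@[simp] theorem co_add (x y : K.Space) (i : ℕ) : (x + y).co i = x.co i + y.co i := rfl
@[simp] theorem co_smul (c : ℂ) (x : K.Space) (i : ℕ) : (c • x).co i = c * x.co i := rfl
@[simp] theorem co_zero (i : ℕ) : (0 : K.Space).co i = 0 := rfl
@[simp] theorem co_sub (x y : K.Space) (i : ℕ) : (x - y).co i = x.co i - y.co i := rfl
@[simp] theorem co_neg (x : K.Space) (i : ℕ) : (-x).co i = -x.co i := rfl

/-- The seminorm `|x|_p = ∑ |x i| b i p`. -/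
noncomputable def sn (p : ℕ) : Seminorm ℂ K.Space :=
  Seminorm.of (fun x => ∑' i, ‖x.co i‖ * K.b i p)
    (by
      intro x y
      rw [← (x.summable K p).tsum_add (y.summable K p)]
      refine (Summable.tsum_le_tsum (fun i => ?_) ((x + y).summable K p)
        ((x.summable K p).add (y.summable K p)))
      have := norm_add_le (x.co i) (y.co i)
      calc ‖(x + y).co i‖ * K.b i p ≤ (‖x.co i‖ + ‖y.co i‖) * K.b i p :=
            mul_le_mul_of_nonneg_right this (K.pos i p).le
        _ = _ := by ring)
    (by
      intro c x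
      rw [← tsum_mul_left]
      refine tsum_congr (fun i => ?_)
      simp [mul_assoc])

theorem sn_apply (p : ℕ) (x : K.Space) : K.sn p x = ∑' i, ‖x.co i‖ * K.b i p := rfl

/-- The Fréchet topology given by the seminorms `|·|_p`. -/
noncomputable instance : TopologicalSpace K.Space :=
  (SeminormFamily.moduleFilterBasis (𝕜 := ℂ) (fun p : ℕ => K.sn p)).topology

theorem withSeminorms : WithSeminorms (𝕜 := ℂ) (fun p : ℕ => K.sn p) := ⟨rfl⟩

instance : IsTopologicalAddGroup K.Space := K.withSeminorms.topologicalAddGroup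
instance : ContinuousSMul ℂ K.Space := K.withSeminorms.continuousSMul

end KMat

/-- `(x n)` is a basis of `X`: every vector `v` has exactly one expansion
`v = ∑ c n • x n` (convergence of the partial sums in the topology of `X`).  The continuity of the
coefficient functionals is not assumed. -/
def IsBasis {X : Type} [AddCommGroup X] [Module ℂ X] [TopologicalSpace X] (x : ℕ → X) : Prop :=
  ∀ v : X, ∃! c : ℕ → ℂ, Tendsto (fun N => ∑ n ∈ Finset.range N, c n • x n) atTop (𝓝 v)

/-- Two sequences are quasiequivalent: there are a bijection `π` of `ℕ` and nonzero scalars `t n`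
such that `x n ↦ t n • y (π n)` extends to a linear topological isomorphism of `X` onto itself. -/
def QuasiEquivalent {X : Type} [AddCommGroup X] [Module ℂ X] [TopologicalSpace X]
    (x y : ℕ → X) : Prop :=
  ∃ (π : Equiv.Perm ℕ) (t : ℕ → ℂ) (Φ : X ≃L[ℂ] X),
    (∀ n, t n ≠ 0) ∧ ∀ n, Φ (x n) = t n • y (π n)

/-- Quasiequivalence property: any two bases are quasiequivalent. -/
def HasQEP (X : Type) [AddCommGroup X] [Module ℂ X] [TopologicalSpace X] : Prop :=
  ∀ x y : ℕ → X, IsBasis x → IsBasis y → QuasiEquivalent x y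

/-- `X` is a nuclear locally convex space (Pietsch's form of the definition): for every continuous
seminorm `p` there is a continuous seminorm `q` such that the canonical map from `(X, q)` to
`(X, p)` is a nuclear map of (semi)normed spaces, i.e. it has the form `x ↦ ∑ φ n x • y n`,
convergent in the seminorm `p`, with linear functionals `|φ n| ≤ q` and with `∑ p (y n) < ∞`. -/
def IsNuclearSpace (X : Type) [AddCommGroup X] [Module ℂ X] [TopologicalSpace X] : Prop :=
  ∀ p : Seminorm ℂ X, Continuous p → ∃ q : Seminorm ℂ X, Continuous q ∧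
    ∃ (φ : ℕ → (X →ₗ[ℂ] ℂ)) (y : ℕ → X) (s : ℕ → ℝ), Summable s ∧
      (∀ n x, ‖φ n x‖ ≤ q x) ∧ (∀ n, p (y n) ≤ s n) ∧
      ∀ x, Tendsto (fun N => p (x - ∑ n ∈ Finset.range N, φ n x • y n)) atTop (𝓝 0)

/-- `φ_p(t) = -1/p + min {1/t, p}` with `1/0 = ∞`. -/
noncomputable def phi (p : ℕ) (t : ℝ) : ℝ :=
  -(1 / (p : ℝ)) + if t = 0 then (p : ℝ) else min (1 / t) p

/-- The matrix `exp (φ_p(λ_i) a_i)`, `p = 1, 2, …`. -/
noncomputable def FMat (l a : ℕ → ℝ) (ha : ∀ i, 0 < a i) : KMat where
  b := fun i p => Real.exp (phi (p + 1) (l i) * a i)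
  pos := fun i p => Real.exp_pos _
  mono := by
    intro i p
    apply Real.exp_le_exp.2
    apply mul_le_mul_of_nonneg_right _ (ha i).le
    unfold phi
    have h1 : (1 : ℝ) / ((p + 1 + 1 : ℕ) : ℝ) ≤ 1 / ((p + 1 : ℕ) : ℝ) := by
      apply one_div_le_one_div_of_le
      · positivity
      · push_cast; linarith
    have h2 : ((p + 1 : ℕ) : ℝ) ≤ ((p + 1 + 1 : ℕ) : ℝ) := by push_cast; linarith
    split_ifs
    · linarith
    · have := min_le_min_left (1 / l i) h2
      linarith

/-- The power space of the second kind `F(λ, a)`. -/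
abbrev FSpace (l a : ℕ → ℝ) (ha : ∀ i, 0 < a i) : Type := (FMat l a ha).Space

end QEP
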