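import Pool.Agent.Work.MP_e35540_an.Defs

/-!
# Banach's theorem for bases of a Köthe space (MP_e35540_an, part F1)

The coefficient functionals of a (Schauder) basis of the Fréchet space `K.Space` are continuous,
and the partial sum operators are equicontinuous.
-/

open Filter Topology

namespace QEP

namespace F1

variable {K : KMat}

theorem b_mono {p q : ℕ} (h : p ≤ q) (i : ℕ) : K.b i p ≤ K.b i q :=
  monotone_nat_of_le_succ (f := fun p => K.b i p) (fun n => K.mono i n) h

theorem sn_mono {p q : ℕ} (h : p ≤ q) (v : K.Space) : K.sn p v ≤ K.sn q v := by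
  rw [KMat.sn_apply, KMat.sn_apply]
  exact (v.summable K p).tsum_le_tsum
    (fun i => mul_le_mul_of_nonneg_left (b_mono h i) (norm_nonneg _)) (v.summable K q)

theorem sn_pos {p : ℕ} {v : K.Space} (hv : v ≠ 0) : 0 < K.sn p v := by
  have : ∃ i, v.co i ≠ 0 := by
    by_contra hne
    push Not at hne
    exact hv (KMat.Space.ext K (fun i => by rw [hne i, KMat.co_zero]))
  obtain ⟨i, hi⟩ := this
  rw [KMat.sn_apply]
  exact (v.summable K p).tsum_pos (fun j => mul_nonneg (norm_nonneg _) (K.pos j p).le) i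
    (mul_pos (norm_pos_iff.mpr hi) (K.pos i p))

theorem tendsto_iff {α : Type} {u : α → K.Space} {f : Filter α} {v : K.Space} :
    Tendsto u f (𝓝 v) ↔ ∀ (p : ℕ) (ε : ℝ), 0 < ε → ∀ᶠ x in f, K.sn p (u x - v) < ε :=
  K.withSeminorms.tendsto_nhds u v

theorem sn_continuous (p : ℕ) : Continuous (K.sn p) := K.withSeminorms.continuous_seminorm p

theorem mem_nhds_iff {x : K.Space} {U : Set K.Space} :
    U ∈ 𝓝 x ↔ ∃ (p : ℕ) (r : ℝ), 0 < r ∧ ∀ v, K.sn p (v - x) < r → v ∈ U := by
  rw [K.withSeminorms.mem_nhds_iff]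
  constructor
  · rintro ⟨s, r, hr, hs⟩
    refine ⟨s.sup id, r, hr, fun v hv => hs ?_⟩
    rw [Seminorm.mem_ball]
    apply Seminorm.finset_sup_apply_lt hr
    intro i hi
    exact lt_of_le_of_lt (sn_mono (Finset.le_sup (f := id) hi) _) hv
  · rintro ⟨p, r, hr, h⟩
    refine ⟨{p}, r, hr, fun v hv => h v ?_⟩
    rw [Finset.sup_singleton, Seminorm.mem_ball] at hv
    exact hv

/-- the vector with coordinates `a` -/
def mk (a : ℕ → ℂ) (ha : a ∈ K.sub) : K.Space := (⟨a, ha⟩ : K.sub)

theorem mk_co (a : ℕ → ℂ) (ha : a ∈ K.sub) (i : ℕ) : (mk a ha).co i = a i := rfl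

theorem complete (x : ℕ → K.Space)
    (h : ∀ p ε, 0 < ε → ∃ N, ∀ m ≥ N, ∀ n ≥ N, K.sn p (x m - x n) < ε) :
    ∃ v, Tendsto x atTop (𝓝 v) := by
  -- coordinates converge
  have hco : ∀ p (v : K.Space) i, ‖v.co i‖ * K.b i p ≤ K.sn p v := fun p v i => by
    rw [KMat.sn_apply]
    exact (v.summable K p).le_tsum i (fun j _ => mul_nonneg (norm_nonneg _) (K.pos j p).le)
  have h1 : ∀ i, CauchySeq (fun n => (x n).co i) := by
    intro i
    rw [Metric.cauchySeq_iff]
    intro ε hε
    obtain ⟨N, hN⟩ := h 0 (ε * K.b i 0) (mul_pos hε (K.pos i 0))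
    refine ⟨N, fun m hm n hn => ?_⟩
    have h2 := lt_of_le_of_lt (hco 0 (x m - x n) i) (hN m hm n hn)
    rw [dist_eq_norm]
    exact lt_of_mul_lt_mul_right h2 (K.pos i 0).le
  choose a ha using fun i => cauchySeq_tendsto_of_complete (h1 i)
  -- Fatou
  have key : ∀ p ε, 0 < ε → ∃ N, ∀ m ≥ N, ∀ F : Finset ℕ,
      ∑ i ∈ F, ‖(x m).co i - a i‖ * K.b i p ≤ ε := by
    intro p ε hε
    obtain ⟨N, hN⟩ := h p ε hε
    refine ⟨N, fun m hm F => ?_⟩
    have ht : Tendsto (fun n => ∑ i ∈ F, ‖(x m).co i - (x n).co i‖ * K.b i p) atTop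
        (𝓝 (∑ i ∈ F, ‖(x m).co i - a i‖ * K.b i p)) := by
      apply tendsto_finsetSum
      intro i _
      exact ((tendsto_const_nhds.sub (ha i)).norm).mul_const _
    refine le_of_tendsto ht ?_
    filter_upwards [eventually_ge_atTop N] with n hn
    refine le_trans ?_ (hN m hm n hn).le
    rw [KMat.sn_apply]
    exact ((x m - x n).summable K p).sum_le_tsum F
      (fun j _ => mul_nonneg (norm_nonneg _) (K.pos j p).le)
  have hsum : ∀ p m ε, (∀ F : Finset ℕ, ∑ i ∈ F, ‖(x m).co i - a i‖ * K.b i p ≤ ε) →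
      Summable fun i => ‖(x m).co i - a i‖ * K.b i p := by
    intro p m ε hF
    exact summable_of_sum_le (fun i => mul_nonneg (norm_nonneg _) (K.pos i p).le) hF
  have ha' : a ∈ K.sub := by
    intro p
    obtain ⟨N, hN⟩ := key p 1 one_pos
    have s1 := hsum p N 1 (hN N le_rfl)
    have s2 := (x N).summable K p
    refine Summable.of_nonneg_of_le (fun i => mul_nonneg (norm_nonneg _) (K.pos i p).le)
      (fun i => ?_) (s1.add s2)
    have : ‖a i‖ ≤ ‖(x N).co i - a i‖ + ‖(x N).co i‖ := by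
      calc ‖a i‖ = ‖(x N).co i - ((x N).co i - a i)‖ := by congr 1; ring
        _ ≤ ‖(x N).co i‖ + ‖(x N).co i - a i‖ := norm_sub_le _ _
        _ = _ := add_comm _ _
    calc ‖a i‖ * K.b i p ≤ (‖(x N).co i - a i‖ + ‖(x N).co i‖) * K.b i p :=
          mul_le_mul_of_nonneg_right this (K.pos i p).le
      _ = _ := by ring
  refine ⟨mk a ha', ?_⟩
  rw [tendsto_iff]
  intro p ε hε
  obtain ⟨N, hN⟩ := key p (ε / 2) (half_pos hε)
  filter_upwards [eventually_ge_atTop N] with n hn
  have : K.sn p (x n - mk a ha') ≤ ε / 2 := by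
    rw [KMat.sn_apply]
    exact (hsum p n (ε / 2) (hN n hn)).tsum_le_of_sum_le (hN n hn)
  linarith

theorem baire : BaireSpace K.Space := by
  let _ : UniformSpace K.Space := IsTopologicalAddGroup.rightUniformSpace K.Space
  have : IsUniformAddGroup K.Space := isUniformAddGroup_of_addCommGroup
  have : FirstCountableTopology K.Space := K.withSeminorms.firstCountableTopology
  have : (uniformity K.Space).IsCountablyGenerated :=
    IsUniformAddGroup.uniformity_countably_generated
  have : CompleteSpace K.Space := by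
    refine UniformSpace.complete_of_cauchySeq_tendsto (fun u hu => complete u ?_)
    intro p ε hε
    have hm : {z : K.Space × K.Space | K.sn p (z.1 - z.2) < ε} ∈ uniformity K.Space := by
      rw [uniformity_eq_comap_nhds_zero]
      refine ⟨{v | K.sn p v < ε}, ?_, ?_⟩
      · rw [mem_nhds_iff]
        exact ⟨p, ε, hε, fun v hv => by simpa using hv⟩
      · intro z hz
        have : K.sn p (z.2 - z.1) < ε := hz
        rwa [map_sub_rev] at this
    obtain ⟨N, hN⟩ := cauchySeq_iff.1 hu _ hm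
    exact ⟨N, fun m hm n hn => hN m hm n hn⟩
  infer_instance

/-! ### The coefficient functionals -/

section Basis

variable {y : ℕ → K.Space} (hy : IsBasis y)

/-- the coefficients of `v` -/
noncomputable def cf (v : K.Space) : ℕ → ℂ := (hy v).choose

theorem cf_tendsto (v : K.Space) :
    Tendsto (fun N => ∑ n ∈ Finset.range N, cf hy v n • y n) atTop (𝓝 v) :=
  (hy v).choose_spec.1

theorem cf_unique {v : K.Space} {a : ℕ → ℂ}
    (h : Tendsto (fun N => ∑ n ∈ Finset.range N, a n • y n) atTop (𝓝 v)) : cf hy v = a :=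
  ((hy v).choose_spec.2 a h).symm

/-- the coefficient functionals -/
noncomputable def cl (n : ℕ) : K.Space →ₗ[ℂ] ℂ where
  toFun v := cf hy v n
  map_add' v w := by
    have h := (cf_tendsto hy v).add (cf_tendsto hy w)
    have h2 := cf_unique hy (v := v + w) (a := fun n => cf hy v n + cf hy w n) (by
      refine h.congr (fun N => ?_)
      rw [← Finset.sum_add_distrib]
      exact Finset.sum_congr rfl fun n _ => (add_smul _ _ _).symm)
    exact congrFun h2 n
  map_smul' t v := by
    have h := (cf_tendsto hy v).const_smul t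
    have h2 := cf_unique hy (v := t • v) (a := fun n => t * cf hy v n) (by
      refine h.congr (fun N => ?_)
      rw [Finset.smul_sum]
      exact Finset.sum_congr rfl fun n _ => (mul_smul _ _ _).symm)
    exact congrFun h2 n

theorem cl_unique {v : K.Space} {a : ℕ → ℂ}
    (h : Tendsto (fun N => ∑ n ∈ Finset.range N, a n • y n) atTop (𝓝 v)) (n : ℕ) :
    cl hy n v = a n := congrFun (cf_unique hy h) n

theorem cl_tendsto (v : K.Space) :
    Tendsto (fun N => ∑ n ∈ Finset.range N, cl hy n v • y n) atTop (𝓝 v) :=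
  cf_tendsto hy v

theorem cl_self (n m : ℕ) : cl hy n (y m) = if n = m then 1 else 0 := by
  refine cl_unique hy (a := fun n => if n = m then 1 else 0) ?_ n
  refine tendsto_const_nhds.congr' ?_
  filter_upwards [eventually_gt_atTop m] with N hN
  simp [Finset.sum_ite_eq', hN]

include hy in
theorem y_ne (n : ℕ) : y n ≠ 0 := by
  intro h
  have := cl_self hy n n
  rw [h, map_zero] at this
  simp at this

/-- partial sums -/
noncomputable def S (M : ℕ) : K.Space →ₗ[ℂ] K.Space :=
  ∑ n ∈ Finset.range M, (cl hy n).smulRight (y n)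

theorem S_apply (M : ℕ) (v : K.Space) : S hy M v = ∑ n ∈ Finset.range M, cl hy n v • y n := by
  simp [S]

theorem S_tendsto (v : K.Space) : Tendsto (fun M => S hy M v) atTop (𝓝 v) := by
  simp only [S_apply]
  exact cl_tendsto hy v

/-- the vectors whose partial sums are bounded by `s` in the seminorm `p` -/
def A (p : ℕ) (s : ℝ) : Set K.Space := {v | ∀ M, K.sn p (S hy M v) ≤ s}

theorem exists_mem_A (p : ℕ) (v : K.Space) : ∃ k : ℕ, v ∈ A hy p k := by
  have h : Tendsto (fun M => K.sn p (S hy M v)) atTop (𝓝 (K.sn p v)) :=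
    ((sn_continuous p).tendsto v).comp (S_tendsto hy v)
  obtain ⟨C, hC⟩ := h.bddAbove_range
  obtain ⟨k, hk⟩ := exists_nat_ge C
  exact ⟨k, fun M => (hC ⟨M, rfl⟩).trans hk⟩

theorem A_mono {p : ℕ} {s t : ℝ} (h : s ≤ t) : A hy p s ⊆ A hy p t :=
  fun _ hv M => (hv M).trans h

theorem A_sub {p : ℕ} {s t : ℝ} {v w : K.Space} (hv : v ∈ A hy p s) (hw : w ∈ A hy p t) :
    v - w ∈ A hy p (s + t) := by
  intro M
  rw [map_sub]
  exact (map_sub_le_add _ _ _).trans (add_le_add (hv M) (hw M))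

theorem A_smul {p : ℕ} {s : ℝ} {v : K.Space} (t : ℝ) (ht : 0 ≤ t) (hv : v ∈ A hy p s) :
    ((t : ℂ) • v) ∈ A hy p (t * s) := by
  intro M
  rw [map_smul, map_smul_eq_mul]
  have : ‖(t : ℂ)‖ = t := by simp [abs_of_nonneg ht]
  rw [this]
  exact mul_le_mul_of_nonneg_left (hv M) ht

theorem stepA (p : ℕ) : ∃ (q : ℕ) (δ : ℝ), 0 < δ ∧ ∀ (s : ℝ), 0 < s → ∀ v : K.Space,
    K.sn q v < δ * s → v ∈ closure (A hy p s) := by
  have := baire (K := K)
  obtain ⟨k, hk⟩ := nonempty_interior_of_iUnion_of_closed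
    (f := fun k : ℕ => closure (A hy p k)) (fun k => isClosed_closure) (by
      rw [Set.eq_univ_iff_forall]
      intro v
      obtain ⟨k, hk⟩ := exists_mem_A hy p v
      exact Set.mem_iUnion.2 ⟨k, subset_closure hk⟩)
  obtain ⟨v0, hv0⟩ := hk
  obtain ⟨q, r, hr, hq⟩ := mem_nhds_iff.1 (mem_interior_iff_mem_nhds.1 hv0)
  have h1 : ∀ u : K.Space, K.sn q u < r → u ∈ closure (A hy p (2 * k + 1)) := by
    intro u hu
    have a1 : v0 + u ∈ closure (A hy p k) := hq _ (by rwa [add_sub_cancel_left])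
    have a2 : v0 ∈ closure (A hy p k) := hq _ (by simpa using hr)
    have a3 : (v0 + u) - v0 ∈ closure (A hy p (2 * k + 1)) := by
      refine map_mem_closure₂ continuous_sub a1 a2 (fun a ha b hb => ?_)
      exact A_mono hy (by linarith) (A_sub hy ha hb)
    rwa [add_sub_cancel_left] at a3
  have hκ : (0 : ℝ) < 2 * k + 1 := by positivity
  refine ⟨q, r / (2 * k + 1), by positivity, fun s hs v hv => ?_⟩
  set κ : ℝ := 2 * k + 1 with hκd
  have h2 : (((κ / s : ℝ) : ℂ) • v) ∈ closure (A hy p κ) := by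
    apply h1
    rw [map_smul_eq_mul]
    have : ‖((κ / s : ℝ) : ℂ)‖ = κ / s := by
      rw [Complex.norm_real, Real.norm_of_nonneg (by positivity)]
    rw [this]
    calc κ / s * K.sn q v < κ / s * (r / κ * s) := mul_lt_mul_of_pos_left hv (by positivity)
      _ = r := by field_simp
  have h3 : (((s / κ : ℝ) : ℂ) • (((κ / s : ℝ) : ℂ) • v)) ∈ closure (A hy p s) := by
    refine map_mem_closure (continuous_const_smul _) h2 (fun w hw => ?_)
    have := A_smul hy (s / κ) (by positivity) hw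
    rwa [div_mul_cancel₀ s hκ.ne'] at this
  rw [smul_smul] at h3
  have : (((s / κ : ℝ) : ℂ) * ((κ / s : ℝ) : ℂ)) = 1 := by
    rw [← Complex.ofReal_mul, div_mul_div_comm, mul_comm s κ, div_self (by positivity)]
    simp
  rwa [this, one_smul] at h3

theorem approx (p : ℕ) {s : ℝ} {v : K.Space} (hv : v ∈ closure (A hy p s)) (q : ℕ) {η : ℝ}
    (hη : 0 < η) : ∃ w ∈ A hy p s, K.sn q (v - w) < η := by
  have h := mem_closure_iff_nhds.1 hv {w | K.sn q (w - v) < η}
    (mem_nhds_iff.2 ⟨q, η, hη, fun w hw => hw⟩)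
  obtain ⟨w, hw1, hw2⟩ := h
  exact ⟨w, hw2, by rw [map_sub_rev]; exact hw1⟩

/-- successive approximation -/
theorem exists_residuals (p0 : ℕ) (q : ℕ → ℕ) (δ : ℕ → ℝ) (hδ : ∀ p, 0 < δ p)
    (hq : ∀ p s, 0 < s → ∀ v : K.Space, K.sn (q p) v < δ p * s → v ∈ closure (A hy p s))
    (v : K.Space) (hv : K.sn (q p0) v < δ p0) :
    ∃ r : ℕ → K.Space, r 0 = v ∧ ∀ k, (r k - r (k + 1)) ∈ A hy (p0 + k) ((1 / 2) ^ k) ∧
      K.sn k (r (k + 1)) < (1 / 2) ^ k := by
  have step : ∀ (k : ℕ) (r : K.Space), K.sn (q (p0 + k)) r < δ (p0 + k) * (1 / 2) ^ k →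
      ∃ r' : K.Space, (r - r') ∈ A hy (p0 + k) ((1 / 2) ^ k) ∧ K.sn k r' < (1 / 2) ^ k ∧
        K.sn (q (p0 + (k + 1))) r' < δ (p0 + (k + 1)) * (1 / 2) ^ (k + 1) := by
    intro k r hr
    have hc := hq (p0 + k) ((1 / 2) ^ k) (by positivity) r hr
    have h1 : (0 : ℝ) < (1 / 2) ^ k := by positivity
    have h2 : (0 : ℝ) < δ (p0 + (k + 1)) * (1 / 2) ^ (k + 1) := mul_pos (hδ _) (by positivity)
    obtain ⟨w, hw, hw2⟩ := approx hy (p0 + k) hc (max k (q (p0 + (k + 1))))
      (lt_min h1 h2)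
    refine ⟨r - w, by simpa using hw, ?_, ?_⟩
    · exact lt_of_le_of_lt (sn_mono (le_max_left _ _) _) (lt_of_lt_of_le hw2 (min_le_left _ _))
    · exact lt_of_le_of_lt (sn_mono (le_max_right _ _) _) (lt_of_lt_of_le hw2 (min_le_right _ _))
  choose! f hf using step
  let r : ℕ → K.Space := fun k => Nat.rec v (fun k r => f k r) k
  have hr : ∀ k, K.sn (q (p0 + k)) (r k) < δ (p0 + k) * (1 / 2) ^ k := by
    intro k
    induction k with
    | zero => rw [pow_zero, mul_one]; exact hv
    | succ k ih => exact (hf k (r k) ih).2.2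
  exact ⟨r, rfl, fun k => ⟨(hf k (r k) (hr k)).1, (hf k (r k) (hr k)).2.1⟩⟩

theorem bound_of_residuals (p0 : ℕ) (v : K.Space) (r : ℕ → K.Space) (hr0 : r 0 = v)
    (hr : ∀ k, (r k - r (k + 1)) ∈ A hy (p0 + k) ((1 / 2) ^ k) ∧
      K.sn k (r (k + 1)) < (1 / 2) ^ k) (M : ℕ) : K.sn p0 (S hy M v) ≤ 2 := by
  -- partial sums `u k = v - r k`
  set u : ℕ → K.Space := fun k => v - r k with hu
  have hu0 : u 0 = 0 := by simp [hu, hr0]
  have hstep : ∀ k, u (k + 1) - u k = r k - r (k + 1) := by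
    intro k
    simp only [hu]
    abel
  have hdiff : ∀ p k l M, p ≤ p0 + k → K.sn p (S hy M (u (k + l) - u k)) ≤ 2 * (1 / 2) ^ k := by
    intro p k l M hp
    have h1 : ∀ l, K.sn p (S hy M (u (k + l) - u k)) ≤
        2 * (1 / 2) ^ k - 2 * (1 / 2) ^ (k + l) := by
      intro l
      induction l with
      | zero => simp
      | succ l ih =>
        have e : u (k + (l + 1)) - u k = (u (k + l) - u k) + (r (k + l) - r (k + l + 1)) := by
          rw [← hstep, ← add_assoc]; abel
        rw [e, map_add]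
        have h2 := (hr (k + l)).1 M
        have h3 : K.sn p (S hy M (r (k + l) - r (k + l + 1))) ≤ (1 / 2) ^ (k + l) :=
          (sn_mono (by omega) _).trans h2
        calc _ ≤ K.sn p (S hy M (u (k + l) - u k)) + K.sn p (S hy M (r (k + l) - r (k + l + 1))) :=
              map_add_le_add _ _ _
          _ ≤ (2 * (1 / 2) ^ k - 2 * (1 / 2) ^ (k + l)) + (1 / 2) ^ (k + l) := add_le_add ih h3
          _ = _ := by rw [← add_assoc, pow_succ]; ring
    have h2 : (0 : ℝ) ≤ 2 * (1 / 2) ^ (k + l) := by positivity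
    linarith [h1 l]
  -- coefficients converge
  have hc : ∀ n, ∃ a, Tendsto (fun k => cl hy n (u k)) atTop (𝓝 a) := by
    intro n
    apply cauchySeq_tendsto_of_complete
    have hpos := sn_pos (p := p0) (y_ne hy n)
    refine cauchySeq_of_le_geometric (1 / 2) (2 / K.sn p0 (y n)) (by norm_num) (fun k => ?_)
    rw [dist_comm, dist_eq_norm, ← map_sub, hstep]
    have e : cl hy n (r k - r (k + 1)) • y n =
        S hy (n + 1) (r k - r (k + 1)) - S hy n (r k - r (k + 1)) := by
      rw [S_apply, S_apply, Finset.sum_range_succ]; abel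
    have h1 : ‖cl hy n (r k - r (k + 1))‖ * K.sn p0 (y n) ≤ 2 * (1 / 2) ^ k := by
      rw [← map_smul_eq_mul, e]
      have hle : ∀ z, K.sn p0 z ≤ K.sn (p0 + k) z := fun z => sn_mono (by omega) z
      calc _ ≤ _ := map_sub_le_add _ _ _
        _ ≤ (1 / 2) ^ k + (1 / 2) ^ k :=
          add_le_add ((hle _).trans ((hr k).1 _)) ((hle _).trans ((hr k).1 _))
        _ = _ := by ring
    rw [div_mul_eq_mul_div, le_div_iff₀ hpos]
    exact h1
  choose a ha using hc
  have hlim : ∀ p k M, p ≤ p0 + k →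
      K.sn p (∑ n ∈ Finset.range M, a n • y n - S hy M (u k)) ≤ 2 * (1 / 2) ^ k := by
    intro p k M hp
    have ht : Tendsto (fun l => K.sn p (S hy M (u l) - S hy M (u k))) atTop
        (𝓝 (K.sn p (∑ n ∈ Finset.range M, a n • y n - S hy M (u k)))) := by
      refine ((sn_continuous p).tendsto _).comp (Tendsto.sub_const ?_ _)
      simp only [S_apply]
      apply tendsto_finsetSum
      intro n _
      exact (ha n).smul_const _
    refine le_of_tendsto ht ?_
    filter_upwards [eventually_ge_atTop k] with l hl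
    obtain ⟨d, rfl⟩ := Nat.exists_eq_add_of_le hl
    rw [← map_sub]
    exact hdiff p k d M hp
  -- the series with coefficients `a` converges to `v`
  have hav : Tendsto (fun M => ∑ n ∈ Finset.range M, a n • y n) atTop (𝓝 v) := by
    rw [tendsto_iff]
    intro p ε hε
    have hε4 : (0 : ℝ) < ε / 8 := by positivity
    obtain ⟨k0, hk0⟩ := exists_pow_lt_of_lt_one hε4 (by norm_num : (1 / 2 : ℝ) < 1)
    set k := max (max k0 p) 0 + 1 with hk
    have hk1 : (1 / 2 : ℝ) ^ (k - 1) < ε / 8 := by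
      refine lt_of_le_of_lt (pow_le_pow_of_le_one (by norm_num) (by norm_num) ?_) hk0
      rw [hk]; simp
    have hk2 : (1 / 2 : ℝ) ^ k ≤ (1 / 2) ^ (k - 1) :=
      pow_le_pow_of_le_one (by norm_num) (by norm_num) (by omega)
    have hpk : p ≤ k - 1 := by rw [hk]; simp
    have h1 := fun M => hlim p k M (by omega)
    have h2 : K.sn p (r k) < (1 / 2) ^ (k - 1) := by
      have := (hr (k - 1)).2
      have e : k - 1 + 1 = k := by omega
      rw [e] at this
      exact lt_of_le_of_lt (sn_mono hpk _) this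
    have h3 := (tendsto_iff.1 (S_tendsto hy (u k))) p (ε / 4) (by positivity)
    filter_upwards [h3] with M hM
    have e : ∑ n ∈ Finset.range M, a n • y n - v =
        (∑ n ∈ Finset.range M, a n • y n - S hy M (u k)) + (S hy M (u k) - u k) + (-r k) := by
      simp only [hu]; abel
    rw [e]
    calc _ ≤ K.sn p ((∑ n ∈ Finset.range M, a n • y n - S hy M (u k)) + (S hy M (u k) - u k)) +
          K.sn p (-r k) := map_add_le_add _ _ _
      _ ≤ (K.sn p (∑ n ∈ Finset.range M, a n • y n - S hy M (u k)) +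
          K.sn p (S hy M (u k) - u k)) + K.sn p (-r k) := by
        gcongr
        exact map_add_le_add _ _ _
      _ < ε := by
        rw [map_neg_eq_map]
        have := h1 M
        linarith
  have hfin := hlim p0 0 M (by omega)
  rw [hu0, map_zero, sub_zero] at hfin
  have e : S hy M v = ∑ n ∈ Finset.range M, a n • y n := by
    rw [S_apply]
    exact Finset.sum_congr rfl fun n _ => by rw [cl_unique hy hav n]
  rw [e]
  simpa using hfin

theorem equicontinuous (p0 : ℕ) : ∃ q, ∃ C : ℝ, ∀ v n,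
    ‖cl hy n v‖ * K.sn p0 (y n) ≤ C * K.sn q v := by
  choose q δ hδ hq using stepA hy
  have hb : ∀ v : K.Space, K.sn (q p0) v < δ p0 → ∀ M, K.sn p0 (S hy M v) ≤ 2 := by
    intro v hv M
    obtain ⟨r, hr0, hr⟩ := exists_residuals hy p0 q δ hδ hq v hv
    exact bound_of_residuals hy p0 v r hr0 hr M
  have hb2 : ∀ (v : K.Space) M, K.sn p0 (S hy M v) ≤ 4 / δ p0 * K.sn (q p0) v := by
    intro v M
    by_cases hv : v = 0
    · simp [hv]
    have hpos := sn_pos (p := q p0) hv
    set t : ℝ := δ p0 / (2 * K.sn (q p0) v) with ht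
    have htpos : 0 < t := div_pos (hδ p0) (by positivity)
    have hn : ‖(t : ℂ)‖ = t := by rw [Complex.norm_real, Real.norm_of_nonneg htpos.le]
    have h1 := hb ((t : ℂ) • v) (by
      rw [map_smul_eq_mul, hn, ht]
      have : δ p0 / (2 * K.sn (q p0) v) * K.sn (q p0) v = δ p0 / 2 := by
        field_simp
      rw [this]
      linarith [hδ p0]) M
    rw [map_smul, map_smul_eq_mul, hn] at h1
    have h2 : K.sn p0 (S hy M v) ≤ 2 / t := by
      rw [le_div_iff₀ htpos, mul_comm]; exact h1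
    refine h2.trans (le_of_eq ?_)
    rw [ht]
    have := (hδ p0).ne'
    field_simp
    norm_num
  refine ⟨q p0, 8 / δ p0, fun v n => ?_⟩
  have e : cl hy n v • y n = S hy (n + 1) v - S hy n v := by
    rw [S_apply, S_apply, Finset.sum_range_succ]; abel
  rw [← map_smul_eq_mul, e]
  calc _ ≤ _ := map_sub_le_add _ _ _
    _ ≤ 4 / δ p0 * K.sn (q p0) v + 4 / δ p0 * K.sn (q p0) v := add_le_add (hb2 _ _) (hb2 _ _)
    _ = _ := by ring

end Basis

end F1

theorem partF1 : PartF1 := fun _ _ hy =>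
  ⟨F1.cl hy, F1.cl_tendsto hy, F1.cl_self hy, F1.equicontinuous hy⟩

end QEP
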