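import Pool.Agent.Work.MP_e35540_an.PartF1
import Pool.Agent.Work.MP_e35540_an.CoreA

/-! MP_e35540_an: unit vectors, expansions, dominating weights, construction of links. -/

open Filter Topology

namespace QEP

namespace F4

variable {K : KMat}

/-- The unit vectors. -/
noncomputable def e (K : KMat) (i : ℕ) : K.Space :=
  F1.mk (fun j => if j = i then 1 else 0) (by
    intro p
    refine summable_of_ne_finset_zero (s := {i}) ?_
    intro j hj
    have hj' : j ≠ i := by simpa using hj
    simp [hj'])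

theorem e_co (i j : ℕ) : (e K i).co j = if j = i then 1 else 0 := rfl

theorem sn_e (p i : ℕ) : K.sn p (e K i) = K.b i p := by
  rw [KMat.sn_apply, tsum_eq_single i]
  · rw [e_co, if_pos rfl]; simp
  · intro j hj
    rw [e_co, if_neg hj]; simp

theorem co_le (p : ℕ) (v : K.Space) (i : ℕ) : ‖v.co i‖ * K.b i p ≤ K.sn p v := by
  rw [KMat.sn_apply]
  exact (v.summable K p).le_tsum i (fun j _ => mul_nonneg (norm_nonneg _) (K.pos j p).le)

theorem sum_co (F : Finset ℕ) (f : ℕ → K.Space) (i : ℕ) :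
    (∑ j ∈ F, f j).co i = ∑ j ∈ F, (f j).co i := by
  classical
  induction F using Finset.induction_on with
  | empty => simp
  | insert a s ha ih => rw [Finset.sum_insert ha, Finset.sum_insert ha, KMat.co_add, ih]

theorem tail (p : ℕ) (v : K.Space) :
    Tendsto (fun F : Finset ℕ => K.sn p (v - ∑ i ∈ F, v.co i • e K i)) atTop (𝓝 0) := by
  classical
  have h1 : ∀ F : Finset ℕ, K.sn p (v - ∑ i ∈ F, v.co i • e K i) =
      K.sn p v - ∑ i ∈ F, ‖v.co i‖ * K.b i p := by
    intro F
    have h2 : ∀ i, (v - ∑ i ∈ F, v.co i • e K i).co i = if i ∈ F then 0 else v.co i := by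
      intro i
      rw [KMat.co_sub, sum_co]
      have : ∀ j ∈ F, (v.co j • e K j).co i = if i = j then v.co j else 0 := by
        intro j _
        rw [KMat.co_smul, e_co]
        split_ifs <;> simp
      rw [Finset.sum_congr rfl this, Finset.sum_ite_eq]
      split_ifs <;> simp
    rw [KMat.sn_apply, KMat.sn_apply]
    have h3 : HasSum (fun i => if i ∈ F then ‖v.co i‖ * K.b i p else 0)
        (∑ i ∈ F, ‖v.co i‖ * K.b i p) := by
      have h4 : HasSum (fun i => if i ∈ F then ‖v.co i‖ * K.b i p else 0)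
          (∑ i ∈ F, if i ∈ F then ‖v.co i‖ * K.b i p else 0) :=
        hasSum_sum_of_ne_finset_zero (fun b hb => by simp [hb])
      have h5 : (∑ i ∈ F, if i ∈ F then ‖v.co i‖ * K.b i p else 0) =
          ∑ i ∈ F, ‖v.co i‖ * K.b i p := Finset.sum_congr rfl (fun b hb => by simp [hb])
      rwa [h5] at h4
    have h6 := ((v.summable K p).hasSum.sub h3).tsum_eq
    rw [← h6]
    apply tsum_congr
    intro i
    rw [h2]
    by_cases hi : i ∈ F <;> simp [hi]
  simp only [h1]
  have h7 : Tendsto (fun F : Finset ℕ => ∑ i ∈ F, ‖v.co i‖ * K.b i p) atTop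
      (𝓝 (K.sn p v)) := (v.summable K p).hasSum
  have := (tendsto_const_nhds (x := K.sn p v)).sub h7
  rwa [sub_self] at this

/-- A continuous functional is given by its values on the unit vectors. -/
theorem expand (c : K.Space →ₗ[ℂ] ℂ) (q : ℕ) (C : ℝ) (hc : ∀ v, ‖c v‖ ≤ C * K.sn q v)
    (v : K.Space) : HasSum (fun i => v.co i * c (e K i)) (c v) := by
  have h1 := (tail q v).const_mul C
  rw [mul_zero] at h1
  have h2 : Tendsto (fun F : Finset ℕ => c (v - ∑ i ∈ F, v.co i • e K i)) atTop (𝓝 0) :=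
    squeeze_zero_norm (fun F => hc _) h1
  have h3 : ∀ F : Finset ℕ, c (v - ∑ i ∈ F, v.co i • e K i) =
      c v - ∑ i ∈ F, v.co i * c (e K i) := by
    intro F
    rw [map_sub, map_sum]
    simp
  simp only [h3] at h2
  have h4 := (tendsto_const_nhds (x := c v)).sub h2
  simp only [sub_sub_cancel, sub_zero] at h4
  exact h4

/-- Dominating weights. -/
theorem dominating (f : ℕ → ℕ → ℝ) (h0 : ∀ p i, 0 ≤ f p i) (hs : ∀ p, Summable (f p)) :
    ∃ ω : ℕ → ℝ, Summable ω ∧ ∑' i, ω i ≤ 1 / 2 ∧ ∀ p, ∃ D : ℝ, 0 < D ∧ ∀ i, f p i ≤ D * ω i := by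
  set N : ℕ → ℝ := fun p => 1 + ∑' i, f p i with hN
  have hN0 : ∀ p, 0 < N p := fun p => by
    have : 0 ≤ ∑' i, f p i := tsum_nonneg (h0 p)
    simp only [hN]; linarith
  set g : ℕ × ℕ → ℝ := fun x => (1 / 2) ^ (x.1 + 2) / N x.1 * f x.1 x.2 with hg
  have hg0 : ∀ x, 0 ≤ g x := fun x => by
    have := hN0 x.1
    have := h0 x.1 x.2
    simp only [hg]; positivity
  have hrow : ∀ p, Summable fun i => g (p, i) := fun p => (hs p).mul_left ((1 / 2) ^ (p + 2) / N p)
  have hrowsum : ∀ p, ∑' i, g (p, i) ≤ (1 / 2) ^ (p + 2) := by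
    intro p
    simp only [hg]
    rw [tsum_mul_left, div_mul_eq_mul_div, div_le_iff₀ (hN0 p)]
    apply mul_le_mul_of_nonneg_left _ (by positivity)
    simp only [hN]; linarith
  have hgeo : Summable fun p : ℕ => ((1 : ℝ) / 2) ^ (p + 2) := by
    have := (summable_geometric_two).mul_right (((1 : ℝ) / 2) ^ 2)
    refine this.congr (fun p => ?_)
    rw [pow_add]
  have hgs : Summable g := by
    rw [summable_prod_of_nonneg hg0]
    exact ⟨hrow, Summable.of_nonneg_of_le (fun p => tsum_nonneg (fun i => hg0 _)) hrowsum hgeo⟩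
  have hgs' : Summable fun x : ℕ × ℕ => g (x.2, x.1) := hgs.comp_injective Prod.swap_injective
  refine ⟨fun i => ∑' p, g (p, i), ?_, ?_, ?_⟩
  · exact hgs'.prod
  · have h1 : ∑' i, ∑' p, g (p, i) = ∑' p, ∑' i, g (p, i) :=
      Summable.tsum_comm (f := fun p i => g (p, i)) hgs
    rw [h1]
    calc ∑' p, ∑' i, g (p, i) ≤ ∑' p : ℕ, ((1 : ℝ) / 2) ^ (p + 2) :=
          (Summable.of_nonneg_of_le (fun p => tsum_nonneg (fun i => hg0 _)) hrowsum
            hgeo).tsum_le_tsum hrowsum hgeo
      _ = 1 / 2 := by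
          have : (fun p : ℕ => ((1 : ℝ) / 2) ^ (p + 2)) = fun p => (1 / 2) ^ p * (1 / 2) ^ 2 := by
            funext p; rw [pow_add]
          rw [this, tsum_mul_right, tsum_geometric_two]
          norm_num
  · intro p
    refine ⟨N p / (1 / 2) ^ (p + 2), by have := hN0 p; positivity, fun i => ?_⟩
    have h1 : g (p, i) ≤ ∑' p, g (p, i) :=
      (hgs'.prod_factor i).le_tsum p (fun j _ => hg0 _)
    have h2 := hN0 p
    calc f p i = N p / (1 / 2) ^ (p + 2) * g (p, i) := by
          simp only [hg]; field_simp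
      _ ≤ _ := by
          apply mul_le_mul_of_nonneg_left h1
          positivity

/-- Construction of a link from bounds with arbitrary constants. -/
theorem mkLink (A B : Fam) (T S : ℕ → ℕ → ℂ)
    (hT : ∀ p : ℕ, ∃ q : ℕ, ∃ C : ℝ, ∀ j i, ‖T j i‖ ≤
      C * Real.exp (A.h i (q + 1) - B.h j (p + 1)))
    (hS : ∀ p : ℕ, ∃ q : ℕ, ∃ C : ℝ, ∀ i j, ‖S i j‖ ≤
      C * Real.exp (B.h j (q + 1) - A.h i (p + 1)))
    (hST : ∀ i i', HasSum (fun j => S i j * T j i') (if i = i' then 1 else 0))
    (hTS : ∀ j j', HasSum (fun i => T j i * S i j') (if j = j' then 1 else 0)) :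
    Nonempty (Link A B) := by
  choose qT CT hT using hT
  choose qS CS hS using hS
  set ψ : ℕ → ℕ := fun p => p + 1 + ∑ k ∈ Finset.range (p + 1), (qT k + qS k) with hψ
  set c : ℕ → ℝ := fun p => ∑ k ∈ Finset.range (p + 1), (|CT k| + |CS k|) with hc
  have hψT : ∀ p, qT p + 1 ≤ ψ (p + 1) := by
    intro p
    have : qT p + qS p ≤ ∑ k ∈ Finset.range (p + 1 + 1), (qT k + qS k) :=
      Finset.single_le_sum (f := fun k => qT k + qS k) (fun k _ => Nat.zero_le _)
        (Finset.mem_range.2 (by omega))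
    simp only [hψ]; omega
  have hψS : ∀ p, qS p + 1 ≤ ψ (p + 1) := by
    intro p
    have : qT p + qS p ≤ ∑ k ∈ Finset.range (p + 1 + 1), (qT k + qS k) :=
      Finset.single_le_sum (f := fun k => qT k + qS k) (fun k _ => Nat.zero_le _)
        (Finset.mem_range.2 (by omega))
    simp only [hψ]; omega
  have hcT : ∀ p, CT p ≤ Real.exp (c (p + 1)) := by
    intro p
    have h1 : |CT p| + |CS p| ≤ ∑ k ∈ Finset.range (p + 1 + 1), (|CT k| + |CS k|) :=
      Finset.single_le_sum (f := fun k => |CT k| + |CS k|) (fun k _ => by positivity)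
        (Finset.mem_range.2 (by omega))
    have h2 := Real.add_one_le_exp (c (p + 1))
    have h3 := le_abs_self (CT p)
    have h4 := abs_nonneg (CS p)
    have h5 : |CT p| + |CS p| ≤ c (p + 1) := h1
    linarith
  have hcS : ∀ p, CS p ≤ Real.exp (c (p + 1)) := by
    intro p
    have h1 : |CT p| + |CS p| ≤ ∑ k ∈ Finset.range (p + 1 + 1), (|CT k| + |CS k|) :=
      Finset.single_le_sum (f := fun k => |CT k| + |CS k|) (fun k _ => by positivity)
        (Finset.mem_range.2 (by omega))
    have h2 := Real.add_one_le_exp (c (p + 1))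
    have h3 := le_abs_self (CS p)
    have h4 := abs_nonneg (CT p)
    have h5 : |CT p| + |CS p| ≤ c (p + 1) := h1
    linarith
  refine ⟨{ ψ := ψ, c := c, T := T, S := S, hψ := ?_, ψmono := ?_, c0 := ?_, cmono := ?_,
            hT := ?_, hS := ?_, hST := hST, hTS := hTS }⟩
  · intro p; simp only [hψ]; omega
  · apply monotone_nat_of_le_succ
    intro p
    simp only [hψ]
    rw [Finset.sum_range_succ _ (p + 1)]
    omega
  · intro p; simp only [hc]; positivity
  · apply monotone_nat_of_le_succ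
    intro p
    simp only [hc]
    rw [Finset.sum_range_succ _ (p + 1)]
    have : 0 ≤ |CT (p + 1)| + |CS (p + 1)| := by positivity
    linarith
  · intro p hp j i
    obtain ⟨p, rfl⟩ : ∃ p', p = p' + 1 := ⟨p - 1, by omega⟩
    refine (hT p j i).trans ?_
    have h1 : A.h i (qT p + 1) ≤ A.h i (ψ (p + 1)) := by
      unfold Fam.h
      apply hh_mono' (A.apos i) (A.l0 i) (by omega) (hψT p)
    calc CT p * Real.exp (A.h i (qT p + 1) - B.h j (p + 1))
        ≤ Real.exp (c (p + 1)) * Real.exp (A.h i (ψ (p + 1)) - B.h j (p + 1)) := by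
          apply mul_le_mul (hcT p) _ (Real.exp_pos _).le (Real.exp_pos _).le
          apply Real.exp_le_exp.2; linarith
      _ = _ := by rw [← Real.exp_add]; congr 1; ring
  · intro p hp i j
    obtain ⟨p, rfl⟩ : ∃ p', p = p' + 1 := ⟨p - 1, by omega⟩
    refine (hS p i j).trans ?_
    have h1 : B.h j (qS p + 1) ≤ B.h j (ψ (p + 1)) := by
      unfold Fam.h
      apply hh_mono' (B.apos j) (B.l0 j) (by omega) (hψS p)
    calc CS p * Real.exp (B.h j (qS p + 1) - A.h i (p + 1))
        ≤ Real.exp (c (p + 1)) * Real.exp (B.h j (ψ (p + 1)) - A.h i (p + 1)) := by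
          apply mul_le_mul (hcS p) _ (Real.exp_pos _).le (Real.exp_pos _).le
          apply Real.exp_le_exp.2; linarith
      _ = _ := by rw [← Real.exp_add]; congr 1; ring

end F4

end QEP
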